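import Mathlib
import Pool.Agent.Work.MP_db9399_all_helper34.VIZ

/-!
# Vizing's theorem with an independent set of vertices of degree `D + 1` (helper22)
-/

set_option autoImplicit false

namespace Pool.Agent.Work.MP_db9399_bp_helper22

open Finset Classical
open Pool.Agent.Work.MP_db9399_all (nb)
open Pool.Agent.Work.MP_db9399_all.VIZ (EC del main_ind mem_nb)

universe u

/-- FOURNIER: a graph whose degrees are at most `D`, except at an independent set `Z` where they may
be `D + 1`, has a proper edge colouring with `D + 1` colours. -/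
theorem fournier {V : Type u} [Fintype V] (G : SimpleGraph V) (D : ℕ) (Z : Finset V)
    (hZ : ∀ u ∈ Z, ∀ w ∈ Z, ¬ G.Adj u w)
    (hdeg : ∀ v, (nb G v).card ≤ D + if v ∈ Z then 1 else 0) :
    ∃ t : V → V → ℕ, (∀ v w, t v w = t w v) ∧ (∀ v w, G.Adj v w → t v w < D + 1) ∧
      ∀ v w w', G.Adj v w → G.Adj v w' → t v w = t v w' → w = w' := by
  let GS : Finset V → SimpleGraph V := fun S =>
    { Adj := fun x y => G.Adj x y ∧ x ∈ S ∧ y ∈ S
      symm := ⟨fun _ _ h => ⟨h.1.symm, h.2.2, h.2.1⟩⟩
      loopless := ⟨fun x h => G.loopless.irrefl x h.1⟩ }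
  have hsub : ∀ S w, (nb (GS S) w).card ≤ (nb G w).card := by
    intro S w
    apply card_le_card
    intro y hy
    exact mem_nb.mpr (mem_nb.mp hy).1
  -- the step
  have step : ∀ (S : Finset V) (v : V), v ∉ S → (∀ w ∈ S, G.Adj v w → w ∉ Z) →
      (∃ t, EC (GS S) (range (D + 1)) t) → ∃ t, EC (GS (insert v S)) (range (D + 1)) t := by
    intro S v hv hnz ih
    have hnb : ∀ w ∈ nb (GS (insert v S)) v, (nb (GS (insert v S)) w).card + 1 ≤ D + 1 := by
      intro w hw
      obtain ⟨h1, _, h3⟩ := mem_nb.mp hw
      have hwS : w ∈ S := by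
        rcases mem_insert.1 h3 with h4 | h4
        · exact absurd h4.symm h1.ne
        · exact h4
      have h5 := hdeg w
      rw [if_neg (hnz w hwS h1)] at h5
      have h6 := hsub (insert v S) w
      omega
    apply main_ind (D + 1) (range (D + 1)) (by simp) (GS (insert v S)) v v
    · have h1 := hsub (insert v S) v
      have h2 := hdeg v
      split_ifs at h2 <;> omega
    · intro w hw
      have := hnb w hw
      omega
    · intro w hw _
      exact hnb w hw
    · have : del (GS (insert v S)) v = GS S := by
        ext x y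
        simp only [del, GS, Finset.mem_insert]
        constructor
        · rintro ⟨⟨h1, h2, h3⟩, h4, h5⟩
          exact ⟨h1, h2.resolve_left h4, h3.resolve_left h5⟩
        · rintro ⟨h1, h2, h3⟩
          refine ⟨⟨h1, Or.inr h2, Or.inr h3⟩, ?_, ?_⟩
          · rintro rfl; exact hv h2
          · rintro rfl; exact hv h3
      rw [this]
      exact ih
  -- first the vertices outside of `Z`
  have key1 : ∀ S : Finset V, (∀ w ∈ S, w ∉ Z) → ∃ t, EC (GS S) (range (D + 1)) t := by
    intro S
    induction S using Finset.induction_on with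
    | empty =>
      intro _
      refine ⟨fun _ _ => 0, fun _ _ _ => rfl, fun x y h => ?_, fun x y hy => ?_⟩
      · exact absurd h.2.1 (by simp)
      · exact absurd (mem_nb.mp hy).2.1 (by simp)
    | insert v S hv ih =>
      intro h
      exact step S v hv (fun w hw _ => h w (mem_insert_of_mem hw))
        (ih fun w hw => h w (mem_insert_of_mem hw))
  -- then the vertices of `Z`
  have key2 : ∀ S ⊆ Z, ∃ t, EC (GS (S ∪ (univ \ Z))) (range (D + 1)) t := by
    intro S
    induction S using Finset.induction_on with
    | empty =>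
      intro _
      rw [empty_union]
      exact key1 _ (fun w hw => (mem_sdiff.1 hw).2)
    | insert v S hv ih =>
      intro h
      have hvZ : v ∈ Z := h (mem_insert_self _ _)
      have h1 := ih ((subset_insert _ _).trans h)
      rw [insert_union]
      apply step _ v _ _ h1
      · rw [mem_union, not_or]
        exact ⟨hv, fun h2 => (mem_sdiff.1 h2).2 hvZ⟩
      · intro w _ hw hwZ
        exact hZ v hvZ w hwZ hw
  obtain ⟨t, ht⟩ := key2 Z (Subset.refl _)
  have hU : GS (Z ∪ (univ \ Z)) = G := by
    ext x y
    simp [GS]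
  rw [hU] at ht
  refine ⟨fun v w => if G.Adj v w then t v w else 0, ?_, ?_, ?_⟩
  · intro v w
    by_cases h : G.Adj v w
    · simp only [if_pos h, if_pos h.symm]
      exact ht.sym v w h
    · simp only [if_neg h, if_neg (fun h' : G.Adj w v => h h'.symm)]
  · intro v w h
    simp only [if_pos h]
    exact Finset.mem_range.mp (ht.mem v w h)
  · intro v y z hy hz hyz
    simp only [if_pos hy, if_pos hz] at hyz
    exact ht.inj v (mem_nb.mpr hy) (mem_nb.mpr hz) hyz

end Pool.Agent.Work.MP_db9399_bp_helper22
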