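import Mathlib
import Pool.Agent.Work.MP_db9399_co.Galvin
import Pool.Agent.Work.MP_db9399_co.Konig
import Pool.Agent.Work.MP_db9399_co.BKW75

/-!
# Bipartite finishes with prescribed own colours (helper22)

* `class_rule`: Galvin's theorem when the classes of a proper colouring `f` of the bipartite
  multigraph are used as priorities: a vertex `v` on the left which has no edge of a class
  `< al v`, and a vertex `w` on the right which has no edge of a class `≥ r - be w`, allow lists
  which are shorter by `al v + be w`.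
* `class_rule_own`: prescribed own colours at the vertices of the left which have no edge of class
  `0` and at the vertices of the right which have no edge of class `r - 1`.
* `half_token`: a matching `Pi` plus a rest of degree at most `r - 2`; own colours are prescribed
  such that no edge of `Pi` has two prescribed ends.
* `bkw_own`: the Borodin-Kostochka-Woodall form.
-/

set_option autoImplicit false

namespace Pool.Agent.Work.MP_db9399_bp_helper22

open Finset

section
variable {E X Y C : Type*} [DecidableEq E] [DecidableEq X] [DecidableEq Y] [DecidableEq C]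

/-- Galvin's theorem with the class rule. -/
theorem class_rule [Nonempty C] (x : E → X) (y : E → Y) (S : Finset E) (r : ℕ) (f : E → ℕ)
    (hfx : ∀ e ∈ S, ∀ e' ∈ S, x e = x e' → f e = f e' → e = e')
    (hfy : ∀ e ∈ S, ∀ e' ∈ S, y e = y e' → f e = f e' → e = e')
    (al : X → ℕ) (be : Y → ℕ) (hal : ∀ e ∈ S, al (x e) ≤ f e)
    (hbe : ∀ e ∈ S, f e + be (y e) < r) (L : E → Finset C)
    (hL : ∀ e ∈ S, r ≤ (L e).card + al (x e) + be (y e)) :
    ∃ col : E → C, (∀ e ∈ S, col e ∈ L e) ∧
      ∀ e ∈ S, ∀ e' ∈ S, e ≠ e' → (x e = x e' ∨ y e = y e') → col e ≠ col e' := by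
  refine _root_.MP_db9399_co.galvin x y f (fun e => r - 1 - f e) S hfx ?_ L ?_
  · intro e he e' he' hy h
    have h1 := hbe e he
    have h2 := hbe e' he'
    refine hfy e he e' he' hy ?_
    omega
  · intro e he
    have h1 : (S.filter (fun e' => x e' = x e ∧ f e' < f e)).card ≤ f e - al (x e) := by
      have : (S.filter (fun e' => x e' = x e ∧ f e' < f e)).card
          ≤ (Finset.Ico (al (x e)) (f e)).card := by
        refine card_le_card_of_injOn f ?_ ?_
        · intro e' he'
          rw [mem_coe, mem_filter] at he'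
          rw [mem_coe, mem_Ico]
          refine ⟨?_, he'.2.2⟩
          have := hal e' he'.1
          rw [he'.2.1] at this
          exact this
        · intro a ha b hb hab
          rw [mem_coe, mem_filter] at ha hb
          exact hfx a ha.1 b hb.1 (ha.2.1.trans hb.2.1.symm) hab
      rwa [Nat.card_Ico] at this
    have h2 : (S.filter (fun e' => y e' = y e ∧ r - 1 - f e' < r - 1 - f e)).card
        ≤ r - be (y e) - (f e + 1) := by
      have : (S.filter (fun e' => y e' = y e ∧ r - 1 - f e' < r - 1 - f e)).card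
          ≤ (Finset.Ico (f e + 1) (r - be (y e))).card := by
        refine card_le_card_of_injOn f ?_ ?_
        · intro e' he'
          rw [mem_coe, mem_filter] at he'
          rw [mem_coe, mem_Ico]
          have h3 := hbe e' he'.1
          rw [he'.2.1] at h3
          have h4 := he'.2.2
          omega
        · intro a ha b hb hab
          rw [mem_coe, mem_filter] at ha hb
          exact hfy a ha.1 b hb.1 (ha.2.1.trans hb.2.1.symm) hab
      rwa [Nat.card_Ico] at this
    have h3 := hal e he
    have h4 := hbe e he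
    have h5 := hL e he
    omega

/-- The class rule with prescribed own colours: the vertices of `PX` have no edge of class `0`, the
vertices of `PY` have no edge of class `r - 1`. -/
theorem class_rule_own [Nonempty C] (x : E → X) (y : E → Y) (S : Finset E) (r : ℕ) (f : E → ℕ)
    (hfx : ∀ e ∈ S, ∀ e' ∈ S, x e = x e' → f e = f e' → e = e')
    (hfy : ∀ e ∈ S, ∀ e' ∈ S, y e = y e' → f e = f e' → e = e')
    (hr : ∀ e ∈ S, f e < r)
    (PX : Finset X) (PY : Finset Y) (cX : X → C) (cY : Y → C) (Q : Finset C) (hQ : r ≤ Q.card)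
    (h0 : ∀ e ∈ S, x e ∈ PX → f e ≠ 0) (h1 : ∀ e ∈ S, y e ∈ PY → f e + 1 < r) :
    ∃ col : E → C, (∀ e ∈ S, col e ∈ Q) ∧
      (∀ e ∈ S, x e ∈ PX → col e ≠ cX (x e)) ∧ (∀ e ∈ S, y e ∈ PY → col e ≠ cY (y e)) ∧
      ∀ e ∈ S, ∀ e' ∈ S, e ≠ e' → (x e = x e' ∨ y e = y e') → col e ≠ col e' := by
  classical
  set L : E → Finset C := fun e =>
    (Q \ (if x e ∈ PX then {cX (x e)} else ∅)) \ (if y e ∈ PY then {cY (y e)} else ∅) with hLdef
  obtain ⟨col, h2, h3⟩ := class_rule x y S r f hfx hfy
    (fun v => if v ∈ PX then 1 else 0) (fun v => if v ∈ PY then 1 else 0)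
    (fun e he => by
      split_ifs with h
      · exact Nat.one_le_iff_ne_zero.2 (h0 e he h)
      · exact Nat.zero_le _)
    (fun e he => by
      split_ifs with h
      · exact h1 e he h
      · exact hr e he)
    L (fun e he => by
      have h4 := le_card_sdiff (if y e ∈ PY then ({cY (y e)} : Finset C) else ∅)
        (Q \ (if x e ∈ PX then {cX (x e)} else ∅))
      have h5 := le_card_sdiff (if x e ∈ PX then ({cX (x e)} : Finset C) else ∅) Q
      have h6 : (if x e ∈ PX then ({cX (x e)} : Finset C) else ∅).card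
          = if x e ∈ PX then 1 else 0 := by split_ifs <;> simp
      have h7 : (if y e ∈ PY then ({cY (y e)} : Finset C) else ∅).card
          = if y e ∈ PY then 1 else 0 := by split_ifs <;> simp
      rw [h7] at h4
      rw [h6] at h5
      simp only [hLdef]
      omega)
  refine ⟨col, fun e he => ?_, fun e he hP => ?_, fun e he hP => ?_, h3⟩
  · have := h2 e he
    simp only [hLdef, mem_sdiff] at this
    exact this.1.1
  · have := h2 e he
    simp only [hLdef, mem_sdiff, if_pos hP, mem_singleton] at this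
    exact this.1.2
  · have := h2 e he
    simp only [hLdef, mem_sdiff, if_pos hP, mem_singleton] at this
    exact this.2

/-- Half-tokens: `S` consists of a matching `Pi` and a rest of maximum degree at most `r - 2`; own
colours are prescribed on `PX` and on `PY` such that no edge of `Pi` has two prescribed ends. -/
theorem half_token [Nonempty C] (x : E → X) (y : E → Y) (S Pi : Finset E) (hPi : Pi ⊆ S)
    (r : ℕ) (hr : 2 ≤ r)
    (hPx : ∀ e ∈ Pi, ∀ e' ∈ Pi, x e = x e' → e = e')
    (hPy : ∀ e ∈ Pi, ∀ e' ∈ Pi, y e = y e' → e = e')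
    (hdx : ∀ v, ((S \ Pi).filter (fun e => x e = v)).card ≤ r - 2)
    (hdy : ∀ v, ((S \ Pi).filter (fun e => y e = v)).card ≤ r - 2)
    (PX : Finset X) (PY : Finset Y) (cX : X → C) (cY : Y → C) (Q : Finset C) (hQ : r ≤ Q.card)
    (hP : ∀ e ∈ Pi, x e ∈ PX → y e ∉ PY) :
    ∃ col : E → C, (∀ e ∈ S, col e ∈ Q) ∧
      (∀ e ∈ S, x e ∈ PX → col e ≠ cX (x e)) ∧ (∀ e ∈ S, y e ∈ PY → col e ≠ cY (y e)) ∧
      ∀ e ∈ S, ∀ e' ∈ S, e ≠ e' → (x e = x e' ∨ y e = y e') → col e ≠ col e' := by
  classical
  obtain ⟨k, hk1, hk2⟩ := _root_.MP_db9399_co.konig x y (r - 2) (S \ Pi) hdx hdy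
  refine class_rule_own x y S r
    (fun e => if e ∈ Pi then (if x e ∈ PX then r - 1 else 0) else k e + 1) ?_ ?_ ?_
    PX PY cX cY Q hQ ?_ ?_
  · intro e he e' he' hx h
    by_cases h1 : e ∈ Pi <;> by_cases h2 : e' ∈ Pi
    · exact hPx e h1 e' h2 hx
    · rw [if_pos h1, if_neg h2] at h
      have h3 := hk1 e' (mem_sdiff.2 ⟨he', h2⟩)
      split_ifs at h <;> omega
    · rw [if_neg h1, if_pos h2] at h
      have h3 := hk1 e (mem_sdiff.2 ⟨he, h1⟩)
      split_ifs at h <;> omega
    · rw [if_neg h1, if_neg h2] at h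
      by_contra hne
      exact hk2 e (mem_sdiff.2 ⟨he, h1⟩) e' (mem_sdiff.2 ⟨he', h2⟩) hne (Or.inl hx) (by omega)
  · intro e he e' he' hy h
    by_cases h1 : e ∈ Pi <;> by_cases h2 : e' ∈ Pi
    · exact hPy e h1 e' h2 hy
    · rw [if_pos h1, if_neg h2] at h
      have h3 := hk1 e' (mem_sdiff.2 ⟨he', h2⟩)
      split_ifs at h <;> omega
    · rw [if_neg h1, if_pos h2] at h
      have h3 := hk1 e (mem_sdiff.2 ⟨he, h1⟩)
      split_ifs at h <;> omega
    · rw [if_neg h1, if_neg h2] at h
      by_contra hne
      exact hk2 e (mem_sdiff.2 ⟨he, h1⟩) e' (mem_sdiff.2 ⟨he', h2⟩) hne (Or.inr hy) (by omega)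
  · intro e he
    by_cases h1 : e ∈ Pi
    · rw [if_pos h1]
      split_ifs <;> omega
    · rw [if_neg h1]
      have h3 := hk1 e (mem_sdiff.2 ⟨he, h1⟩)
      omega
  · intro e he hX
    by_cases h1 : e ∈ Pi
    · rw [if_pos h1, if_pos hX]
      omega
    · rw [if_neg h1]
      omega
  · intro e he hY
    by_cases h1 : e ∈ Pi
    · rw [if_pos h1, if_neg (fun h => hP e h1 h hY)]
      omega
    · rw [if_neg h1]
      have h3 := hk1 e (mem_sdiff.2 ⟨he, h1⟩)
      omega

end

/-- The Borodin-Kostochka-Woodall form: own colours are prescribed on `PU` and `PW`; the degrees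
plus the number of prescribed ends of an edge are at most the number of colours. -/
theorem bkw_own {U W C : Type*} [DecidableEq U] [DecidableEq W] [DecidableEq C] [Nonempty C]
    (E : Finset (U × W)) (PU : Finset U) (PW : Finset W) (cU : U → C) (cW : W → C) (Q : Finset C)
    (hE : ∀ e ∈ E, max (E.filter (fun e' => e'.1 = e.1)).card
      (E.filter (fun e' => e'.2 = e.2)).card + (if e.1 ∈ PU then 1 else 0) +
      (if e.2 ∈ PW then 1 else 0) ≤ Q.card) :
    ∃ col : U × W → C, (∀ e ∈ E, col e ∈ Q) ∧ (∀ e ∈ E, e.1 ∈ PU → col e ≠ cU e.1) ∧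
      (∀ e ∈ E, e.2 ∈ PW → col e ≠ cW e.2) ∧
      ∀ e ∈ E, ∀ e' ∈ E, e ≠ e' → (e.1 = e'.1 ∨ e.2 = e'.2) → col e ≠ col e' := by
  classical
  set L : U × W → Finset C := fun e =>
    (Q \ (if e.1 ∈ PU then {cU e.1} else ∅)) \ (if e.2 ∈ PW then {cW e.2} else ∅) with hLdef
  obtain ⟨col, h2, h3⟩ := Pool.Agent.Work.MP_db9399_co.bkw E L (fun e he => by
      have h3 := hE e he
      have h4 := le_card_sdiff (if e.2 ∈ PW then ({cW e.2} : Finset C) else ∅)
        (Q \ (if e.1 ∈ PU then {cU e.1} else ∅))
      have h5 := le_card_sdiff (if e.1 ∈ PU then ({cU e.1} : Finset C) else ∅) Q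
      have h6 : (if e.1 ∈ PU then ({cU e.1} : Finset C) else ∅).card
          = if e.1 ∈ PU then 1 else 0 := by split_ifs <;> simp
      have h7 : (if e.2 ∈ PW then ({cW e.2} : Finset C) else ∅).card
          = if e.2 ∈ PW then 1 else 0 := by split_ifs <;> simp
      rw [h7] at h4
      rw [h6] at h5
      simp only [hLdef]
      omega)
  refine ⟨col, fun e he => ?_, fun e he hP => ?_, fun e he hP => ?_, h3⟩
  · have := h2 e he
    simp only [hLdef, mem_sdiff] at this
    exact this.1.1
  · have := h2 e he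
    simp only [hLdef, mem_sdiff, if_pos hP, mem_singleton] at this
    exact this.1.2
  · have := h2 e he
    simp only [hLdef, mem_sdiff, if_pos hP, mem_singleton] at this
    exact this.2

end Pool.Agent.Work.MP_db9399_bp_helper22
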