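import Mathlib

/-!
# Two disjoint matchings: the ends of the paths come in pairs (helper22)
-/

set_option autoImplicit false

namespace Pool.Agent.Work.MP_db9399_bp_helper22

open Finset

variable {V : Type*}

/-- the union of two involutions as a graph -/
def HG (σ τ : V → V) (hσ : ∀ v, σ (σ v) = v) (hτ : ∀ v, τ (τ v) = v) : SimpleGraph V where
  Adj v w := v ≠ w ∧ (σ v = w ∨ τ v = w)
  symm := ⟨fun v w h => ⟨h.1.symm, h.2.imp (fun h => by rw [← h, hσ]) (fun h => by rw [← h, hτ])⟩⟩
  loopless := ⟨fun v h => h.1 rfl⟩

/-- The components of the union of two disjoint matchings contain no or exactly two vertices which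
are covered by exactly one of the matchings. -/
theorem exists_pairing [Fintype V] [DecidableEq V] (σ τ : V → V) (hσ : ∀ v, σ (σ v) = v)
    (hτ : ∀ v, τ (τ v) = v) (hd : ∀ v, σ v = τ v → σ v = v) :
    ∃ cp : V → V, ∃ κ : V → V, (∀ v, cp (σ v) = cp v) ∧ (∀ v, cp (τ v) = cp v) ∧
      (∀ v, (σ v = v ↔ ¬ τ v = v) → (σ (κ v) = κ v ↔ ¬ τ (κ v) = κ v) ∧ κ (κ v) = v ∧ κ v ≠ v ∧
        cp (κ v) = cp v) ∧
      ∀ v w, (σ v = v ↔ ¬ τ v = v) → (σ w = w ↔ ¬ τ w = w) → cp v = cp w → w = v ∨ w = κ v := by
  classical
  set H := HG σ τ hσ hτ with hH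
  have hdeg : ∀ v, H.degree v = (if σ v = v then 0 else 1) + (if τ v = v then 0 else 1) := by
    intro v
    have h1 : H.neighborFinset v = (if σ v = v then ∅ else {σ v}) ∪ (if τ v = v then ∅ else {τ v}) := by
      ext w
      rw [SimpleGraph.mem_neighborFinset, mem_union]
      change (v ≠ w ∧ (σ v = w ∨ τ v = w)) ↔ _
      by_cases h1 : σ v = v <;> by_cases h2 : τ v = v
      · simp only [h1, h2, if_true, or_self]
        simp
      · rw [if_pos h1, if_neg h2, h1]
        simp only [notMem_empty, false_or, mem_singleton]
        constructor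
        · rintro ⟨h3, h4 | h4⟩
          · exact absurd h4 h3
          · exact h4.symm
        · rintro rfl
          exact ⟨fun h => h2 h.symm, Or.inr rfl⟩
      · rw [if_neg h1, if_pos h2, h2]
        simp only [notMem_empty, or_false, mem_singleton]
        constructor
        · rintro ⟨h3, h4 | h4⟩
          · exact h4.symm
          · exact absurd h4 h3
        · rintro rfl
          exact ⟨fun h => h1 h.symm, Or.inl rfl⟩
      · rw [if_neg h1, if_neg h2]
        simp only [mem_singleton]
        constructor
        · rintro ⟨h3, h4 | h4⟩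
          · exact Or.inl h4.symm
          · exact Or.inr h4.symm
        · rintro (rfl | rfl)
          · exact ⟨fun h => h1 h.symm, Or.inl rfl⟩
          · exact ⟨fun h => h2 h.symm, Or.inr rfl⟩
    rw [← SimpleGraph.card_neighborFinset_eq_degree, h1]
    by_cases h1 : σ v = v <;> by_cases h2 : τ v = v
    · simp [h1, h2]
    · simp [h1, h2]
    · simp [h1, h2]
    · rw [if_neg h1, if_neg h2, if_neg h1, if_neg h2, card_union_of_disjoint]
      · simp
      · rw [disjoint_singleton]
        intro h3
        exact h1 (hd v h3)
  -- number of odd vertices in a component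
  set O : Finset V := univ.filter fun v => (σ v = v ↔ ¬ τ v = v) with hO
  have hodd : ∀ v, v ∈ O ↔ H.degree v = 1 := by
    intro v
    rw [hO, mem_filter, hdeg]
    by_cases h1 : σ v = v <;> by_cases h2 : τ v = v <;> simp [h1, h2]
  have hcomp : ∀ C : H.ConnectedComponent,
      (O.filter fun v => H.connectedComponentMk v = C).card ≤ 2 ∧
      Even (O.filter fun v => H.connectedComponentMk v = C).card := by
    intro C
    set K := C.toSimpleGraph with hK
    have hconn : K.Connected := C.connected_toSimpleGraph
    have hKdeg : ∀ u : C, K.degree u = H.degree (u : V) := by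
      intro u
      rw [← SimpleGraph.card_neighborFinset_eq_degree, ← SimpleGraph.card_neighborFinset_eq_degree]
      apply card_bij (fun (w : C) _ => (w : V))
      · intro w hw
        rw [SimpleGraph.mem_neighborFinset] at hw ⊢
        exact (C.toSimpleGraph_adj u.2 w.2).mp hw
      · intro w _ w' _ h
        exact Subtype.ext h
      · intro w hw
        rw [SimpleGraph.mem_neighborFinset] at hw
        have hwC : w ∈ C := by
          have h1 := SimpleGraph.ConnectedComponent.connectedComponentMk_eq_of_adj hw
          have h2 : H.connectedComponentMk (u : V) = C := u.2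
          change H.connectedComponentMk w = C
          rw [← h1, h2]
        refine ⟨⟨w, hwC⟩, ?_, rfl⟩
        rw [SimpleGraph.mem_neighborFinset]
        exact (C.toSimpleGraph_adj u.2 hwC).mpr hw
    have hle := hconn.card_vert_le_card_edgeSet_add_one
    have hsum := K.sum_degrees_eq_twice_card_edges
    have hcard : (O.filter fun v => H.connectedComponentMk v = C).card =
        (univ.filter fun u : C => K.degree u = 1).card := by
      symm
      apply card_bij (fun (u : C) _ => (u : V))
      · intro u hu
        rw [mem_filter] at hu ⊢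
        refine ⟨(hodd _).mpr ?_, u.2⟩
        rw [← hKdeg]
        exact hu.2
      · intro u _ u' _ h
        exact Subtype.ext h
      · intro v hv
        rw [mem_filter] at hv
        refine ⟨⟨v, hv.2⟩, ?_, rfl⟩
        rw [mem_filter, hKdeg]
        exact ⟨mem_univ _, (hodd _).mp hv.1⟩
    rw [hcard]
    have hle2 : ∀ u : C, K.degree u ≤ 2 := by
      intro u
      rw [hKdeg, hdeg]
      split_ifs <;> omega
    constructor
    · have h1 : ∑ u : C, (K.degree u + (if K.degree u = 1 then 1 else 0)) ≤ ∑ u : C, 2 := by
        apply sum_le_sum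
        intro u _
        have := hle2 u
        split_ifs with h <;> omega
      rw [sum_add_distrib, hsum, sum_const, smul_eq_mul, card_univ, ← card_filter] at h1
      rw [Nat.card_eq_fintype_card, Nat.card_eq_fintype_card] at hle
      rw [← SimpleGraph.edgeFinset_card] at hle
      omega
    · have h1 := K.even_card_odd_degree_vertices
      have h2 : (univ.filter fun u : C => K.degree u = 1) =
          univ.filter fun u : C => Odd (K.degree u) := by
        ext u
        rw [mem_filter, mem_filter]
        have := hle2 u
        constructor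
        · rintro ⟨h3, h4⟩
          exact ⟨h3, by rw [h4]; exact odd_one⟩
        · rintro ⟨h3, h4⟩
          refine ⟨h3, ?_⟩
          rcases h4 with ⟨k, hk⟩
          omega
      rw [h2]
      exact h1
  -- the partner
  have hpart : ∀ v, v ∈ O → ∃ w ∈ O, w ≠ v ∧ H.connectedComponentMk w = H.connectedComponentMk v ∧
      ∀ u ∈ O, H.connectedComponentMk u = H.connectedComponentMk v → u = v ∨ u = w := by
    intro v hv
    obtain ⟨h1, h2⟩ := hcomp (H.connectedComponentMk v)
    set A := O.filter fun u => H.connectedComponentMk u = H.connectedComponentMk v with hA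
    have hvA : v ∈ A := by rw [hA, mem_filter]; exact ⟨hv, rfl⟩
    have h3 : 0 < A.card := card_pos.mpr ⟨v, hvA⟩
    have h4 : A.card = 2 := by
      rcases h2 with ⟨k, hk⟩
      omega
    rw [card_eq_two] at h4
    obtain ⟨x, y, hxy, hA2⟩ := h4
    have hx : x ∈ A := by rw [hA2]; simp
    have hy : y ∈ A := by rw [hA2]; simp
    have hx' := mem_filter.mp hx
    have hy' := mem_filter.mp hy
    rw [hA2, mem_insert, mem_singleton] at hvA
    have hu : ∀ u ∈ O, H.connectedComponentMk u = H.connectedComponentMk v → u = x ∨ u = y := by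
      intro u hu1 hu2
      have : u ∈ A := mem_filter.mpr ⟨hu1, hu2⟩
      rw [hA2, mem_insert, mem_singleton] at this
      exact this
    rcases hvA with rfl | rfl
    · exact ⟨y, hy'.1, hxy.symm, hy'.2, hu⟩
    · exact ⟨x, hx'.1, hxy, hx'.2, fun u hu1 hu2 => (hu u hu1 hu2).symm⟩
  choose! κ hκO hκne hκc hκu using hpart
  -- representatives of the components
  have hrep : ∀ C : H.ConnectedComponent, ∃ v, H.connectedComponentMk v = C := fun C =>
    C.ind (fun v => ⟨v, rfl⟩)
  choose rep hrep using hrep
  have hcp : ∀ v w, rep (H.connectedComponentMk v) = rep (H.connectedComponentMk w) ↔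
      H.connectedComponentMk v = H.connectedComponentMk w := by
    intro v w
    constructor
    · intro h
      rw [← hrep (H.connectedComponentMk v), ← hrep (H.connectedComponentMk w), h]
    · intro h
      rw [h]
  have hadj : ∀ v w, (σ v = w ∨ τ v = w) → H.connectedComponentMk w = H.connectedComponentMk v := by
    intro v w h
    by_cases hvw : v = w
    · rw [hvw]
    · exact (SimpleGraph.ConnectedComponent.connectedComponentMk_eq_of_adj
        (show H.Adj v w from ⟨hvw, h⟩)).symm
  refine ⟨fun v => rep (H.connectedComponentMk v), κ, ?_, ?_, ?_, ?_⟩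
  · intro v
    exact (hcp _ _).mpr (hadj v _ (Or.inl rfl))
  · intro v
    exact (hcp _ _).mpr (hadj v _ (Or.inr rfl))
  · intro v hv
    have hv' : v ∈ O := mem_filter.mpr ⟨mem_univ _, hv⟩
    refine ⟨(mem_filter.mp (hκO v hv')).2, ?_, hκne v hv', (hcp _ _).mpr (hκc v hv')⟩
    have h1 := hκu v hv' (κ (κ v)) (hκO _ (hκO v hv')) ((hκc _ (hκO v hv')).trans (hκc v hv'))
    rcases h1 with h1 | h1
    · exact h1
    · exact absurd h1 (hκne _ (hκO v hv'))
  · intro v w hv hw h
    exact hκu v (mem_filter.mpr ⟨mem_univ _, hv⟩) w (mem_filter.mpr ⟨mem_univ _, hw⟩)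
      ((hcp _ _).mp h).symm

end Pool.Agent.Work.MP_db9399_bp_helper22
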