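import Mathlib
import Pool.Agent.Work.MP_db9399_co.Konig

/-!
# Balanced orientations and exact splitting of graphs (helper22)
-/

set_option autoImplicit false

namespace Pool.Agent.Work.MP_db9399_bp_helper22

open Finset

/-- multigraphs with even degrees have an orientation with out-degree = half of the degree -/
theorem exists_tail {E W : Type*} [Fintype E] [DecidableEq E] [Fintype W] [DecidableEq W]
    (inc : E → Finset W) (hinc : ∀ e, (inc e).card = 2)
    (hev : ∀ v, Even (univ.filter fun e => v ∈ inc e).card) :
    ∃ tail : E → W, (∀ e, tail e ∈ inc e) ∧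
      ∀ v, 2 * (univ.filter fun e => tail e = v).card = (univ.filter fun e => v ∈ inc e).card := by
  classical
  set dg : W → ℕ := fun v => (univ.filter fun e => v ∈ inc e).card with hdg
  set t : E → Finset (Σ _ : W, ℕ) := fun e => (inc e).sigma fun v => range (dg v / 2) with ht
  have hcount : ∀ F : Finset E, 2 * F.card = ∑ v ∈ F.biUnion inc, (F.filter fun e => v ∈ inc e).card := by
    intro F
    calc 2 * F.card = ∑ e ∈ F, (inc e).card := by
          rw [sum_congr rfl (fun e _ => hinc e), sum_const, smul_eq_mul, mul_comm]
      _ = ∑ e ∈ F, ∑ v ∈ F.biUnion inc, if v ∈ inc e then 1 else 0 := by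
          apply sum_congr rfl
          intro e he
          rw [← card_filter]
          congr 1
          ext v
          rw [mem_filter, mem_biUnion]
          exact ⟨fun h => ⟨⟨e, he, h⟩, h⟩, fun h => h.2⟩
      _ = ∑ v ∈ F.biUnion inc, ∑ e ∈ F, if v ∈ inc e then 1 else 0 := sum_comm
      _ = _ := by
          apply sum_congr rfl
          intro v _
          rw [card_filter]
  have hhall : ∀ F : Finset E, F.card ≤ (F.biUnion t).card := by
    intro F
    have h1 : (F.biUnion inc).sigma (fun v => range (dg v / 2)) ⊆ F.biUnion t := by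
      intro p hp
      rw [mem_sigma, mem_biUnion] at hp
      obtain ⟨⟨e, he, hv⟩, hi⟩ := hp
      rw [mem_biUnion]
      exact ⟨e, he, mem_sigma.2 ⟨hv, hi⟩⟩
    refine le_trans ?_ (card_le_card h1)
    rw [card_sigma]
    have h2 : ∑ v ∈ F.biUnion inc, (F.filter fun e => v ∈ inc e).card ≤
        ∑ v ∈ F.biUnion inc, 2 * (range (dg v / 2)).card := by
      apply sum_le_sum
      intro v _
      rw [card_range]
      have h3 : 2 * (dg v / 2) = dg v := Nat.two_mul_div_two_of_even (hev v)
      rw [h3, hdg]
      exact card_le_card (filter_subset_filter _ (subset_univ _))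
    rw [← mul_sum, ← hcount] at h2
    omega
  obtain ⟨f, hf1, hf2⟩ := (all_card_le_biUnion_card_iff_exists_injective t).1 hhall
  refine ⟨fun e => (f e).1, ?_, ?_⟩
  · intro e
    have := hf2 e
    rw [ht] at this
    exact (mem_sigma.1 this).1
  · have hle : ∀ v, (univ.filter fun e => (f e).1 = v).card ≤ dg v / 2 := by
      intro v
      rw [← card_range (dg v / 2)]
      apply card_le_card_of_injOn fun e => (f e).2
      · intro e he
        rw [mem_coe, mem_filter] at he
        have := hf2 e
        rw [ht] at this
        have h3 := (mem_sigma.1 this).2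
        rw [he.2] at h3
        exact h3
      · intro e he e' he' hee
        rw [mem_coe, mem_filter] at he he'
        apply hf1
        refine Sigma.ext (he.2.trans he'.2.symm) ?_
        exact heq_of_eq hee
    have hsum1 : ∑ v, (univ.filter fun e => (f e).1 = v).card = Fintype.card E := by
      rw [← card_eq_sum_card_fiberwise (fun e _ => mem_univ _), card_univ]
    have hsum2 : ∑ v, dg v = 2 * Fintype.card E := by
      rw [← card_univ, hcount univ]
      symm
      apply sum_subset (subset_univ _)
      intro v _ hv
      rw [card_eq_zero, filter_eq_empty_iff]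
      intro e _ hve
      exact hv (mem_biUnion.2 ⟨e, mem_univ _, hve⟩)
    have heq : ∀ v ∈ (univ : Finset W), (univ.filter fun e => (f e).1 = v).card = dg v / 2 := by
      rw [← sum_eq_sum_iff_of_le (fun v _ => hle v)]
      have h4 : ∑ v, dg v = 2 * ∑ v, dg v / 2 := by
        rw [mul_sum]
        apply sum_congr rfl
        intro v _
        exact (Nat.two_mul_div_two_of_even (hev v)).symm
      omega
    intro v
    rw [heq v (mem_univ v)]
    exact Nat.two_mul_div_two_of_even (hev v)

/-- balanced orientation of a graph -/
theorem orient {V : Type*} [Fintype V] [DecidableEq V] (G : SimpleGraph V) [DecidableRel G.Adj] :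
    ∃ S : Finset (V × V), (∀ u w, (u, w) ∈ S → G.Adj u w) ∧
      (∀ u w, G.Adj u w → ((u, w) ∈ S ↔ (w, u) ∉ S)) ∧
      ∀ v, (S.filter fun a => a.1 = v).card + (S.filter fun a => a.2 = v).card = G.degree v ∧
        2 * (S.filter fun a => a.1 = v).card ≤ G.degree v + 1 ∧
        2 * (S.filter fun a => a.2 = v).card ≤ G.degree v + 1 := by
  classical
  -- the edges, with an extra edge to the new vertex at every vertex of odd degree
  set inc : (G.edgeSet ⊕ {v : V // Odd (G.degree v)}) → Finset (Option V) := fun e =>
    Sum.elim (fun e => (e.1.toFinset).map Function.Embedding.some)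
      (fun v => {some v.1, none}) e with hinc
  have hinc2 : ∀ e, (inc e).card = 2 := by
    rintro (e | v)
    · simp only [hinc, Sum.elim_inl, card_map]
      exact Sym2.card_toFinset_of_not_isDiag _ (G.not_isDiag_of_mem_edgeSet e.2)
    · simp only [hinc, Sum.elim_inr]
      exact card_pair (by simp)
  -- the degrees
  have hedge : ∀ v, (univ.filter fun e : G.edgeSet => v ∈ e.1).card = G.degree v := by
    intro v
    rw [← G.card_incidenceFinset_eq_degree v]
    apply card_bij (fun e _ => e.1)
    · intro e he
      rw [mem_filter] at he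
      rw [SimpleGraph.mem_incidenceFinset]
      exact ⟨e.2, he.2⟩
    · intro e _ e' _ h
      exact Subtype.ext h
    · intro e he
      rw [SimpleGraph.mem_incidenceFinset] at he
      exact ⟨⟨e, he.1⟩, mem_filter.2 ⟨mem_univ _, he.2⟩, rfl⟩
  have hsplit : ∀ (p : (G.edgeSet ⊕ {v : V // Odd (G.degree v)}) → Prop) [DecidablePred p],
      (univ.filter p).card = (univ.filter fun e => p (Sum.inl e)).card +
        (univ.filter fun e => p (Sum.inr e)).card := by
    intro p _
    rw [card_filter, card_filter, card_filter, Fintype.sum_sum_type]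
  have hdv : ∀ v, (univ.filter fun e => some v ∈ inc e).card =
      G.degree v + if Odd (G.degree v) then 1 else 0 := by
    intro v
    rw [hsplit]
    congr 1
    · rw [← hedge v]
      congr 1
      ext e
      rw [mem_filter, mem_filter]
      simp only [hinc, Sum.elim_inl, mem_map, Sym2.mem_toFinset]
      constructor
      · rintro ⟨_, w, hw, h⟩
        have h1 : w = v := Option.some_injective _ h
        exact ⟨mem_univ _, h1 ▸ hw⟩
      · rintro ⟨_, h⟩
        exact ⟨mem_univ _, v, h, rfl⟩
    · split_ifs with h
      · rw [card_eq_one]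
        refine ⟨⟨v, h⟩, ?_⟩
        ext u
        rw [mem_filter, mem_singleton]
        simp only [hinc, Sum.elim_inr, mem_insert, mem_singleton]
        constructor
        · rintro ⟨_, h1 | h1⟩
          · exact Subtype.ext (Option.some_injective _ h1).symm
          · exact absurd h1 (by simp)
        · rintro rfl
          exact ⟨mem_univ _, Or.inl rfl⟩
      · rw [card_eq_zero, filter_eq_empty_iff]
        rintro u _ h1
        simp only [hinc, Sum.elim_inr, mem_insert, mem_singleton] at h1
        rcases h1 with h1 | h1
        · have h2 := Option.some_injective _ h1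
          exact h (h2 ▸ u.2)
        · exact absurd h1 (by simp)
  have hev : ∀ v, Even (univ.filter fun e => v ∈ inc e).card := by
    rintro (_ | v)
    · rw [hsplit]
      have h1 : (univ.filter fun e : G.edgeSet => none ∈ inc (Sum.inl e)).card = 0 := by
        rw [card_eq_zero, filter_eq_empty_iff]
        intro e _ h
        simp only [hinc, Sum.elim_inl, mem_map] at h
        obtain ⟨w, _, hw⟩ := h
        exact absurd hw (by simp)
      have h2 : (univ.filter fun e : {v : V // Odd (G.degree v)} => none ∈ inc (Sum.inr e)).card =
          (univ.filter fun v => Odd (G.degree v)).card := by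
        rw [filter_true_of_mem]
        · rw [card_univ, Fintype.card_subtype]
        · intro e _
          simp [hinc]
      rw [h1, h2, zero_add]
      exact G.even_card_odd_degree_vertices
    · rw [hdv v]
      by_cases h : Odd (G.degree v)
      · rw [if_pos h]
        exact h.add_one
      · rw [if_neg h, add_zero]
        exact Nat.not_odd_iff_even.1 h
  obtain ⟨tail, ht1, ht2⟩ := exists_tail inc hinc2 hev
  -- the arcs
  set S : Finset (V × V) := univ.filter fun a => ∃ h : G.Adj a.1 a.2,
    tail (Sum.inl ⟨s(a.1, a.2), h⟩) = some a.1 with hS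
  have hmemS : ∀ u w (h : G.Adj u w), (u, w) ∈ S ↔ tail (Sum.inl ⟨s(u, w), h⟩) = some u := by
    intro u w h
    rw [hS, mem_filter]
    exact ⟨fun ⟨_, _, h2⟩ => h2, fun h2 => ⟨mem_univ _, h, h2⟩⟩
  have hadj : ∀ u w, (u, w) ∈ S → G.Adj u w := by
    intro u w h
    rw [hS, mem_filter] at h
    exact h.2.1
  have hone : ∀ u w, G.Adj u w → ((u, w) ∈ S ↔ (w, u) ∉ S) := by
    intro u w h
    rw [hmemS u w h, hmemS w u h.symm]
    have h1 : (⟨s(w, u), h.symm⟩ : G.edgeSet) = ⟨s(u, w), h⟩ := Subtype.ext Sym2.eq_swap
    rw [h1]
    have h2 := ht1 (Sum.inl ⟨s(u, w), h⟩)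
    simp only [hinc, Sum.elim_inl, mem_map, Sym2.mem_toFinset] at h2
    obtain ⟨x, hx, hx2⟩ := h2
    rw [Sym2.mem_iff] at hx
    rw [← hx2]
    constructor
    · intro h3 h4
      exact h.ne (Option.some_injective _ (h3.symm.trans h4))
    · intro h3
      rcases hx with rfl | rfl
      · rfl
      · exact absurd rfl h3
  -- the out-degrees
  have hout : ∀ v, (S.filter fun a => a.1 = v).card =
      (univ.filter fun e : G.edgeSet => tail (Sum.inl e) = some v).card := by
    intro v
    apply card_bij (fun a ha => (⟨s(a.1, a.2), (SimpleGraph.mem_edgeSet G).2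
      (hadj a.1 a.2 (mem_filter.1 ha).1)⟩ : G.edgeSet))
    · intro a ha
      rw [mem_filter] at ha ⊢
      refine ⟨mem_univ _, ?_⟩
      have := (hmemS a.1 a.2 (hadj a.1 a.2 ha.1)).1 ha.1
      rw [this, ha.2]
    · intro a ha b hb h
      rw [mem_filter] at ha hb
      have h1 : s(a.1, a.2) = s(b.1, b.2) := congrArg Subtype.val h
      rw [Sym2.eq_iff] at h1
      rcases h1 with h1 | h1
      · exact Prod.ext h1.1 h1.2
      · have h2 := (hone a.1 a.2 (hadj a.1 a.2 ha.1)).1 ha.1
        exfalso
        apply h2
        rw [h1.1, h1.2]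
        exact hb.1
    · rintro ⟨e, he⟩ hte
      rw [mem_filter] at hte
      have hte := hte.2
      have h2 := ht1 (Sum.inl ⟨e, he⟩)
      rw [hte] at h2
      simp only [hinc, Sum.elim_inl, mem_map, Sym2.mem_toFinset] at h2
      obtain ⟨x, hx, hx2⟩ := h2
      have hxv : x = v := Option.some_injective _ hx2
      subst hxv
      obtain ⟨w, hw⟩ := hx
      subst hw
      have hadj2 : G.Adj x w := he
      refine ⟨(x, w), mem_filter.2 ⟨(hmemS x w hadj2).2 hte, rfl⟩, rfl⟩
  have hsumdeg : ∀ v, (S.filter fun a => a.1 = v).card + (S.filter fun a => a.2 = v).card =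
      G.degree v := by
    intro v
    have h1 : (S.filter fun a => a.1 = v).card =
        ((G.neighborFinset v).filter fun w => (v, w) ∈ S).card := by
      apply card_bij (fun a _ => a.2)
      · intro a ha
        rw [mem_filter] at ha ⊢
        obtain ⟨ha1, ha2⟩ := ha
        subst ha2
        exact ⟨by rw [SimpleGraph.mem_neighborFinset]; exact hadj _ _ ha1, ha1⟩
      · intro a ha b hb h
        rw [mem_filter] at ha hb
        exact Prod.ext (ha.2.trans hb.2.symm) h
      · intro w hw
        rw [mem_filter] at hw
        exact ⟨(v, w), mem_filter.2 ⟨hw.2, rfl⟩, rfl⟩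
    have h2 : (S.filter fun a => a.2 = v).card =
        ((G.neighborFinset v).filter fun w => ¬ (v, w) ∈ S).card := by
      apply card_bij (fun a _ => a.1)
      · intro a ha
        rw [mem_filter] at ha ⊢
        obtain ⟨ha1, ha2⟩ := ha
        subst ha2
        have h3 := hadj _ _ ha1
        exact ⟨by rw [SimpleGraph.mem_neighborFinset]; exact h3.symm, (hone _ _ h3).1 ha1⟩
      · intro a ha b hb h
        rw [mem_filter] at ha hb
        exact Prod.ext h (ha.2.trans hb.2.symm)
      · intro w hw
        rw [mem_filter, SimpleGraph.mem_neighborFinset] at hw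
        refine ⟨(w, v), mem_filter.2 ⟨?_, rfl⟩, rfl⟩
        by_contra h4
        exact hw.2 ((hone v w hw.1).2 h4)
    rw [h1, h2, card_filter_add_card_filter_not, SimpleGraph.card_neighborFinset_eq_degree]
  refine ⟨S, hadj, hone, fun v => ⟨hsumdeg v, ?_, ?_⟩⟩
  · have h1 := ht2 (some v)
    rw [hdv v, hsplit] at h1
    have h2 := hout v
    split_ifs at h1 with h <;> omega
  · have h1 := ht2 (some v)
    rw [hdv v, hsplit] at h1
    have h2 := hout v
    have h3 := hsumdeg v
    have h4 : (univ.filter fun e : {v : V // Odd (G.degree v)} => tail (Sum.inr e) = some v).card ≤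
        if Odd (G.degree v) then 1 else 0 := by
      split_ifs with h
      · rw [card_le_one]
        intro a ha b hb
        rw [mem_filter] at ha hb
        have ha1 := ht1 (Sum.inr a)
        have hb1 := ht1 (Sum.inr b)
        rw [ha.2] at ha1
        rw [hb.2] at hb1
        simp only [hinc, Sum.elim_inr, mem_insert, mem_singleton] at ha1 hb1
        rcases ha1 with ha1 | ha1
        · rcases hb1 with hb1 | hb1
          · exact Subtype.ext ((Option.some_injective _ ha1).symm.trans (Option.some_injective _ hb1))
          · exact absurd hb1 (by simp)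
        · exact absurd ha1 (by simp)
      · rw [Nat.le_zero, card_eq_zero, filter_eq_empty_iff]
        intro a _ h5
        have ha1 := ht1 (Sum.inr a)
        rw [h5] at ha1
        simp only [hinc, Sum.elim_inr, mem_insert, mem_singleton] at ha1
        rcases ha1 with ha1 | ha1
        · exact h ((Option.some_injective _ ha1) ▸ a.2)
        · exact absurd ha1 (by simp)
    split_ifs at h1 h4 with h <;> omega

end Pool.Agent.Work.MP_db9399_bp_helper22
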