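import Mathlib
import Pool.Agent.Work.MP_db9399_bp_helper22.Orient
import Pool.Agent.Work.MP_db9399_all.Interface

/-!
# Exact splitting of a graph into two graphs of even degree bounds (helper22)
-/

set_option autoImplicit false

namespace Pool.Agent.Work.MP_db9399_bp_helper22

open Finset Classical
open Pool.Agent.Work.MP_db9399_all (nb)

theorem mem_nb' {V : Type*} [Fintype V] {G : SimpleGraph V} {v w : V} :
    w ∈ nb G v ↔ G.Adj v w := by
  unfold nb
  rw [mem_filter]
  exact ⟨fun h => h.2, fun h => ⟨mem_univ _, h⟩⟩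

/-- SPLIT2: a graph whose degrees are at most `2 (m1 + m2)`, and at most `2 (m1 + m2) + 1` on `Z`,
is the disjoint union of two graphs whose degrees are at most `2 m1`, `2 m2`, plus `1` on `Z`. -/
theorem split2 {V : Type*} [Fintype V] (G : SimpleGraph V) (Z : Finset V) (m1 m2 : ℕ)
    (hdeg : ∀ v, (nb G v).card ≤ 2 * (m1 + m2) + if v ∈ Z then 1 else 0) :
    ∃ G1 G2 : SimpleGraph V, (∀ u w, G.Adj u w ↔ G1.Adj u w ∨ G2.Adj u w) ∧
      (∀ u w, ¬ (G1.Adj u w ∧ G2.Adj u w)) ∧
      (∀ v, (nb G1 v).card ≤ 2 * m1 + if v ∈ Z then 1 else 0) ∧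
      ∀ v, (nb G2 v).card ≤ 2 * m2 + if v ∈ Z then 1 else 0 := by
  rcases Nat.eq_zero_or_pos (m1 + m2) with h0 | hpos
  · refine ⟨G, ⊥, fun u w => ?_, fun u w h => ?_, fun v => ?_, fun v => ?_⟩
    · simp
    · exact h.2
    · have := hdeg v
      rw [h0] at this
      omega
    · have : nb (⊥ : SimpleGraph V) v = ∅ := by
        apply eq_empty_of_forall_notMem
        intro w h
        exact mem_nb'.1 h
      rw [this, card_empty]
      exact Nat.zero_le _
  obtain ⟨S, hS1, hS2, hS3⟩ := orient G
  have hdg : ∀ v, G.degree v = (nb G v).card := by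
    intro v
    rw [← SimpleGraph.card_neighborFinset_eq_degree]
    congr 1
    ext w
    rw [SimpleGraph.mem_neighborFinset, mem_nb']
  set m := m1 + m2 with hm
  -- the out- and in-degrees
  have hout : ∀ v, (S.filter fun a => a.1 = v).card ≤ m + if v ∈ Z then 1 else 0 := by
    intro v
    have h1 := (hS3 v).2.1
    have h2 := hdeg v
    rw [hdg] at h1
    split_ifs at h2 ⊢ <;> omega
  have hin : ∀ v, (S.filter fun a => a.2 = v).card ≤ m + if v ∈ Z then 1 else 0 := by
    intro v
    have h1 := (hS3 v).2.2
    have h2 := hdeg v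
    rw [hdg] at h1
    split_ifs at h2 ⊢ <;> omega
  have hnot : ∀ v, ¬ ((S.filter fun a => a.1 = v).card = m + 1 ∧
      (S.filter fun a => a.2 = v).card = m + 1) := by
    intro v h
    have h1 := (hS3 v).1
    have h2 := hdeg v
    rw [hdg, h.1, h.2] at h1
    split_ifs at h2 <;> omega
  -- the detached arcs
  have hdet : ∀ (pr : V × V → V) (v : V), ∃ a : V × V, (S.filter fun a => pr a = v).card = m + 1 →
      a ∈ S ∧ pr a = v := by
    intro pr v
    by_cases h : (S.filter fun a => pr a = v).card = m + 1
    · have : (S.filter fun a => pr a = v).Nonempty := by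
        rw [← card_pos, h]
        omega
      obtain ⟨a, ha⟩ := this
      exact ⟨a, fun _ => mem_filter.1 ha⟩
    · exact ⟨(v, v), fun h' => absurd h' h⟩
  choose o ho using hdet
  set xm : (V × V → V) → V × V → V ⊕ V := fun pr a =>
    if (S.filter fun b => pr b = pr a).card = m + 1 ∧ a = o pr (pr a) then Sum.inr (pr a)
      else Sum.inl (pr a) with hxm
  have hbd : ∀ pr : V × V → V, (∀ v, (S.filter fun a => pr a = v).card ≤ m + 1) →
      ∀ p, (S.filter fun a => xm pr a = p).card ≤ m := by
    intro pr hpr p
    rcases p with v | v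
    · by_cases h : (S.filter fun a => pr a = v).card = m + 1
      · have h1 : (S.filter fun a => xm pr a = Sum.inl v) ⊆
            (S.filter fun a => pr a = v).erase (o pr v) := by
          intro a ha
          rw [mem_filter] at ha
          have h2 := ha.2
          simp only [hxm] at h2
          split_ifs at h2 with h3
          have h4 := Sum.inl_injective h2
          rw [mem_erase, mem_filter]
          refine ⟨?_, ha.1, h4⟩
          intro h5
          exact h3 ⟨by rw [h4]; exact h, by rw [h4]; exact h5⟩
        have h2 := card_le_card h1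
        rw [card_erase_of_mem (mem_filter.2 (ho pr v h)), h] at h2
        omega
      · have h1 : (S.filter fun a => xm pr a = Sum.inl v) ⊆ (S.filter fun a => pr a = v) := by
          intro a ha
          rw [mem_filter] at ha ⊢
          have h2 := ha.2
          simp only [hxm] at h2
          split_ifs at h2 with h3
          exact ⟨ha.1, Sum.inl_injective h2⟩
        have h2 := card_le_card h1
        have h3 := hpr v
        omega
    · have h1 : (S.filter fun a => xm pr a = Sum.inr v) ⊆ {o pr v} := by
        intro a ha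
        rw [mem_filter] at ha
        have h2 := ha.2
        simp only [hxm] at h2
        split_ifs at h2 with h3
        have h4 := Sum.inr_injective h2
        rw [mem_singleton, h3.2, h4]
      have h2 := card_le_card h1
      rw [card_singleton] at h2
      omega
  have hle1 : ∀ v, (S.filter fun a => a.1 = v).card ≤ m + 1 := by
    intro v
    have := hout v
    split_ifs at this <;> omega
  have hle2 : ∀ v, (S.filter fun a => a.2 = v).card ≤ m + 1 := by
    intro v
    have := hin v
    split_ifs at this <;> omega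
  obtain ⟨κ, hκ1, hκ2⟩ := _root_.MP_db9399_co.konig (xm Prod.fst) (xm Prod.snd) m S
    (hbd Prod.fst hle1) (hbd Prod.snd hle2)
  -- the number of arcs with colours in a set
  have hcol : ∀ (K : Finset ℕ) (pr : V × V → V) (v : V),
      (∀ e ∈ S, ∀ f ∈ S, e ≠ f → xm pr e = xm pr f → κ e ≠ κ f) →
      (S.filter fun a => pr a = v ∧ κ a ∈ K).card ≤ K.card +
        if (S.filter fun a => pr a = v).card = m + 1 then 1 else 0 := by
    intro K pr v hpr
    have h1 : (S.filter fun a => pr a = v ∧ κ a ∈ K) ⊆
        (S.filter fun a => xm pr a = Sum.inl v ∧ κ a ∈ K) ∪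
          (if (S.filter fun a => pr a = v).card = m + 1 then {o pr v} else ∅) := by
      intro a ha
      rw [mem_filter] at ha
      obtain ⟨haS, hav, haK⟩ := ha
      rw [mem_union]
      by_cases h : (S.filter fun b => pr b = pr a).card = m + 1 ∧ a = o pr (pr a)
      · right
        rw [hav] at h
        rw [if_pos h.1, mem_singleton]
        exact h.2
      · left
        rw [mem_filter]
        refine ⟨haS, ?_, haK⟩
        simp only [hxm]
        rw [if_neg h, hav]
    refine (card_le_card h1).trans ((card_union_le _ _).trans (Nat.add_le_add ?_ ?_))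
    · apply card_le_card_of_injOn κ
      · intro a ha
        rw [mem_coe, mem_filter] at ha
        exact ha.2.2
      · intro a ha b hb hab
        rw [mem_coe, mem_filter] at ha hb
        by_contra hne
        exact hpr a ha.1 b hb.1 hne (ha.2.1.trans hb.2.1.symm) hab
    · split_ifs <;> simp
  -- the graph of a set of colours
  have hgr : ∀ K : Finset ℕ, ∃ G' : SimpleGraph V, (∀ u w, G'.Adj u w ↔
      ((u, w) ∈ S ∧ κ (u, w) ∈ K) ∨ ((w, u) ∈ S ∧ κ (w, u) ∈ K)) ∧
      ∀ v, (nb G' v).card ≤ 2 * K.card + if v ∈ Z then 1 else 0 := by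
    intro K
    refine ⟨{ Adj := fun u w => ((u, w) ∈ S ∧ κ (u, w) ∈ K) ∨ ((w, u) ∈ S ∧ κ (w, u) ∈ K)
              symm := ⟨fun u w h => h.symm⟩
              loopless := ⟨fun v h => ?_⟩ }, fun u w => Iff.rfl, ?_⟩
    · rcases h with h | h
      · exact (hS1 v v h.1).ne rfl
      · exact (hS1 v v h.1).ne rfl
    · intro v
      have h1 : nb { Adj := fun u w => ((u, w) ∈ S ∧ κ (u, w) ∈ K) ∨ ((w, u) ∈ S ∧ κ (w, u) ∈ K)
                     symm := ⟨fun u w h => h.symm⟩
                     loopless := ⟨fun v h => by
                       rcases h with h | h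
                       · exact (hS1 v v h.1).ne rfl
                       · exact (hS1 v v h.1).ne rfl⟩ } v ⊆
          ((S.filter fun a => a.1 = v ∧ κ a ∈ K).image Prod.snd) ∪
            ((S.filter fun a => a.2 = v ∧ κ a ∈ K).image Prod.fst) := by
        intro w hw
        have hw := mem_nb'.1 hw
        rw [mem_union, mem_image, mem_image]
        rcases hw with h | h
        · exact Or.inl ⟨(v, w), mem_filter.2 ⟨h.1, rfl, h.2⟩, rfl⟩
        · exact Or.inr ⟨(w, v), mem_filter.2 ⟨h.1, rfl, h.2⟩, rfl⟩
      have h2 := (card_le_card h1).trans (card_union_le _ _)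
      have h3 := hcol K Prod.fst v (fun e he f hf hef h => hκ2 e he f hf hef (Or.inl h))
      have h4 := hcol K Prod.snd v (fun e he f hf hef h => hκ2 e he f hf hef (Or.inr h))
      have h5 : ((S.filter fun a => a.1 = v ∧ κ a ∈ K).image Prod.snd).card ≤ _ := card_image_le
      have h6 : ((S.filter fun a => a.2 = v ∧ κ a ∈ K).image Prod.fst).card ≤ _ := card_image_le
      have h7 := hnot v
      have h8 := hout v
      have h9 := hin v
      split_ifs at h3 h4 h8 h9 ⊢ <;> first | omega | (exfalso; exact h7 ⟨by assumption, by assumption⟩)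
  obtain ⟨G1, hG1, hG1d⟩ := hgr (range m1)
  obtain ⟨G2, hG2, hG2d⟩ := hgr (Ico m1 m)
  refine ⟨G1, G2, ?_, ?_, ?_, ?_⟩
  · intro u w
    rw [hG1, hG2]
    constructor
    · intro h
      by_cases h1 : (u, w) ∈ S
      · have h2 := hκ1 _ h1
        by_cases h3 : κ (u, w) < m1
        · exact Or.inl (Or.inl ⟨h1, mem_range.2 h3⟩)
        · exact Or.inr (Or.inl ⟨h1, mem_Ico.2 ⟨not_lt.1 h3, h2⟩⟩)
      · have h1' : (w, u) ∈ S := by
          by_contra hcon
          exact h1 ((hS2 u w h).2 hcon)
        have h2 := hκ1 _ h1'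
        by_cases h3 : κ (w, u) < m1
        · exact Or.inl (Or.inr ⟨h1', mem_range.2 h3⟩)
        · exact Or.inr (Or.inr ⟨h1', mem_Ico.2 ⟨not_lt.1 h3, h2⟩⟩)
    · rintro ((h | h) | (h | h))
      · exact hS1 _ _ h.1
      · exact (hS1 _ _ h.1).symm
      · exact hS1 _ _ h.1
      · exact (hS1 _ _ h.1).symm
  · intro u w
    rw [hG1, hG2]
    rintro ⟨h1 | h1, h2 | h2⟩
    · have := mem_range.1 h1.2
      have := mem_Ico.1 h2.2
      omega
    · exact (hS2 u w (hS1 _ _ h1.1)).1 h1.1 h2.1
    · exact (hS2 u w (hS1 _ _ h2.1)).1 h2.1 h1.1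
    · have := mem_range.1 h1.2
      have := mem_Ico.1 h2.2
      omega
  · intro v
    have := hG1d v
    rwa [card_range] at this
  · intro v
    have := hG2d v
    rw [Nat.card_Ico, hm] at this
    have h2 : m1 + m2 - m1 = m2 := by omega
    rwa [h2] at this

end Pool.Agent.Work.MP_db9399_bp_helper22
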