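import Pool.Agent.Work.MP_db9399_bp_helper22.Comp

/-!
# Equitable edge colourings with respect to signed nodes (helper22)

`F : β → V → V` is a family of disjoint matchings (involutions).  Its colours can be changed (inside
groups of colours) so that the signed numbers `∑ s v`, over the vertices `v` of the node `x` which are
covered in the round `b`, are the same for all `b` of a group up to `2`, for all nodes simultaneously.
-/

set_option autoImplicit false

namespace Pool.Agent.Work.MP_db9399_bp_helper22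

open Finset

/-- Trail lemma: a set of pairs whose swap improves the difference at `x0` and nothing gets worse. -/
theorem trail {V N : Type*} [Fintype V] [DecidableEq V] [DecidableEq N] (O : Finset V) (κ : V → V)
    (hO : ∀ v ∈ O, κ v ∈ O) (hκ : ∀ v ∈ O, κ (κ v) = v) (hne : ∀ v ∈ O, κ v ≠ v) (nd : V → N)
    (t : V → ℤ) (ht : ∀ v, t v = 0 ∨ t v = 1 ∨ t v = -1) (x0 : N)
    (h0 : 3 ≤ ∑ v ∈ O.filter (fun v => nd v = x0), t v) :
    ∃ T ⊆ O, (∀ v ∈ T, κ v ∈ T) ∧
      (∀ x, |(∑ v ∈ O.filter (fun v => nd v = x), t v) -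
        2 * ∑ v ∈ T.filter (fun v => nd v = x), t v| ≤
        |∑ v ∈ O.filter (fun v => nd v = x), t v|) ∧
      |(∑ v ∈ O.filter (fun v => nd v = x0), t v) -
        2 * ∑ v ∈ T.filter (fun v => nd v = x0), t v| <
        |∑ v ∈ O.filter (fun v => nd v = x0), t v| := by
  classical
  -- the family of trails
  set 𝒯 : Finset (Finset V × V) := univ.filter fun p => p.1 ⊆ O ∧ (∀ v ∈ p.1, κ v ∈ p.1) ∧
    p.2 ∈ p.1 ∧ ∀ x, ∑ v ∈ p.1.filter (fun v => nd v = x), t v =
      (if x = x0 then 1 else 0) + (if x = nd p.2 then t p.2 else 0) with h𝒯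
  -- it is not empty
  have hne1 : 𝒯.Nonempty := by
    have h1 : ∃ v ∈ O, nd v = x0 ∧ t v = 1 := by
      by_contra hcon
      push Not at hcon
      have h2 : ∑ v ∈ O.filter (fun v => nd v = x0), t v ≤ 0 := by
        apply sum_nonpos
        intro v hv
        rw [mem_filter] at hv
        have := hcon v hv.1 hv.2
        rcases ht v with h | h | h
        · rw [h]
        · exact absurd h this
        · rw [h]; norm_num
      omega
    obtain ⟨v, hv, hvx, htv⟩ := h1
    refine ⟨({v, κ v}, κ v), ?_⟩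
    rw [h𝒯, mem_filter]
    refine ⟨mem_univ _, ?_, ?_, ?_, ?_⟩
    · intro u hu
      rw [mem_insert, mem_singleton] at hu
      rcases hu with rfl | rfl
      · exact hv
      · exact hO v hv
    · intro u hu
      rw [mem_insert, mem_singleton] at hu ⊢
      rcases hu with rfl | rfl
      · exact Or.inr rfl
      · exact Or.inl (hκ v hv)
    · simp
    · intro x
      rw [sum_filter, sum_pair (hne v hv).symm, hvx, htv]
      simp only [eq_comm]
  obtain ⟨⟨T, w⟩, hTw, hmax⟩ := exists_max_image 𝒯 (fun p => p.1.card) hne1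
  rw [h𝒯, mem_filter] at hTw
  obtain ⟨-, hTO, hTκ, hwT, hTs⟩ := hTw
  simp only at hTO hTκ hwT hTs
  -- maximality
  have hstop : t w ≠ 0 → ∀ v ∈ O, v ∉ T → nd v = nd w → t v ≠ -t w := by
    intro htw v hv hvT hvw htv
    have hκT : κ v ∉ T := by
      intro h
      apply hvT
      have := hTκ _ h
      rwa [hκ v hv] at this
    have h1 : (insert v (insert (κ v) T), κ v) ∈ 𝒯 := by
      rw [h𝒯, mem_filter]
      refine ⟨mem_univ _, ?_, ?_, ?_, ?_⟩
      · intro u hu
        rw [mem_insert, mem_insert] at hu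
        rcases hu with rfl | rfl | hu
        · exact hv
        · exact hO v hv
        · exact hTO hu
      · intro u hu
        rw [mem_insert, mem_insert] at hu ⊢
        rcases hu with rfl | rfl | hu
        · exact Or.inr (Or.inl rfl)
        · exact Or.inl (hκ v hv)
        · exact Or.inr (Or.inr (hTκ u hu))
      · simp
      · intro x
        have h2 : v ∉ insert (κ v) T := by
          rw [mem_insert]
          rintro (h | h)
          · exact hne v hv h.symm
          · exact hvT h
        rw [sum_filter, sum_insert h2, sum_insert hκT, ← sum_filter, hTs x, hvw, htv]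
        simp only [@eq_comm _ (nd (κ v)), @eq_comm _ (nd w)]
        by_cases h3 : x = nd w
        · simp only [h3, if_true]
          ring
        · simp only [h3, if_false]
          ring
    have h2 := hmax _ h1
    simp only at h2
    have h3 : v ∉ insert (κ v) T := by
      rw [mem_insert]
      rintro (h | h)
      · exact hne v hv h.symm
      · exact hvT h
    rw [card_insert_of_notMem h3, card_insert_of_notMem hκT] at h2
    omega
  -- decomposition of the sums
  have hsplit : ∀ x, ∑ v ∈ O.filter (fun v => nd v = x), t v =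
      ∑ v ∈ T.filter (fun v => nd v = x), t v +
      ∑ v ∈ (O \ T).filter (fun v => nd v = x), t v := by
    intro x
    rw [← sum_union]
    · congr 1
      ext v
      simp only [mem_filter, mem_union, mem_sdiff]
      constructor
      · rintro ⟨h1, h2⟩
        by_cases h3 : v ∈ T
        · exact Or.inl ⟨h3, h2⟩
        · exact Or.inr ⟨⟨h1, h3⟩, h2⟩
      · rintro (⟨h1, h2⟩ | ⟨⟨h1, -⟩, h2⟩)
        · exact ⟨hTO h1, h2⟩
        · exact ⟨h1, h2⟩
    · rw [disjoint_left]
      intro v hv hv'
      rw [mem_filter] at hv hv'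
      exact (mem_sdiff.mp hv'.1).2 hv.1
  -- the rest at the node of `w` has the sign of `t w`
  have hrest1 : t w = 1 → 0 ≤ ∑ v ∈ (O \ T).filter (fun v => nd v = nd w), t v := by
    intro htw
    apply sum_nonneg
    intro v hv
    rw [mem_filter, mem_sdiff] at hv
    have := hstop (by rw [htw]; norm_num) v hv.1.1 hv.1.2 hv.2
    rw [htw] at this
    rcases ht v with h | h | h
    · rw [h]
    · rw [h]; norm_num
    · exact absurd h this
  have hrest2 : t w = -1 → ∑ v ∈ (O \ T).filter (fun v => nd v = nd w), t v ≤ 0 := by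
    intro htw
    apply sum_nonpos
    intro v hv
    rw [mem_filter, mem_sdiff] at hv
    have := hstop (by rw [htw]; norm_num) v hv.1.1 hv.1.2 hv.2
    rw [htw] at this
    rcases ht v with h | h | h
    · rw [h]
    · exact absurd (by rw [h]; norm_num) this
    · rw [h]; norm_num
  have hcase0 : |(∑ v ∈ O.filter (fun v => nd v = x0), t v) -
        2 * ∑ v ∈ T.filter (fun v => nd v = x0), t v| <
        |∑ v ∈ O.filter (fun v => nd v = x0), t v| := by
    have h1 := hTs x0
    rw [if_pos rfl] at h1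
    have h2 := hsplit x0
    by_cases h3 : x0 = nd w
    · rw [if_pos h3] at h1
      rw [← h3] at hrest1 hrest2
      rcases ht w with h | h | h
      · rw [h] at h1
        rw [abs_of_nonneg (by omega : (0 : ℤ) ≤ ∑ v ∈ O.filter (fun v => nd v = x0), t v), abs_lt]
        omega
      · rw [h] at h1
        rw [abs_of_nonneg (by omega : (0 : ℤ) ≤ ∑ v ∈ O.filter (fun v => nd v = x0), t v), abs_lt]
        omega
      · rw [h] at h1
        have := hrest2 h
        omega
    · rw [if_neg h3] at h1
      rw [abs_of_nonneg (by omega : (0 : ℤ) ≤ ∑ v ∈ O.filter (fun v => nd v = x0), t v), abs_lt]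
      omega
  refine ⟨T, hTO, hTκ, ?_, hcase0⟩
  intro x
  by_cases hx0 : x = x0
  · rw [hx0]; exact hcase0.le
  · have h1 := hTs x
    rw [if_neg hx0] at h1
    have h2 := hsplit x
    by_cases h3 : x = nd w
    · rw [if_pos h3] at h1
      rw [← h3] at hrest1 hrest2
      rcases ht w with h | h | h
      · rw [h] at h1
        rw [h1]; simp
      · rw [h] at h1
        have := hrest1 h
        rw [abs_of_nonneg (by omega : (0 : ℤ) ≤ ∑ v ∈ O.filter (fun v => nd v = x), t v), abs_le]
        omega
      · rw [h] at h1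
        have := hrest2 h
        rw [abs_of_nonpos (by omega : ∑ v ∈ O.filter (fun v => nd v = x), t v ≤ (0 : ℤ)), abs_le]
        omega
    · rw [if_neg h3] at h1
      rw [h1]; simp

variable {V β N γ : Type*}

/-- The signed number of vertices of the node `x` covered by the matching `f` -/
def qs [Fintype V] [DecidableEq V] [DecidableEq N] (nd : V → N) (s : V → ℤ) (f : V → V) (x : N) : ℤ :=
  ∑ v ∈ univ.filter (fun v => nd v = x), if f v = v then 0 else s v

/-- `F'` is a recolouring of the family `F` of disjoint matchings, inside the groups of colours -/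
def Recol (gp : β → γ) (F F' : β → V → V) : Prop :=
  (∀ b v, F' b (F' b v) = v) ∧ (∀ b b' v, b ≠ b' → F' b v = F' b' v → F' b v = v) ∧
  ∀ g v w, v ≠ w → ((∃ b, gp b = g ∧ F' b v = w) ↔ ∃ b, gp b = g ∧ F b v = w)

/-- swap of two matchings on a set which is closed under both -/
theorem swap_recol [DecidableEq V] [DecidableEq β] (gp : β → γ) (F F' : β → V → V)
    (hF : Recol gp F F') (b₁ b₂ : β) (hb : b₁ ≠ b₂) (hg : gp b₁ = gp b₂) (S : Finset V)
    (h1 : ∀ v, v ∈ S → F' b₁ v ∈ S) (h2 : ∀ v, v ∈ S → F' b₂ v ∈ S) :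
    Recol gp F (fun b v => if v ∈ S then
      (if b = b₁ then F' b₂ v else if b = b₂ then F' b₁ v else F' b v) else F' b v) := by
  obtain ⟨hinv, hdis, hun⟩ := hF
  have h1' : ∀ v, v ∉ S → F' b₁ v ∉ S := by
    intro v hv h
    apply hv
    have := h1 _ h
    rwa [hinv] at this
  have h2' : ∀ v, v ∉ S → F' b₂ v ∉ S := by
    intro v hv h
    apply hv
    have := h2 _ h
    rwa [hinv] at this
  -- for `v` fixed the new values are a permutation of the old ones
  have hval : ∀ v, ∃ π : β → β, Function.Involutive π ∧ (∀ b, gp (π b) = gp b) ∧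
      ∀ b, (if v ∈ S then
      (if b = b₁ then F' b₂ v else if b = b₂ then F' b₁ v else F' b v) else F' b v) =
        F' (π b) v := by
    intro v
    by_cases hv : v ∈ S
    · refine ⟨fun b => if b = b₁ then b₂ else if b = b₂ then b₁ else b, ?_, ?_, ?_⟩
      · intro b
        by_cases hb1 : b = b₁
        · subst hb1
          simp [hb.symm]
        · by_cases hb2 : b = b₂
          · subst hb2
            simp [hb1]
          · simp [hb1, hb2]
      · intro b
        by_cases hb1 : b = b₁
        · subst hb1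
          simp [hg]
        · by_cases hb2 : b = b₂
          · subst hb2
            simp [hb1, hg]
          · simp [hb1, hb2]
      · intro b
        rw [if_pos hv]
        by_cases hb1 : b = b₁
        · simp [hb1]
        · by_cases hb2 : b = b₂
          · subst hb2
            simp [hb1]
          · simp [hb1, hb2]
    · exact ⟨fun b => b, fun b => rfl, fun b => rfl, fun b => if_neg hv⟩
  refine ⟨?_, ?_, ?_⟩
  · intro b v
    simp only
    by_cases hv : v ∈ S
    · by_cases hb1 : b = b₁
      · subst hb1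
        rw [if_pos hv, if_pos rfl, if_pos (h2 v hv), if_pos rfl, hinv]
      · by_cases hb2 : b = b₂
        · subst hb2
          rw [if_pos hv, if_neg hb1, if_pos rfl, if_pos (h1 v hv), if_neg hb1, if_pos rfl, hinv]
        · rw [if_pos hv, if_neg hb1, if_neg hb2, if_neg hb1, if_neg hb2, ite_self, hinv]
    · by_cases hb1 : b = b₁
      · subst hb1
        rw [if_neg hv, if_neg (h1' v hv), hinv]
      · by_cases hb2 : b = b₂
        · subst hb2
          rw [if_neg hv, if_neg (h2' v hv), hinv]
        · rw [if_neg hv, if_neg hb1, if_neg hb2, ite_self, hinv]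
  · intro b b' v hbb h
    obtain ⟨π, hπ, -, hπv⟩ := hval v
    simp only at h ⊢
    rw [hπv, hπv] at h
    rw [hπv]
    exact hdis _ _ v (fun h' => hbb (hπ.injective h')) h
  · intro g v w hvw
    rw [← hun g v w hvw]
    obtain ⟨π, hπ, hπg, hπv⟩ := hval v
    constructor
    · rintro ⟨b, hbg, hbw⟩
      simp only at hbw
      rw [hπv] at hbw
      exact ⟨π b, by rw [hπg, hbg], hbw⟩
    · rintro ⟨b, hbg, hbw⟩
      refine ⟨π b, by rw [hπg, hbg], ?_⟩
      simp only
      rw [hπv, hπ b, hbw]

/-- EQUITABLE LEMMA -/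
theorem equitable [Fintype V] [Fintype β] [Fintype N] [DecidableEq V] [DecidableEq β] [DecidableEq N]
    (gp : β → γ) (F : β → V → V) (hinv : ∀ b v, F b (F b v) = v)
    (hdis : ∀ b b' v, b ≠ b' → F b v = F b' v → F b v = v) (nd : V → N) (s : V → ℤ)
    (hs : ∀ v, s v = 0 ∨ s v = 1 ∨ s v = -1) :
    ∃ F' : β → V → V, Recol gp F F' ∧
      ∀ b b', gp b = gp b' → ∀ x, |qs nd s (F' b) x - qs nd s (F' b') x| ≤ 2 := by
  classical
  have hne : (univ.filter fun F' : β → V → V => Recol gp F F').Nonempty :=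
    ⟨F, mem_filter.mpr ⟨mem_univ _, hinv, hdis, fun _ _ _ _ => Iff.rfl⟩⟩
  obtain ⟨F', hF', hmin⟩ := exists_min_image _
    (fun F' : β → V → V => ∑ x, ∑ b, (qs nd s (F' b) x) ^ 2) hne
  rw [mem_filter] at hF'
  refine ⟨F', hF'.2, ?_⟩
  -- it suffices to exclude a difference of at least 3
  suffices hkey : ∀ b₁ b₂, gp b₁ = gp b₂ → ∀ x0, ¬ 3 ≤ qs nd s (F' b₁) x0 - qs nd s (F' b₂) x0 by
    intro b b' hg x
    have h1 := hkey b b' hg x
    have h2 := hkey b' b hg.symm x
    rw [abs_le]
    omega
  intro b₁ b₂ hg x0 h3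
  have hb : b₁ ≠ b₂ := by
    rintro rfl
    rw [sub_self] at h3
    omega
  obtain ⟨hinv', hdis', -⟩ := hF'.2
  obtain ⟨cp, κ, hcσ, hcτ, hκ1, hκ2⟩ := exists_pairing (F' b₁) (F' b₂) (hinv' b₁) (hinv' b₂)
    (fun v hv => hdis' b₁ b₂ v hb hv)
  set O : Finset V := univ.filter fun v => (F' b₁ v = v ↔ ¬ F' b₂ v = v) with hO
  set t : V → ℤ := fun v => (if F' b₁ v = v then 0 else s v) - (if F' b₂ v = v then 0 else s v)
    with ht
  have htO : ∀ v, v ∉ O → t v = 0 := by
    intro v hv
    rw [hO, mem_filter, not_and] at hv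
    have hv := hv (mem_univ _)
    rw [ht]
    simp only
    by_cases h1 : F' b₁ v = v <;> by_cases h2 : F' b₂ v = v <;> simp_all
  have hD : ∀ x, qs nd s (F' b₁) x - qs nd s (F' b₂) x =
      ∑ v ∈ O.filter (fun v => nd v = x), t v := by
    intro x
    rw [qs, qs, ← sum_sub_distrib]
    symm
    apply sum_subset
    · intro v hv
      rw [mem_filter] at hv ⊢
      exact ⟨mem_univ _, hv.2⟩
    · intro v hv hv'
      rw [mem_filter] at hv hv'
      apply htO
      intro h
      exact hv' ⟨h, hv.2⟩
  have htv : ∀ v, t v = 0 ∨ t v = 1 ∨ t v = -1 := by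
    intro v
    rw [ht]
    simp only
    rcases hs v with h | h | h <;> rw [h] <;> split_ifs <;> norm_num
  rw [hD] at h3
  obtain ⟨T, hTO, hTκ, hTle, hTlt⟩ := trail O κ
    (fun v hv => mem_filter.mpr ⟨mem_univ _, (hκ1 v (mem_filter.mp hv).2).1⟩)
    (fun v hv => (hκ1 v (mem_filter.mp hv).2).2.1)
    (fun v hv => (hκ1 v (mem_filter.mp hv).2).2.2.1) nd t htv x0 h3
  -- the closed set
  set S : Finset V := univ.filter fun v => ∃ u ∈ T, cp u = cp v with hS
  have hSσ : ∀ v, v ∈ S → F' b₁ v ∈ S := by
    intro v hv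
    obtain ⟨-, u, hu, hc⟩ := mem_filter.mp hv
    exact mem_filter.mpr ⟨mem_univ _, u, hu, by rw [hc, hcσ]⟩
  have hSτ : ∀ v, v ∈ S → F' b₂ v ∈ S := by
    intro v hv
    obtain ⟨-, u, hu, hc⟩ := mem_filter.mp hv
    exact mem_filter.mpr ⟨mem_univ _, u, hu, by rw [hc, hcτ]⟩
  have hSO : ∀ v ∈ O, v ∈ S ↔ v ∈ T := by
    intro v hv
    constructor
    · intro h
      obtain ⟨-, u, hu, hc⟩ := mem_filter.mp h
      rcases hκ2 u v (mem_filter.mp (hTO hu)).2 (mem_filter.mp hv).2 hc with h1 | h1
      · rw [h1]; exact hu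
      · rw [h1]; exact hTκ u hu
    · intro h
      exact mem_filter.mpr ⟨mem_univ _, v, h, rfl⟩
  have hswap := swap_recol gp F F' hF'.2 b₁ b₂ hb hg S hSσ hSτ
  set F'' : β → V → V := fun b v => if v ∈ S then
      (if b = b₁ then F' b₂ v else if b = b₂ then F' b₁ v else F' b v) else F' b v with hF''
  have hle := hmin F'' (mem_filter.mpr ⟨mem_univ _, hswap⟩)
  -- the new sums
  have ha : ∀ x, ∑ v ∈ T.filter (fun v => nd v = x), t v =
      ∑ v ∈ univ.filter (fun v => nd v = x), if v ∈ S then t v else 0 := by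
    intro x
    rw [← sum_filter, filter_filter]
    apply sum_subset_zero_on_sdiff
    · intro v hv
      rw [mem_filter] at hv ⊢
      exact ⟨mem_univ _, hv.2, (hSO v (hTO hv.1)).mpr hv.1⟩
    · intro v hv
      rw [mem_sdiff, mem_filter, mem_filter] at hv
      apply htO
      intro h
      exact hv.2 (mem_filter.mpr ⟨(hSO v h).mp (mem_filter.mpr hv.1.2.2), hv.1.2.1⟩)
    · intro v _
      rfl
  have hq1 : ∀ x, qs nd s (F'' b₁) x = qs nd s (F' b₁) x -
      ∑ v ∈ T.filter (fun v => nd v = x), t v := by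
    intro x
    rw [ha, qs, qs, ← sum_sub_distrib]
    apply sum_congr rfl
    intro v _
    rw [hF'', ht]
    simp only
    by_cases hv : v ∈ S
    · rw [if_pos hv, if_pos hv, if_true]
      ring
    · rw [if_neg hv, if_neg hv]
      ring
  have hq2 : ∀ x, qs nd s (F'' b₂) x = qs nd s (F' b₂) x +
      ∑ v ∈ T.filter (fun v => nd v = x), t v := by
    intro x
    rw [ha, qs, qs, ← sum_add_distrib]
    apply sum_congr rfl
    intro v _
    rw [hF'', ht]
    simp only
    by_cases hv : v ∈ S
    · rw [if_pos hv, if_pos hv, if_neg hb.symm, if_true]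
      ring
    · rw [if_neg hv, if_neg hv]
      ring
  have hq3 : ∀ b x, b ≠ b₁ → b ≠ b₂ → qs nd s (F'' b) x = qs nd s (F' b) x := by
    intro b x h1 h2
    rw [qs, qs]
    apply sum_congr rfl
    intro v _
    have hv : F'' b v = F' b v := by
      rw [hF'']
      simp only
      rw [if_neg h1, if_neg h2, ite_self]
    rw [hv]
  -- comparison of the sums of squares
  have hsq : ∀ (H : β → V → V) (x : N), ∑ b, (qs nd s (H b) x) ^ 2 =
      (qs nd s (H b₁) x) ^ 2 + (qs nd s (H b₂) x) ^ 2 +
      ∑ b ∈ (univ.erase b₁).erase b₂, (qs nd s (H b) x) ^ 2 := by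
    intro H x
    rw [← add_sum_erase univ _ (mem_univ b₁), ← add_sum_erase (univ.erase b₁) _
      (mem_erase.mpr ⟨hb.symm, mem_univ b₂⟩)]
    ring
  have hrest : ∀ x, ∑ b ∈ (univ.erase b₁).erase b₂, (qs nd s (F'' b) x) ^ 2 =
      ∑ b ∈ (univ.erase b₁).erase b₂, (qs nd s (F' b) x) ^ 2 := by
    intro x
    apply sum_congr rfl
    intro b hb'
    rw [mem_erase, mem_erase] at hb'
    rw [hq3 b x hb'.2.1 hb'.1]
  have hcmp : ∀ x, ∑ b, (qs nd s (F'' b) x) ^ 2 ≤ ∑ b, (qs nd s (F' b) x) ^ 2 ∧
      (x = x0 → ∑ b, (qs nd s (F'' b) x) ^ 2 < ∑ b, (qs nd s (F' b) x) ^ 2) := by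
    intro x
    rw [hsq F'' x, hsq F' x, hrest x, hq1 x, hq2 x]
    have h1 := hTle x
    rw [← hD] at h1
    have h2 := sq_le_sq.mpr h1
    constructor
    · nlinarith
    · intro hx
      subst hx
      rw [← hD] at hTlt
      have h4 := sq_lt_sq.mpr hTlt
      nlinarith
  have hlt : ∑ x, ∑ b, (qs nd s (F'' b) x) ^ 2 < ∑ x, ∑ b, (qs nd s (F' b) x) ^ 2 :=
    sum_lt_sum (fun x _ => (hcmp x).1) ⟨x0, mem_univ _, (hcmp x0).2 rfl⟩
  exact absurd hle (not_le.mpr hlt)

end Pool.Agent.Work.MP_db9399_bp_helper22
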