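import Mathlib
import Pool.Agent.Work.MP_db9399_bp_helper22.Equitable

/-!
# Tokens: edge colourings whose missing colours are proper on a sparse graph (helper22)

`F : β → V → V` is a proper edge colouring (a family of disjoint matchings, as involutions).  The
colour `b` is missing at `v` (a token of `v`) if `F b v = v`.
-/

set_option autoImplicit false

namespace Pool.Agent.Work.MP_db9399_bp_helper22

open Finset

variable {V β : Type*}

/-- `F'` is a proper colouring of the same edges as `F` -/
def St (F F' : β → V → V) : Prop :=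
  (∀ b v, F' b (F' b v) = v) ∧ (∀ b b' v, b ≠ b' → F' b v = F' b' v → F' b v = v) ∧
  ∀ v w, v ≠ w → ((∃ b, F' b v = w) ↔ ∃ b, F b v = w)

theorem st_iff (F F' : β → V → V) : St F F' ↔ Recol (fun _ : β => ()) F F' := by
  unfold St Recol
  constructor
  · rintro ⟨h1, h2, h3⟩
    refine ⟨h1, h2, ?_⟩
    intro g v w hvw
    simp only [true_and]
    exact h3 v w hvw
  · rintro ⟨h1, h2, h3⟩
    refine ⟨h1, h2, ?_⟩
    intro v w hvw
    have := h3 () v w hvw
    simp only [true_and] at this
    exact this

/-- in conflict -/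
def Cf (X : Finset V) (T : V → V → Prop) (Fb : V → β → Prop) (F : β → V → V) (v : V) : Prop :=
  ∃ b, F b v = v ∧ ((∃ w ∈ X, T v w ∧ F b w = w) ∨ Fb v b)

/-- flip of the colours `a`, `b` on the set `Z` -/
def flip [DecidableEq V] [DecidableEq β] (F : β → V → V) (a b : β) (Z : Finset V) : β → V → V :=
  fun c v => if v ∈ Z then (if c = a then F b v else if c = b then F a v else F c v) else F c v

theorem flip_st [DecidableEq V] [DecidableEq β] (F F' : β → V → V) (hF : St F F') (a b : β)
    (hab : a ≠ b) (Z : Finset V) (h1 : ∀ v, v ∈ Z → F' a v ∈ Z) (h2 : ∀ v, v ∈ Z → F' b v ∈ Z) :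
    St F (flip F' a b Z) := by
  rw [st_iff] at hF ⊢
  exact swap_recol (fun _ : β => ()) F F' hF a b hab rfl Z h1 h2

/-- the edge `v y` changes its colour from `a` to `b` -/
def recol1 [DecidableEq V] [DecidableEq β] (F : β → V → V) (a b : β) (v y : V) : β → V → V :=
  fun c w => if c = a ∧ (w = v ∨ w = y) then w else if c = b ∧ w = v then y
    else if c = b ∧ w = y then v else F c w

theorem recol1_st [DecidableEq V] [DecidableEq β] (F F' : β → V → V) (hF : St F F') (a b : β)
    (hab : a ≠ b) (v y : V) (hvy : v ≠ y) (hav : F' a v = y) (hbv : F' b v = v) (hby : F' b y = y) :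
    St F (recol1 F' a b v y) := by
  obtain ⟨hinv, hdis, hun⟩ := hF
  have hay : F' a y = v := by rw [← hav, hinv]
  -- description of the values
  have e1 : recol1 F' a b v y a v = v := by simp [recol1]
  have e2 : recol1 F' a b v y a y = y := by simp [recol1]
  have e3 : recol1 F' a b v y b v = y := by simp [recol1, hab.symm]
  have e4 : recol1 F' a b v y b y = v := by simp [recol1, hab.symm, hvy.symm]
  have e5 : ∀ c w, c ≠ a → c ≠ b → recol1 F' a b v y c w = F' c w := by
    intro c w h1 h2; simp [recol1, h1, h2]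
  have e6 : ∀ c w, w ≠ v → w ≠ y → recol1 F' a b v y c w = F' c w := by
    intro c w h1 h2; simp [recol1, h1, h2]
  have hca : ∀ c, c ≠ a → F' c v ≠ y := by
    intro c hc h
    have := hdis c a v hc (h.trans hav.symm)
    rw [h] at this
    exact hvy this.symm
  have hcy : ∀ c, c ≠ a → F' c y ≠ v := by
    intro c hc h
    apply hca c hc
    rw [← h, hinv]
  refine ⟨?_, ?_, ?_⟩
  · intro c w
    by_cases h1 : w = v
    · subst h1
      by_cases h2 : c = a
      · subst h2; rw [e1, e1]
      · by_cases h3 : c = b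
        · subst h3; rw [e3, e4]
        · rw [e5 c _ h2 h3, e5 c _ h2 h3, hinv]
    · by_cases h1' : w = y
      · subst h1'
        by_cases h2 : c = a
        · subst h2; rw [e2, e2]
        · by_cases h3 : c = b
          · subst h3; rw [e4, e3]
          · rw [e5 c _ h2 h3, e5 c _ h2 h3, hinv]
      · rw [e6 c w h1 h1']
        have h4 : F' c w ≠ v ∨ c ≠ a ∧ c ≠ b := by
          by_contra hcon
          push Not at hcon
          obtain ⟨h5, h6⟩ := hcon
          have h7 : F' c v = w := by rw [← h5, hinv]
          by_cases h8 : c = a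
          · rw [h8, hav] at h7; exact h1' h7.symm
          · rw [h6 h8, hbv] at h7; exact h1 h7.symm
        have h4' : F' c w ≠ y ∨ c ≠ a ∧ c ≠ b := by
          by_contra hcon
          push Not at hcon
          obtain ⟨h5, h6⟩ := hcon
          have h7 : F' c y = w := by rw [← h5, hinv]
          by_cases h8 : c = a
          · rw [h8, hay] at h7; exact h1 h7.symm
          · rw [h6 h8, hby] at h7; exact h1' h7.symm
        rcases h4 with h4 | h4
        · rcases h4' with h4' | h4'
          · rw [e6 c _ h4 h4', hinv]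
          · rw [e5 c _ h4'.1 h4'.2, hinv]
        · rw [e5 c _ h4.1 h4.2, hinv]
  · intro c c' w hcc h
    by_cases h1 : w = v
    · subst h1
      by_cases h2 : c = a
      · subst h2; exact e1
      · by_cases h2' : c' = a
        · subst h2'
          rw [h, e1]
        · by_cases h3 : c = b
          · subst h3
            rw [e3, e5 c' _ h2' (Ne.symm hcc)] at h
            exact absurd h.symm (hca c' h2')
          · by_cases h3' : c' = b
            · subst h3'
              rw [e3, e5 c _ h2 h3] at h
              exact absurd h (hca c h2)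
            · rw [e5 c _ h2 h3] at h ⊢
              rw [e5 c' _ h2' h3'] at h
              exact hdis c c' _ hcc h
    · by_cases h1' : w = y
      · subst h1'
        by_cases h2 : c = a
        · subst h2; exact e2
        · by_cases h2' : c' = a
          · subst h2'
            rw [h, e2]
          · by_cases h3 : c = b
            · subst h3
              rw [e4, e5 c' _ h2' (Ne.symm hcc)] at h
              exact absurd h.symm (hcy c' h2')
            · by_cases h3' : c' = b
              · subst h3'
                rw [e4, e5 c _ h2 h3] at h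
                exact absurd h (hcy c h2)
              · rw [e5 c _ h2 h3] at h ⊢
                rw [e5 c' _ h2' h3'] at h
                exact hdis c c' _ hcc h
      · rw [e6 c w h1 h1'] at h ⊢
        rw [e6 c' w h1 h1'] at h
        exact hdis c c' w hcc h
  · intro u w huw
    rw [← hun u w huw]
    constructor
    · rintro ⟨c, hc⟩
      by_cases h1 : u = v
      · subst h1
        by_cases h2 : c = a
        · subst h2; rw [e1] at hc; exact absurd hc huw
        · by_cases h3 : c = b
          · subst h3; rw [e3] at hc; exact ⟨a, hav.trans hc⟩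
          · rw [e5 c _ h2 h3] at hc; exact ⟨c, hc⟩
      · by_cases h1' : u = y
        · subst h1'
          by_cases h2 : c = a
          · subst h2; rw [e2] at hc; exact absurd hc huw
          · by_cases h3 : c = b
            · subst h3; rw [e4] at hc; exact ⟨a, hay.trans hc⟩
            · rw [e5 c _ h2 h3] at hc; exact ⟨c, hc⟩
        · rw [e6 c u h1 h1'] at hc
          exact ⟨c, hc⟩
    · rintro ⟨c, hc⟩
      by_cases h1 : u = v
      · subst h1
        by_cases h2 : c = a
        · subst h2; exact ⟨b, by rw [e3, ← hc, hav]⟩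
        · by_cases h3 : c = b
          · subst h3; rw [hbv] at hc; exact absurd hc huw
          · exact ⟨c, by rw [e5 c _ h2 h3, hc]⟩
      · by_cases h1' : u = y
        · subst h1'
          by_cases h2 : c = a
          · subst h2; exact ⟨b, by rw [e4, ← hc, hay]⟩
          · by_cases h3 : c = b
            · subst h3; rw [hby] at hc; exact absurd hc huw
            · exact ⟨c, by rw [e5 c _ h2 h3, hc]⟩
        · exact ⟨c, by rw [e6 c u h1 h1', hc]⟩

/-- the number of tokens of a vertex does not change -/
theorem st_card [Fintype V] [DecidableEq V] [Fintype β] [DecidableEq β] (F F' : β → V → V)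
    (hF : St F F) (hF' : St F F') (v : V) :
    (univ.filter fun b => F' b v = v).card = (univ.filter fun b => F b v = v).card := by
  classical
  have h1 : ∀ G : β → V → V, St F G → (univ.filter fun b => ¬ G b v = v).card =
      (univ.filter fun w => v ≠ w ∧ ∃ b, F b v = w).card := by
    intro G hG
    apply card_bij (fun b _ => G b v)
    · intro b hb
      rw [mem_filter] at hb ⊢
      refine ⟨mem_univ _, Ne.symm hb.2, ?_⟩
      exact (hG.2.2 v (G b v) (Ne.symm hb.2)).1 ⟨b, rfl⟩
    · intro b hb b' hb' h
      rw [mem_filter] at hb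
      by_contra hne
      exact hb.2 (hG.2.1 b b' v hne h)
    · intro w hw
      rw [mem_filter] at hw
      obtain ⟨b, hb⟩ := (hG.2.2 v w hw.2.1).2 hw.2.2
      exact ⟨b, mem_filter.2 ⟨mem_univ _, by rw [hb]; exact Ne.symm hw.2.1⟩, hb⟩
  have h2 := card_filter_add_card_filter_not (s := (univ : Finset β)) (fun b => F b v = v)
  have h3 := card_filter_add_card_filter_not (s := (univ : Finset β)) (fun b => F' b v = v)
  have h4 := h1 F hF
  have h5 := h1 F' hF'
  omega

/-- comparison of the conflicts of two colourings which differ at few vertices -/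
theorem conf_sub (X : Finset V) (T : V → V → Prop) (hTs : ∀ v w, T v w → T w v)
    (Fb : V → β → Prop) (F F' : β → V → V) (Ch : Finset V)
    (h0 : ∀ x ∈ X, x ∉ Ch → ∀ c, (F' c x = x ↔ F c x = x))
    (h1 : ∀ u ∈ X, u ∈ Ch → ∀ c, F' c u = u → ¬ Fb u c ∧ ∀ w ∈ X, w ∉ Ch → T u w → F c w ≠ w)
    (h2 : ∀ u ∈ X, ∀ w ∈ X, u ∈ Ch → w ∈ Ch → T u w → ∀ c, F' c u = u → F' c w = w →
      Cf X T Fb F u) : ∀ x ∈ X, Cf X T Fb F' x → Cf X T Fb F x := by
  rintro x hx ⟨c, hc, h⟩
  by_cases hxC : x ∈ Ch
  · rcases h with ⟨w, hw, hT, hcw⟩ | h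
    · by_cases hwC : w ∈ Ch
      · exact h2 x hx w hw hxC hwC hT c hc hcw
      · exact absurd ((h0 w hw hwC c).1 hcw) ((h1 x hx hxC c hc).2 w hw hwC hT)
    · exact absurd h (h1 x hx hxC c hc).1
  · have hcx := (h0 x hx hxC c).1 hc
    rcases h with ⟨w, hw, hT, hcw⟩ | h
    · by_cases hwC : w ∈ Ch
      · exact absurd hcx ((h1 w hw hwC c hcw).2 x hx hxC (hTs _ _ hT))
      · exact ⟨c, hcx, Or.inl ⟨w, hw, hT, (h0 w hw hwC c).1 hcw⟩⟩
    · exact ⟨c, hcx, Or.inr h⟩

/-- the two ends of the `(a, b)`-chains, and the flips -/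
theorem chain [Fintype V] [DecidableEq V] [DecidableEq β] (F0 F : β → V → V) (hF : St F0 F)
    (a b : β) (hab : a ≠ b) :
    ∃ κ : V → V, (∀ v, (F a v = v ↔ ¬ F b v = v) →
      (F a (κ v) = κ v ↔ ¬ F b (κ v) = κ v) ∧ κ (κ v) = v ∧ κ v ≠ v) ∧
      ∀ v, (F a v = v ↔ ¬ F b v = v) → ∃ F', St F0 F' ∧
        (∀ x, x ≠ v → x ≠ κ v → ∀ c, (F' c x = x ↔ F c x = x)) ∧
        (∀ x, x = v ∨ x = κ v → ∀ c, (F' c x = x ↔ F (Equiv.swap a b c) x = x)) ∧
        ∀ c, c ≠ a → c ≠ b → F' c = F c := by
  obtain ⟨cp, κ, hcσ, hcτ, hκ1, hκ2⟩ := exists_pairing (F a) (F b) (hF.1 a) (hF.1 b)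
    (fun v hv => hF.2.1 a b v hab hv)
  refine ⟨κ, fun v hv => ⟨(hκ1 v hv).1, (hκ1 v hv).2.1, (hκ1 v hv).2.2.1⟩, ?_⟩
  intro v hv
  set Z : Finset V := univ.filter fun w => cp w = cp v with hZ
  have hZa : ∀ w, w ∈ Z → F a w ∈ Z := by
    intro w hw
    rw [hZ, mem_filter] at hw ⊢
    exact ⟨mem_univ _, (hcσ w).trans hw.2⟩
  have hZb : ∀ w, w ∈ Z → F b w ∈ Z := by
    intro w hw
    rw [hZ, mem_filter] at hw ⊢
    exact ⟨mem_univ _, (hcτ w).trans hw.2⟩
  refine ⟨flip F a b Z, flip_st F0 F hF a b hab Z hZa hZb, ?_, ?_, ?_⟩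
  · intro x hxv hxκ c
    by_cases hx : x ∈ Z
    · have hxO : ¬ (F a x = x ↔ ¬ F b x = x) := by
        intro h
        rw [hZ, mem_filter] at hx
        rcases hκ2 v x hv h hx.2.symm with h1 | h1
        · exact hxv h1
        · exact hxκ h1
      unfold flip
      rw [if_pos hx]
      by_cases hca : c = a
      · subst hca
        rw [if_pos rfl]
        tauto
      · rw [if_neg hca]
        by_cases hcb : c = b
        · subst hcb
          rw [if_pos rfl]
          tauto
        · rw [if_neg hcb]
    · unfold flip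
      rw [if_neg hx]
  · intro x hx c
    have hxZ : x ∈ Z := by
      rw [hZ, mem_filter]
      refine ⟨mem_univ _, ?_⟩
      rcases hx with rfl | rfl
      · rfl
      · exact (hκ1 v hv).2.2.2
    unfold flip
    rw [if_pos hxZ]
    by_cases hca : c = a
    · subst hca
      rw [if_pos rfl, Equiv.swap_apply_left]
    · rw [if_neg hca]
      by_cases hcb : c = b
      · subst hcb
        rw [if_pos rfl, Equiv.swap_apply_right]
      · rw [if_neg hcb, Equiv.swap_apply_of_ne_of_ne hca hcb]
  · intro c hca hcb
    funext w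
    unfold flip
    rw [if_neg hca, if_neg hcb, ite_self]

/-- the squares decrease -/
theorem sq_lt [Fintype β] [DecidableEq β] (f f' : β → ℕ) (a b : β) (hab : a ≠ b) (t : ℕ)
    (ht : 0 < t) (h0 : ∀ c, c ≠ a → c ≠ b → f' c = f c) (h1 : f' b + t = f b)
    (h2 : f' a = f a + t) (h3 : f a + t < f b) : ∑ c, (f' c) ^ 2 < ∑ c, (f c) ^ 2 := by
  have e : ∀ g : β → ℕ, ∑ c, (g c) ^ 2 = (g a) ^ 2 + ((g b) ^ 2 +
      ∑ c ∈ (univ.erase a).erase b, (g c) ^ 2) := by
    intro g
    rw [add_sum_erase _ (fun c => (g c) ^ 2) (mem_erase.2 ⟨hab.symm, mem_univ _⟩),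
      add_sum_erase _ (fun c => (g c) ^ 2) (mem_univ _)]
  rw [e f, e f']
  have h4 : ∑ c ∈ (univ.erase a).erase b, (f' c) ^ 2 = ∑ c ∈ (univ.erase a).erase b, (f c) ^ 2 := by
    apply sum_congr rfl
    intro c hc
    rw [mem_erase, mem_erase] at hc
    rw [h0 c hc.2.1 hc.1]
  rw [h4, h2, ← h1]
  have h5 : f a < f' b := by omega
  have h6 : f a * t < f' b * t := Nat.mul_lt_mul_of_pos_right h5 ht
  nlinarith

section core
variable [Fintype V] [DecidableEq V] [Fintype β] [DecidableEq β]

open Classical in
/-- the number of `X`-vertices with the token `b` -/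
noncomputable def sb (X : Finset V) (F : β → V → V) (b : β) : ℕ := (X.filter fun x => F b x = x).card

/-- every colour is missing at few vertices of `X` -/
theorem claim1 (F0 F : β → V → V) (hF : St F0 F) (X : Finset V) (hX : ∀ x ∈ X, ∃! b, F b x = x)
    (T : V → V → Prop) (hTs : ∀ v w, T v w → T w v) (Fb : V → β → Prop)
    (C D h : ℕ) (hXc : X.card ≤ C * D) (hβ : D < Fintype.card β)
    (hd : ∀ x ∈ X, ∃ B : Finset β, B.card ≤ h ∧
      ∀ a, ((∃ w ∈ X, T x w ∧ F a w = w) ∨ Fb x a) → a ∈ B)
    (h8 : 8 * h < D)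
    (hmin : ∀ F', St F0 F' → (∀ x ∈ X, Cf X T Fb F' x → Cf X T Fb F x) →
      (∀ x ∈ X, Cf X T Fb F x → Cf X T Fb F' x) ∧ ∑ b, (sb X F b) ^ 2 ≤ ∑ b, (sb X F' b) ^ 2)
    (b : β) : sb X F b ≤ 4 * C + 2 := by
  classical
  by_contra hcon
  push Not at hcon
  set Bl : β → Finset V := fun a => X.filter fun u => F b u = u ∧
    ((∃ w ∈ X, T u w ∧ F a w = w) ∨ Fb u a) with hBl
  -- the main estimate for one colour
  have hkey : ∀ a, sb X F a ≤ 2 * C → sb X F b ≤ sb X F a + 2 * (Bl a).card := by
    intro a ha
    have hab : a ≠ b := by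
      rintro rfl
      omega
    obtain ⟨κ, hκ1, hκ2⟩ := chain F0 F hF a b hab
    -- every vertex of `X` with token `b` is in `O`
    have hO : ∀ v ∈ X, F b v = v → (F a v = v ↔ ¬ F b v = v) := by
      intro v hv hbv
      constructor
      · intro h1
        exact absurd ((hX v hv).unique h1 hbv) hab
      · intro h1
        exact absurd hbv h1
    -- the good ones
    set Gd : Finset V := X.filter fun v => F b v = v ∧ ¬ (κ v ∈ X ∧ F a (κ v) = κ v) with hGd
    have hg1 : sb X F b ≤ sb X F a + Gd.card := by
      have h1 : (X.filter fun x => F b x = x) ⊆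
          ((X.filter fun x => F b x = x).filter fun v => κ v ∈ X ∧ F a (κ v) = κ v) ∪ Gd := by
        intro v hv
        rw [mem_union, mem_filter]
        by_cases h2 : κ v ∈ X ∧ F a (κ v) = κ v
        · exact Or.inl ⟨hv, h2⟩
        · right
          rw [hGd, mem_filter]
          rw [mem_filter] at hv
          exact ⟨hv.1, hv.2, h2⟩
      have h2 : ((X.filter fun x => F b x = x).filter fun v => κ v ∈ X ∧ F a (κ v) = κ v).card ≤
          sb X F a := by
        unfold sb
        apply card_le_card_of_injOn κ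
        · intro v hv
          rw [mem_coe, mem_filter] at hv
          rw [mem_coe, mem_filter]
          exact hv.2
        · intro v hv w hw hvw
          rw [mem_coe, mem_filter, mem_filter] at hv hw
          rw [← (hκ1 v (hO v hv.1.1 hv.1.2)).2.1, hvw, (hκ1 w (hO w hw.1.1 hw.1.2)).2.1]
      have h3 := (card_le_card h1).trans (card_union_le _ _)
      unfold sb at h2 ⊢
      omega
    -- good vertices are blocked
    have hg2 : ∀ v ∈ Gd, v ∈ Bl a ∨ κ v ∈ Bl a := by
      intro v hv
      rw [hGd, mem_filter] at hv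
      obtain ⟨hvX, hbv, hgd⟩ := hv
      have hvO := hO v hvX hbv
      obtain ⟨hκO, hκκ, hκne⟩ := hκ1 v hvO
      by_contra hnb
      push Not at hnb
      obtain ⟨F', hF', hu1, hu2, hu3⟩ := hκ2 v hvO
      have hκb : κ v ∈ X → F b (κ v) = κ v := by
        intro h1
        by_contra h2
        exact hgd ⟨h1, hκO.2 h2⟩
      -- the ends in `X` have token `a` afterwards
      have htok : ∀ u ∈ X, (u = v ∨ u = κ v) → ∀ c, F' c u = u → c = a := by
        intro u huX hu c hc
        have h1 := (hu2 u hu c).1 hc
        have h2 : F b u = u := by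
          rcases hu with rfl | rfl
          · exact hbv
          · exact hκb huX
        have h3 := (hX u huX).unique h1 h2
        rw [Equiv.swap_apply_eq_iff, Equiv.swap_apply_right] at h3
        exact h3
      have hnbl : ∀ u ∈ X, (u = v ∨ u = κ v) → ¬ Fb u a ∧ ∀ w ∈ X, T u w → F a w ≠ w := by
        intro u huX hu
        have h1 : u ∉ Bl a := by
          rcases hu with rfl | rfl
          · exact hnb.1
          · exact hnb.2
        have h2 : F b u = u := by
          rcases hu with rfl | rfl
          · exact hbv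
          · exact hκb huX
        constructor
        · intro h3
          exact h1 (mem_filter.2 ⟨huX, h2, Or.inr h3⟩)
        · intro w hw hT h3
          exact h1 (mem_filter.2 ⟨huX, h2, Or.inl ⟨w, hw, hT, h3⟩⟩)
      have hconf := conf_sub X T hTs Fb F F' {v, κ v}
        (by
          intro x _ hx c
          rw [mem_insert, mem_singleton, not_or] at hx
          exact hu1 x hx.1 hx.2 c)
        (by
          intro u huX hu c hc
          rw [mem_insert, mem_singleton] at hu
          have h1 := htok u huX hu c hc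
          subst h1
          exact ⟨(hnbl u huX hu).1, fun w hw _ hT => (hnbl u huX hu).2 w hw hT⟩)
        (by
          intro u huX w hwX hu hw hT c _ _
          rw [mem_insert, mem_singleton] at hu hw
          have h1 : F b u = u := by
            rcases hu with rfl | rfl
            · exact hbv
            · exact hκb huX
          have h2 : F b w = w := by
            rcases hw with rfl | rfl
            · exact hbv
            · exact hκb hwX
          exact ⟨b, h1, Or.inl ⟨w, hwX, hT, h2⟩⟩)
      have h1 := (hmin F' hF' hconf).2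
      -- the squares
      set t : ℕ := (({v, κ v} : Finset V).filter fun x => x ∈ X).card with ht
      have ht0 : 0 < t := by
        rw [ht, card_pos]
        exact ⟨v, mem_filter.2 ⟨mem_insert_self _ _, hvX⟩⟩
      have ht2 : t ≤ 2 := by
        rw [ht]
        exact (card_filter_le _ _).trans (card_le_two)
      have hsub1 : (({v, κ v} : Finset V).filter fun x => x ∈ X) ⊆ X.filter fun x => F b x = x := by
        intro x hx
        rw [mem_filter, mem_insert, mem_singleton] at hx
        rw [mem_filter]
        refine ⟨hx.2, ?_⟩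
        rcases hx.1 with rfl | rfl
        · exact hbv
        · exact hκb hx.2
      have hsb : sb X F' b + t = sb X F b := by
        have h2 : (X.filter fun x => F' b x = x) = (X.filter fun x => F b x = x) \
            (({v, κ v} : Finset V).filter fun x => x ∈ X) := by
          ext x
          rw [mem_sdiff, mem_filter, mem_filter, mem_filter, mem_insert, mem_singleton]
          constructor
          · rintro ⟨hx, hbx⟩
            have hxn : ¬ (x = v ∨ x = κ v) := by
              intro h3
              exact hab (htok x hx h3 b hbx).symm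
            rw [not_or] at hxn
            exact ⟨⟨hx, (hu1 x hxn.1 hxn.2 b).1 hbx⟩, fun h3 => (not_or.2 hxn) h3.1⟩
          · rintro ⟨⟨hx, hbx⟩, hxn⟩
            have hxn' : ¬ (x = v ∨ x = κ v) := fun h3 => hxn ⟨h3, hx⟩
            rw [not_or] at hxn'
            exact ⟨hx, (hu1 x hxn'.1 hxn'.2 b).2 hbx⟩
        unfold sb
        rw [h2, card_sdiff_of_subset hsub1, ht]
        have := card_le_card hsub1
        omega
      have hsa : sb X F' a = sb X F a + t := by
        have h2 : (X.filter fun x => F' a x = x) = (X.filter fun x => F a x = x) ∪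
            (({v, κ v} : Finset V).filter fun x => x ∈ X) := by
          ext x
          rw [mem_union, mem_filter, mem_filter, mem_filter, mem_insert, mem_singleton]
          constructor
          · rintro ⟨hx, hax⟩
            by_cases h3 : x = v ∨ x = κ v
            · exact Or.inr ⟨h3, hx⟩
            · rw [not_or] at h3
              exact Or.inl ⟨hx, (hu1 x h3.1 h3.2 a).1 hax⟩
          · rintro (⟨hx, hax⟩ | ⟨h3, hx⟩)
            · by_cases h3 : x = v ∨ x = κ v
              · refine ⟨hx, (hu2 x h3 a).2 ?_⟩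
                rw [Equiv.swap_apply_left]
                rcases h3 with rfl | rfl
                · exact hbv
                · exact hκb hx
              · rw [not_or] at h3
                exact ⟨hx, (hu1 x h3.1 h3.2 a).2 hax⟩
            · refine ⟨hx, (hu2 x h3 a).2 ?_⟩
              rw [Equiv.swap_apply_left]
              rcases h3 with rfl | rfl
              · exact hbv
              · exact hκb hx
        unfold sb
        rw [h2, card_union_of_disjoint, ht]
        rw [disjoint_left]
        intro x hx hx'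
        have h3 := mem_filter.1 (hsub1 hx')
        rw [mem_filter] at hx
        exact hab ((hX x hx.1).unique hx.2 h3.2)
      have hsc : ∀ c, c ≠ a → c ≠ b → sb X F' c = sb X F c := by
        intro c hca hcb
        unfold sb
        rw [hu3 c hca hcb]
      have h2 := sq_lt (sb X F) (sb X F') a b hab t ht0 hsc hsb hsa (by omega)
      omega
    have hg3 : Gd.card ≤ 2 * (Bl a).card := by
      have h1 : Gd ⊆ Bl a ∪ (Bl a).image κ := by
        intro v hv
        have hv' := hv
        rw [hGd, mem_filter] at hv'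
        rcases hg2 v hv with h2 | h2
        · exact mem_union_left _ h2
        · apply mem_union_right
          rw [mem_image]
          exact ⟨κ v, h2, (hκ1 v (hO v hv'.1 hv'.2.1)).2.1⟩
      have h2 := (card_le_card h1).trans (card_union_le _ _)
      have h3 : ((Bl a).image κ).card ≤ (Bl a).card := card_image_le
      omega
    omega
  -- the colours with few tokens
  set A : Finset β := univ.filter fun a => sb X F a ≤ 2 * C with hA
  have hsum : ∑ a, sb X F a ≤ C * D := by
    refine le_trans ?_ hXc
    unfold sb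
    rw [← card_biUnion]
    · apply card_le_card
      intro x hx
      rw [mem_biUnion] at hx
      obtain ⟨_, _, hx⟩ := hx
      exact (mem_filter.1 hx).1
    · intro a _ a' _ haa
      rw [Function.onFun, disjoint_left]
      intro x hx hx'
      rw [mem_filter] at hx hx'
      exact haa ((hX x hx.1).unique hx.2 hx'.2)
  have hAc : 2 * (univ.filter fun a => ¬ sb X F a ≤ 2 * C).card ≤ D := by
    have h1 : (univ.filter fun a => ¬ sb X F a ≤ 2 * C).card * (2 * C + 1) ≤ C * D := by
      calc (univ.filter fun a => ¬ sb X F a ≤ 2 * C).card * (2 * C + 1)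
          = ∑ a ∈ univ.filter (fun a => ¬ sb X F a ≤ 2 * C), (2 * C + 1) := by
            rw [sum_const, smul_eq_mul]
        _ ≤ ∑ a ∈ univ.filter (fun a => ¬ sb X F a ≤ 2 * C), sb X F a := by
            apply sum_le_sum
            intro a ha
            rw [mem_filter] at ha
            omega
        _ ≤ ∑ a, sb X F a := sum_le_sum_of_subset (subset_univ _)
        _ ≤ C * D := hsum
    have h2 : (2 * (univ.filter fun a => ¬ sb X F a ≤ 2 * C).card) * (2 * C + 1) ≤
        D * (2 * C + 1) := by nlinarith
    exact Nat.le_of_mul_le_mul_right h2 (by omega)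
  have hA2 : D + 2 ≤ 2 * A.card := by
    have h1 := card_filter_add_card_filter_not (s := (univ : Finset β)) (fun a => sb X F a ≤ 2 * C)
    rw [card_univ] at h1
    rw [hA]
    omega
  -- the number of blocked pairs
  have hbl : ∑ a ∈ A, (Bl a).card ≤ sb X F b * h := by
    choose! B hB1 hB2 using hd
    calc ∑ a ∈ A, (Bl a).card ≤ ∑ a, (Bl a).card := sum_le_sum_of_subset (subset_univ _)
      _ = ∑ a, ∑ u ∈ X.filter (fun u => F b u = u),
          if ((∃ w ∈ X, T u w ∧ F a w = w) ∨ Fb u a) then 1 else 0 := by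
          apply sum_congr rfl
          intro a _
          simp only [hBl]
          rw [← filter_filter, card_filter]
      _ = ∑ u ∈ X.filter (fun u => F b u = u), ∑ a,
          if ((∃ w ∈ X, T u w ∧ F a w = w) ∨ Fb u a) then 1 else 0 := sum_comm
      _ ≤ ∑ u ∈ X.filter (fun u => F b u = u), h := by
          apply sum_le_sum
          intro u hu
          rw [mem_filter] at hu
          rw [← card_filter]
          refine le_trans (card_le_card ?_) (hB1 u hu.1)
          intro a ha
          rw [mem_filter] at ha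
          exact hB2 u hu.1 a ha.2
      _ = sb X F b * h := by
          rw [sum_const, smul_eq_mul]
          rfl
  have hfin : A.card * sb X F b ≤ A.card * (2 * C) + 2 * (sb X F b * h) := by
    calc A.card * sb X F b = ∑ a ∈ A, sb X F b := by rw [sum_const, smul_eq_mul]
      _ ≤ ∑ a ∈ A, (2 * C + 2 * (Bl a).card) := by
          apply sum_le_sum
          intro a ha
          rw [hA, mem_filter] at ha
          have := hkey a ha.2
          omega
      _ = A.card * (2 * C) + 2 * ∑ a ∈ A, (Bl a).card := by
          rw [sum_add_distrib, sum_const, smul_eq_mul, mul_sum]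
      _ ≤ _ := by omega
  have h9 : A.card * sb X F b ≤ 4 * h * sb X F b := by
    have h10 : A.card * (4 * C + 3) ≤ A.card * sb X F b := Nat.mul_le_mul_left _ hcon
    nlinarith
  have h11 : A.card ≤ 4 * h := Nat.le_of_mul_le_mul_right h9 (by omega)
  omega

omit [Fintype V] [Fintype β] in
/-- The butterfly: `v` misses `b`, the edge `v y` has the colour `a`, `y` misses `e`, `y` is not on
the `(e, b)`-chain of `v`. Afterwards `v` misses `a`, the other end `u` of the chain of `y` has its
tokens `e` and `b` exchanged, and the tokens of all other vertices except `y` are unchanged. -/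
theorem butterfly (F0 F : β → V → V) (hF : St F0 F) (a b e : β) (heb : e ≠ b) (v y : V)
    (hvy : v ≠ y) (hbv : F b v = v) (hav : F a v = y) (hey : F e y = y) (hby : F b y ≠ y)
    (κ : V → V) (hκ1 : ∀ v, (F e v = v ↔ ¬ F b v = v) →
      (F e (κ v) = κ v ↔ ¬ F b (κ v) = κ v) ∧ κ (κ v) = v ∧ κ v ≠ v)
    (hκ2 : ∀ v, (F e v = v ↔ ¬ F b v = v) → ∃ F', St F0 F' ∧
        (∀ x, x ≠ v → x ≠ κ v → ∀ c, (F' c x = x ↔ F c x = x)) ∧
        (∀ x, x = v ∨ x = κ v → ∀ c, (F' c x = x ↔ F (Equiv.swap e b c) x = x)) ∧
        ∀ c, c ≠ e → c ≠ b → F' c = F c)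
    (hvκ : v ≠ κ y) :
    ∃ F', St F0 F' ∧ (∀ x, x ≠ v → x ≠ y → x ≠ κ y → ∀ c, (F' c x = x ↔ F c x = x)) ∧
      (∀ c, (F' c (κ y) = κ y ↔ F (Equiv.swap e b c) (κ y) = κ y)) ∧
      ∀ c, F' c v = v → c = a ∨ (c ≠ b ∧ F c v = v) := by
  have hyO : F e y = y ↔ ¬ F b y = y := ⟨fun _ => hby, fun _ => hey⟩
  obtain ⟨hκO, hκκ, hκne⟩ := hκ1 y hyO
  obtain ⟨F1, hF1, hu1, hu2, hu3⟩ := hκ2 y hyO
  have hay : F a y = v := by rw [← hav, hF.1]
  have hab : a ≠ b := by
    rintro rfl
    exact hvy (hbv.symm.trans hav)
  have hae : a ≠ e := by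
    rintro rfl
    exact hvy (hay.symm.trans hey)
  have h1 : F1 a v = y := by rw [hu3 a hae hab]; exact hav
  have h2 : F1 b v = v := (hu1 v hvy hvκ b).2 hbv
  have h3 : F1 b y = y := (hu2 y (Or.inl rfl) b).2 (by rw [Equiv.swap_apply_right]; exact hey)
  refine ⟨recol1 F1 a b v y, recol1_st F0 F1 hF1 a b hab v y hvy h1 h2 h3, ?_, ?_, ?_⟩
  · intro x hxv hxy hxκ c
    have : recol1 F1 a b v y c x = F1 c x := by simp [recol1, hxv, hxy]
    rw [this]
    exact hu1 x hxy hxκ c
  · intro c
    have : recol1 F1 a b v y c (κ y) = F1 c (κ y) := by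
      simp [recol1, hvκ.symm, hκne]
    rw [this]
    exact hu2 (κ y) (Or.inr rfl) c
  · intro c hc
    by_cases hca : c = a
    · exact Or.inl hca
    · right
      by_cases hcb : c = b
      · subst hcb
        have : recol1 F1 a c v y c v = y := by simp [recol1, hca]
        rw [this] at hc
        exact absurd hc.symm hvy
      · refine ⟨hcb, ?_⟩
        have : recol1 F1 a b v y c v = F1 c v := by simp [recol1, hca, hcb]
        rw [this] at hc
        exact (hu1 v hvy hvκ c).1 hc

/-- there is no conflict in a minimal colouring -/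
theorem claim2 (F0 F : β → V → V) (hF : St F0 F) (X : Finset V) (hX : ∀ x ∈ X, ∃! b, F b x = x)
    (T : V → V → Prop) (hTs : ∀ v w, T v w → T w v) (hTi : ∀ v, ¬ T v v) (Fb : V → β → Prop)
    (D g h k K : ℕ) (hβ : D < Fintype.card β)
    (hd : ∀ x ∈ X, ∃ B : Finset β, B.card ≤ h ∧
      ∀ a, ((∃ w ∈ X, T x w ∧ F a w = w) ∨ Fb x a) → a ∈ B)
    (hT : ∀ x ∈ X, ∃ B : Finset V, B.card ≤ h ∧ ∀ w ∈ X, T x w → w ∈ B)
    (hk : ∀ b, ∃ B : Finset V, B.card ≤ k ∧ ∀ x ∈ X, Fb x b → x ∈ B)
    (hg : ∀ x ∈ X, ∃ B : Finset V, B.card ≤ g ∧ ∀ w, w ≠ x → (∃ b, F b x = w) →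
      (w ∈ X ∨ ∀ e, F e w ≠ w) → w ∈ B)
    (hK : ∀ b, sb X F b ≤ K) (hsmall : g + k + 2 * h + 2 * (K * h) < D)
    (hmin : ∀ F', St F0 F' → (∀ x ∈ X, Cf X T Fb F' x → Cf X T Fb F x) →
      (∀ x ∈ X, Cf X T Fb F x → Cf X T Fb F' x)) :
    ∀ x ∈ X, ¬ Cf X T Fb F x := by
  classical
  intro v hv hcf
  obtain ⟨b, hbv, hcf'⟩ := hcf
  have hcf : Cf X T Fb F v := ⟨b, hbv, hcf'⟩
  have htokv : ∀ c, F c v = v → c = b := fun c hc => (hX v hv).unique hc hbv
  obtain ⟨E, hE1, hE2⟩ := hd v hv
  have hbE : b ∈ E := hE2 b (by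
    rcases hcf' with ⟨w, hw, h1, h2⟩ | h1
    · exact Or.inl ⟨w, hw, h1, h2⟩
    · exact Or.inr h1)
  -- the chains
  have hch : ∀ e, ∃ κ : V → V, e ≠ b → (∀ v, (F e v = v ↔ ¬ F b v = v) →
      (F e (κ v) = κ v ↔ ¬ F b (κ v) = κ v) ∧ κ (κ v) = v ∧ κ v ≠ v) ∧
      ∀ v, (F e v = v ↔ ¬ F b v = v) → ∃ F', St F0 F' ∧
        (∀ x, x ≠ v → x ≠ κ v → ∀ c, (F' c x = x ↔ F c x = x)) ∧
        (∀ x, x = v ∨ x = κ v → ∀ c, (F' c x = x ↔ F (Equiv.swap e b c) x = x)) ∧
        ∀ c, c ≠ e → c ≠ b → F' c = F c := by
    intro e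
    by_cases heb : e = b
    · exact ⟨id, fun h => absurd heb h⟩
    · obtain ⟨κ, h1, h2⟩ := chain F0 F hF e b heb
      exact ⟨κ, fun _ => ⟨h1, h2⟩⟩
  choose κ hκ using hch
  have hOv : ∀ e, e ≠ b → (F e v = v ↔ ¬ F b v = v) := by
    intro e heb
    exact ⟨fun h1 => absurd (htokv e h1) heb, fun h1 => absurd hbv h1⟩
  -- (2) the chains of `v` end in `X`
  have hend : ∀ e, e ∉ E → κ e v ∈ X := by
    intro e heE
    have heb : e ≠ b := by
      rintro rfl
      exact heE hbE
    by_contra hnX
    obtain ⟨hκ1, hκ2⟩ := hκ e heb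
    obtain ⟨F', hF', hu1, hu2, hu3⟩ := hκ2 v (hOv e heb)
    have htok : ∀ c, F' c v = v → c = e := by
      intro c hc
      have h1 := htokv _ ((hu2 v (Or.inl rfl) c).1 hc)
      rw [Equiv.swap_apply_eq_iff, Equiv.swap_apply_right] at h1
      exact h1
    have hne : ∀ w ∈ X, w ≠ κ e v := fun w hw h1 => hnX (h1 ▸ hw)
    have hconf := conf_sub X T hTs Fb F F' {v}
      (by
        intro x hx hxv c
        rw [mem_singleton] at hxv
        exact hu1 x hxv (hne x hx) c)
      (by
        intro u _ hu c hc
        rw [mem_singleton] at hu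
        subst hu
        have h1 := htok c hc
        subst h1
        exact ⟨fun h2 => heE (hE2 _ (Or.inr h2)),
          fun w hw _ hTw h2 => heE (hE2 _ (Or.inl ⟨w, hw, hTw, h2⟩))⟩)
      (by
        intro u _ w _ hu hw hTw
        rw [mem_singleton] at hu hw
        rw [hu, hw] at hTw
        exact absurd hTw (hTi v))
    obtain ⟨c, hc, hc2⟩ := hmin F' hF' hconf v hv hcf
    have h1 := htok c hc
    subst h1
    rcases hc2 with ⟨w, hw, hTw, h2⟩ | h2
    · have hwv : w ≠ v := by
        rintro rfl
        exact hTi _ hTw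
      exact heE (hE2 _ (Or.inl ⟨w, hw, hTw, (hu1 w hwv (hne w hw) c).1 h2⟩))
    · exact heE (hE2 _ (Or.inr h2))
  -- (3) all neighbours are excluded
  choose! BT hBT1 hBT2 using hT
  choose! Bd hBd1 hBd2 using hd
  obtain ⟨Bk, hBk1, hBk2⟩ := hk b
  obtain ⟨Bg, hBg1, hBg2⟩ := hg v hv
  set Tb : Finset V := X.filter fun x => F b x = x with hTb
  -- a token of the other vertices
  have htk : ∀ w, ∃ e, (∃ e', F e' w = w) → F e w = w := by
    intro w
    by_cases h1 : ∃ e', F e' w = w
    · obtain ⟨e', he'⟩ := h1
      exact ⟨e', fun _ => he'⟩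
    · exact ⟨b, fun h2 => absurd h2 h1⟩
  choose tk htk using htk
  -- the excluded vertices
  set N1 : Finset V := E.image fun a => F a v with hN1
  set N2 : Finset V := E.image fun e => κ e v with hN2
  set N3 : Finset V := (Tb.biUnion BT ∪ Bk).image fun u => κ (tk u) u with hN3
  set N4 : Finset V := Tb.biUnion fun u => (Bd u).image fun e => κ e u with hN4
  have hall : ∀ a, a ≠ b → F a v ∈ Bg ∪ N1 ∪ N2 ∪ N3 ∪ N4 := by
    intro a hab
    by_contra hcon
    rw [mem_union, mem_union, mem_union, mem_union] at hcon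
    push Not at hcon
    obtain ⟨⟨⟨⟨hg', h1'⟩, h2'⟩, h3'⟩, h4'⟩ := hcon
    set y := F a v with hy
    have hvy : v ≠ y := by
      intro h1
      exact hab (htokv a h1.symm)
    have hgar : ¬ (y ∈ X ∨ ∀ e, F e y ≠ y) := by
      intro h1
      exact hg' (hBg2 y hvy.symm ⟨a, rfl⟩ h1)
    push Not at hgar
    obtain ⟨hyX, hytok⟩ := hgar
    have haE : a ∉ E := by
      intro h1
      exact h1' (mem_image.2 ⟨a, h1, rfl⟩)
    have hav : F a v = y := rfl
    have hay : F a y = v := by rw [← hav, hF.1]
    by_cases hby : F b y = y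
    · -- recolouring at once
      have hF' := recol1_st F0 F hF a b hab v y hvy hav hbv hby
      have htok : ∀ c, recol1 F a b v y c v = v → c = a := by
        intro c hc
        by_contra hca
        by_cases hcb : c = b
        · subst hcb
          have : recol1 F a c v y c v = y := by simp [recol1, hca]
          rw [this] at hc
          exact hvy hc.symm
        · have : recol1 F a b v y c v = F c v := by simp [recol1, hca, hcb]
          rw [this] at hc
          exact hcb (htokv c hc)
      have hun : ∀ x, x ≠ v → x ≠ y → ∀ c, recol1 F a b v y c x = F c x := by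
        intro x h1 h2 c
        simp [recol1, h1, h2]
      have hneX : ∀ w ∈ X, w ≠ y := fun w hw h1 => hyX (h1 ▸ hw)
      have hconf := conf_sub X T hTs Fb F (recol1 F a b v y) {v}
        (by
          intro x hx hxv c
          rw [mem_singleton] at hxv
          rw [hun x hxv (hneX x hx) c])
        (by
          intro u _ hu c hc
          rw [mem_singleton] at hu
          subst hu
          have h1 := htok c hc
          subst h1
          exact ⟨fun h2 => haE (hE2 _ (Or.inr h2)),
            fun w hw _ hTw h2 => haE (hE2 _ (Or.inl ⟨w, hw, hTw, h2⟩))⟩)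
        (by
          intro u _ w _ hu hw hTw
          rw [mem_singleton] at hu hw
          rw [hu, hw] at hTw
          exact absurd hTw (hTi v))
      obtain ⟨c, hc, hc2⟩ := hmin _ hF' hconf v hv hcf
      have h1 := htok c hc
      subst h1
      rcases hc2 with ⟨w, hw, hTw, h2⟩ | h2
      · have hwv : w ≠ v := by
          rintro rfl
          exact hTi _ hTw
        rw [hun w hwv (hneX w hw)] at h2
        exact haE (hE2 _ (Or.inl ⟨w, hw, hTw, h2⟩))
      · exact haE (hE2 _ (Or.inr h2))
    · -- the butterfly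
      obtain ⟨e, heq⟩ : ∃ e, e = tk y := ⟨_, rfl⟩
      have hey : F e y = y := by rw [heq]; exact htk y hytok
      have heb : e ≠ b := by
        rintro rfl
        exact hby hey
      obtain ⟨hκ1, hκ2⟩ := hκ e heb
      have hyO : F e y = y ↔ ¬ F b y = y := ⟨fun _ => hby, fun _ => hey⟩
      obtain ⟨hκO, hκκ, hκne⟩ := hκ1 y hyO
      have hvκ : v ≠ κ e y := by
        intro h1
        have h2 : κ e v = y := by rw [h1, hκκ]
        by_cases heE : e ∈ E
        · exact h2' (mem_image.2 ⟨e, heE, h2⟩)
        · exact hyX (h2 ▸ hend e heE)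
      obtain ⟨F', hF', hu1, hu2, hu3⟩ := butterfly F0 F hF a b e heb v y hvy hbv hav hey hby (κ e)
        hκ1 hκ2 hvκ
      have htok : ∀ c, F' c v = v → c = a := by
        intro c hc
        rcases hu3 c hc with h1 | ⟨h1, h2⟩
        · exact h1
        · exact absurd (htokv c h2) h1
      have hae : a ≠ e := by
        rintro rfl
        exact hvy (hay.symm.trans hey)
      have hneX : ∀ w ∈ X, w ≠ y := fun w hw h1 => hyX (h1 ▸ hw)
      -- the token of `u`
      have htoku : κ e y ∈ X → ∀ c, F' c (κ e y) = κ e y →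
          (c = b ∧ F e (κ e y) = κ e y) ∨ (c = e ∧ F b (κ e y) = κ e y) := by
        intro huX c hc
        have h1 := (hu2 c).1 hc
        by_cases h2 : F b (κ e y) = κ e y
        · have h3 := (hX _ huX).unique h1 h2
          rw [Equiv.swap_apply_eq_iff, Equiv.swap_apply_right] at h3
          exact Or.inr ⟨h3, h2⟩
        · have h2' := hκO.2 h2
          have h3 := (hX _ huX).unique h1 h2'
          rw [Equiv.swap_apply_eq_iff, Equiv.swap_apply_left] at h3
          exact Or.inl ⟨h3, h2'⟩
      -- `u` is not blocked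
      have hnbl : κ e y ∈ X → ∀ c, F' c (κ e y) = κ e y → ¬ Fb (κ e y) c ∧
          ∀ w ∈ X, w ≠ v → T (κ e y) w → F c w ≠ w := by
        intro huX c hc
        rcases htoku huX c hc with ⟨rfl, h2⟩ | ⟨rfl, h2⟩
        · -- the token `e` becomes `b`
          have htke : tk (κ e y) = e :=
            (hX _ huX).unique (htk _ ⟨e, h2⟩) h2
          have hcon3 : ∀ u, u = κ e y → u ∉ Tb.biUnion BT ∪ Bk := by
            intro u hu h3
            apply h3'
            rw [hN3, mem_image]
            refine ⟨u, h3, ?_⟩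
            rw [hu, htke, hκκ]
          constructor
          · intro h3
            exact hcon3 _ rfl (mem_union_right _ (hBk2 _ huX h3))
          · intro w hw _ hTw h3
            apply hcon3 _ rfl
            apply mem_union_left
            rw [mem_biUnion]
            exact ⟨w, mem_filter.2 ⟨hw, h3⟩, hBT2 w hw _ huX (hTs _ _ hTw)⟩
        · -- the token `b` becomes `e`
          have hcon4 : c ∉ Bd (κ c y) := by
            intro h3
            apply h4'
            rw [hN4, mem_biUnion]
            refine ⟨κ c y, mem_filter.2 ⟨huX, h2⟩, ?_⟩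
            rw [mem_image]
            exact ⟨c, h3, hκκ⟩
          constructor
          · intro h3
            exact hcon4 (hBd2 _ huX _ (Or.inr h3))
          · intro w hw _ hTw h3
            exact hcon4 (hBd2 _ huX _ (Or.inl ⟨w, hw, hTw, h3⟩))
      have hconf := conf_sub X T hTs Fb F F' {v, κ e y}
        (by
          intro x hx hxv c
          rw [mem_insert, mem_singleton, not_or] at hxv
          exact hu1 x hxv.1 (hneX x hx) hxv.2 c)
        (by
          intro u huX hu c hc
          rw [mem_insert, mem_singleton] at hu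
          rcases hu with rfl | rfl
          · have h1 := htok c hc
            subst h1
            exact ⟨fun h2 => haE (hE2 _ (Or.inr h2)),
              fun w hw _ hTw h2 => haE (hE2 _ (Or.inl ⟨w, hw, hTw, h2⟩))⟩
          · refine ⟨(hnbl huX c hc).1, fun w hw hwC hTw => (hnbl huX c hc).2 w hw ?_ hTw⟩
            rw [mem_insert, not_or] at hwC
            exact hwC.1)
        (by
          intro u huX w hwX hu hw hTw c hcu hcw
          rw [mem_insert, mem_singleton] at hu hw
          exfalso
          rcases hu with rfl | rfl <;> rcases hw with rfl | rfl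
          · exact hTi _ hTw
          · have h1 := htok c hcu
            rcases htoku hwX c hcw with ⟨h2, _⟩ | ⟨h2, _⟩
            · exact hab (h1.symm.trans h2)
            · exact hae (h1.symm.trans h2)
          · have h1 := htok c hcw
            rcases htoku huX c hcu with ⟨h2, _⟩ | ⟨h2, _⟩
            · exact hab (h1.symm.trans h2)
            · exact hae (h1.symm.trans h2)
          · exact hTi _ hTw)
      obtain ⟨c, hc, hc2⟩ := hmin _ hF' hconf v hv hcf
      have h1 := htok c hc
      subst h1
      rcases hc2 with ⟨w, hw, hTw, h2⟩ | h2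
      · have hwv : w ≠ v := by
          rintro rfl
          exact hTi _ hTw
        by_cases hwu : w = κ e y
        · subst hwu
          rcases htoku hw c h2 with ⟨h3, _⟩ | ⟨h3, _⟩
          · exact hab h3
          · exact hae h3
        · exact haE (hE2 _ (Or.inl ⟨w, hw, hTw, (hu1 w hwv (hneX w hw) hwu c).1 h2⟩))
      · exact haE (hE2 _ (Or.inr h2))
  -- counting
  have hinj : (univ.erase b).card ≤ (Bg ∪ N1 ∪ N2 ∪ N3 ∪ N4).card := by
    apply card_le_card_of_injOn fun a => F a v
    · intro a ha
      rw [mem_coe, mem_erase] at ha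
      exact hall a ha.1
    · intro a ha a' ha' haa
      rw [mem_coe, mem_erase] at ha ha'
      by_contra hne
      exact ha.1 (htokv a (hF.2.1 a a' v hne haa))
  rw [card_erase_of_mem (mem_univ _), card_univ] at hinj
  have hc1 : N1.card ≤ h := card_image_le.trans hE1
  have hc2 : N2.card ≤ h := card_image_le.trans hE1
  have hTbc : Tb.card ≤ K := hK b
  have hc3 : N3.card ≤ K * h + k := by
    refine card_image_le.trans ((card_union_le _ _).trans ?_)
    have h1 : (Tb.biUnion BT).card ≤ Tb.card * h := by
      apply card_biUnion_le_card_mul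
      intro u hu
      rw [hTb, mem_filter] at hu
      exact hBT1 u hu.1
    have h2 : Tb.card * h ≤ K * h := Nat.mul_le_mul_right _ hTbc
    omega
  have hc4 : N4.card ≤ K * h := by
    have h1 : N4.card ≤ Tb.card * h := by
      apply card_biUnion_le_card_mul
      intro u hu
      rw [hTb, mem_filter] at hu
      exact card_image_le.trans (hBd1 u hu.1)
    exact h1.trans (Nat.mul_le_mul_right _ hTbc)
  have hu1 := card_union_le (Bg ∪ N1 ∪ N2 ∪ N3) N4
  have hu2 := card_union_le (Bg ∪ N1 ∪ N2) N3
  have hu3 := card_union_le (Bg ∪ N1) N2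
  have hu4 := card_union_le Bg N1
  omega

open Classical in
/-- THEOREM M' (matching form): a proper edge colouring `F0` with more than `D` colours, a set `X` of
at most `C D` vertices each of which misses exactly one colour, a graph `T` and forbidden colours
`Fb` of small degrees: the edges can be recoloured with the same colours such that the missing
colours of the vertices of `X` are different at the ends of the `T`-edges and not forbidden. -/
theorem tokens (F0 : β → V → V) (hF0 : St F0 F0) (X : Finset V) (hX : ∀ x ∈ X, ∃! b, F0 b x = x)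
    (T : V → V → Prop) (hTs : ∀ v w, T v w → T w v) (hTi : ∀ v, ¬ T v v) (Fb : V → β → Prop)
    (C D g h k : ℕ) (hXc : X.card ≤ C * D) (hβ : D < Fintype.card β)
    (hT : ∀ x ∈ X, ∃ (B : Finset V) (B' : Finset β), B.card + B'.card ≤ h ∧
      (∀ w ∈ X, T x w → w ∈ B) ∧ ∀ b, Fb x b → b ∈ B')
    (hk : ∀ b, ∃ B : Finset V, B.card ≤ k ∧ ∀ x ∈ X, Fb x b → x ∈ B)
    (hg : ∀ x ∈ X, ∃ B : Finset V, B.card ≤ g ∧ ∀ w, w ≠ x → (∃ b, F0 b x = w) →
      (w ∈ X ∨ ∀ e, F0 e w ≠ w) → w ∈ B)
    (h8 : 8 * h < D) (hsmall : g + k + (8 * C + 6) * h < D) :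
    ∃ F, St F0 F ∧ ∀ x ∈ X, ¬ Cf X T Fb F x := by
  -- the potential
  set Φ : (β → V → V) → ℕ := fun F => (X.filter fun x => Cf X T Fb F x).card * (X.card ^ 2 + 1) +
    ∑ b, (sb X F b) ^ 2 with hΦ
  obtain ⟨F, hF, hmin⟩ := exists_min_image (univ.filter fun F : β → V → V => St F0 F) Φ
    ⟨F0, mem_filter.2 ⟨mem_univ _, hF0⟩⟩
  rw [mem_filter] at hF
  have hF := hF.2
  -- every vertex of `X` has exactly one token in every state
  have hX' : ∀ F', St F0 F' → ∀ x ∈ X, ∃! b, F' b x = x := by
    intro F' hF' x hx
    have h1 := st_card F0 F' hF0 hF' x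
    have h2 : (univ.filter fun b => F0 b x = x).card = 1 := by
      obtain ⟨b, hb1, hb2⟩ := hX x hx
      rw [card_eq_one]
      refine ⟨b, ?_⟩
      ext c
      rw [mem_filter, mem_singleton]
      constructor
      · rintro ⟨_, h3⟩
        exact hb2 c h3
      · rintro rfl
        exact ⟨mem_univ _, hb1⟩
    rw [h2, card_eq_one] at h1
    obtain ⟨b, hb⟩ := h1
    have hb1 : b ∈ univ.filter fun b => F' b x = x := by rw [hb]; exact mem_singleton_self _
    refine ⟨b, (mem_filter.1 hb1).2, ?_⟩
    intro c hc
    have hc1 : c ∈ univ.filter fun b => F' b x = x := mem_filter.2 ⟨mem_univ _, hc⟩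
    rw [hb, mem_singleton] at hc1
    exact hc1
  have hsq : ∀ F', St F0 F' → ∑ b, (sb X F' b) ^ 2 ≤ X.card ^ 2 := by
    intro F' hF'
    have hsum : ∑ b, sb X F' b ≤ X.card := by
      unfold sb
      rw [← card_biUnion]
      · apply card_le_card
        intro x hx
        rw [mem_biUnion] at hx
        obtain ⟨_, _, hx⟩ := hx
        exact (mem_filter.1 hx).1
      · intro a _ a' _ haa
        rw [Function.onFun, disjoint_left]
        intro x hx hx'
        rw [mem_filter] at hx hx'
        exact haa ((hX' F' hF' x hx.1).unique hx.2 hx'.2)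
    calc ∑ b, (sb X F' b) ^ 2 ≤ ∑ b, sb X F' b * X.card := by
          apply sum_le_sum
          intro b _
          rw [sq]
          exact Nat.mul_le_mul_left _ (card_filter_le _ _)
      _ = (∑ b, sb X F' b) * X.card := by rw [sum_mul]
      _ ≤ X.card * X.card := Nat.mul_le_mul_right _ hsum
      _ = X.card ^ 2 := by ring
  have hmin' : ∀ F', St F0 F' → (∀ x ∈ X, Cf X T Fb F' x → Cf X T Fb F x) →
      (∀ x ∈ X, Cf X T Fb F x → Cf X T Fb F' x) ∧ ∑ b, (sb X F b) ^ 2 ≤ ∑ b, (sb X F' b) ^ 2 := by
    intro F' hF' hsub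
    have h1 := hmin F' (mem_filter.2 ⟨mem_univ _, hF'⟩)
    have h2 : (X.filter fun x => Cf X T Fb F' x) ⊆ X.filter fun x => Cf X T Fb F x := by
      intro x hx
      rw [mem_filter] at hx ⊢
      exact ⟨hx.1, hsub x hx.1 hx.2⟩
    have h3 := card_le_card h2
    have h4 : (X.filter fun x => Cf X T Fb F x).card ≤ (X.filter fun x => Cf X T Fb F' x).card := by
      by_contra hcon
      push Not at hcon
      have h5 := hsq F' hF'
      have h6 : ((X.filter fun x => Cf X T Fb F' x).card + 1) * (X.card ^ 2 + 1) ≤
          (X.filter fun x => Cf X T Fb F x).card * (X.card ^ 2 + 1) :=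
        Nat.mul_le_mul_right _ hcon
      simp only [hΦ] at h1
      have h7 : ((X.filter fun x => Cf X T Fb F' x).card + 1) * (X.card ^ 2 + 1) =
        (X.filter fun x => Cf X T Fb F' x).card * (X.card ^ 2 + 1) + (X.card ^ 2 + 1) := by ring
      omega
    have h5 : (X.filter fun x => Cf X T Fb F x).card = (X.filter fun x => Cf X T Fb F' x).card :=
      le_antisymm h4 h3
    constructor
    · intro x hx hcf
      have h6 := eq_of_subset_of_card_le h2 h4
      have h7 : x ∈ X.filter fun x => Cf X T Fb F x := mem_filter.2 ⟨hx, hcf⟩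
      rw [← h6, mem_filter] at h7
      exact h7.2
    · simp only [hΦ] at h1
      rw [h5] at h1
      omega
  have hXF := hX' F hF
  have hd : ∀ x ∈ X, ∃ B : Finset β, B.card ≤ h ∧
      ∀ a, ((∃ w ∈ X, T x w ∧ F a w = w) ∨ Fb x a) → a ∈ B := by
    intro x hx
    have hch : ∀ w, ∃ b, w ∈ X → F b w = w := by
      intro w
      by_cases hw : w ∈ X
      · obtain ⟨b, hb, _⟩ := hXF w hw
        exact ⟨b, fun _ => hb⟩
      · obtain ⟨b, _, _⟩ := hXF x hx
        exact ⟨b, fun h => absurd h hw⟩
    choose tk htk using hch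
    obtain ⟨B, B', hB, hB1, hB2⟩ := hT x hx
    refine ⟨(B.image tk ∩ univ.filter fun a => ∃ w ∈ X, F a w = w ∧ w ∈ B) ∪ B', ?_, ?_⟩
    · refine (card_union_le _ _).trans (le_trans ?_ hB)
      exact Nat.add_le_add_right ((card_le_card inter_subset_left).trans card_image_le) _
    · rintro a (⟨w, hw, hTw, haw⟩ | h1)
      · apply mem_union_left
        rw [mem_inter, mem_image, mem_filter]
        exact ⟨⟨w, hB1 w hw hTw, (hXF w hw).unique (htk w hw) haw⟩, mem_univ _, w, hw, haw,
          hB1 w hw hTw⟩
      · exact mem_union_right _ (hB2 a h1)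
  have hK := claim1 F0 F hF X hXF T hTs Fb C D h hXc hβ hd h8 hmin'
  refine ⟨F, hF, ?_⟩
  refine claim2 F0 F hF X hXF T hTs hTi Fb D g h k (4 * C + 2) hβ hd ?_ ?_ ?_ hK ?_
    (fun F' hF' hs => (hmin' F' hF' hs).1)
  · intro x hx
    obtain ⟨B, B', hB, hB1, _⟩ := hT x hx
    exact ⟨B, (Nat.le_add_right _ _).trans hB, hB1⟩
  · exact hk
  · intro x hx
    obtain ⟨B, hB, hB1⟩ := hg x hx
    refine ⟨B, hB, ?_⟩
    intro w hw1 hw2 hw3
    apply hB1 w hw1
    · exact (hF.2.2 x w (Ne.symm hw1)).1 hw2
    · rcases hw3 with h1 | h1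
      · exact Or.inl h1
      · right
        intro e he
        have h2 := st_card F0 F hF0 hF w
        have h3 : (univ.filter fun b => F b w = w) = ∅ := by
          rw [filter_eq_empty_iff]
          intro b _
          exact h1 b
        rw [h3, card_empty] at h2
        have h4 : e ∈ univ.filter fun b => F0 b w = w := mem_filter.2 ⟨mem_univ _, he⟩
        have h5 := card_pos.2 ⟨e, h4⟩
        omega
  · have : (8 * C + 6) * h = 2 * h + 2 * ((4 * C + 2) * h) := by ring
    omega

end core

end Pool.Agent.Work.MP_db9399_bp_helper22
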