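import Mathlib
import Pool.Agent.Work.MP_db9399_bp_helper22.Tokens

/-!
# Theorem M' for graphs (helper22)
-/

set_option autoImplicit false

namespace Pool.Agent.Work.MP_db9399_bp_helper22

open Finset

open Classical in
/-- THEOREM M' for graphs: `G` has a proper edge colouring with `D + 1` colours, `X` is a set of at
most `C D` vertices of degree at most `D`; `T` is a graph on `X` and `Fb x` are forbidden colours,
both of small degrees; every vertex of `X` has few neighbours in `X` and few neighbours of degree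
`D + 1`. Then `G` has a proper edge colouring `col` with `D + 1` colours and every `x` in `X` has a
colour `tok x` missing at `x`, not forbidden, such that the tokens are proper on `T`. -/
theorem tokens_graph {V : Type*} [Fintype V] [DecidableEq V] (G T : SimpleGraph V)
    (C D g h k : ℕ) (X : Finset V) (t : V → V → ℕ) (hts : ∀ v w, t v w = t w v)
    (htD : ∀ v w, G.Adj v w → t v w < D + 1)
    (htp : ∀ v w w', G.Adj v w → G.Adj v w' → t v w = t v w' → w = w')
    (Fb : V → Finset ℕ) (hXc : X.card ≤ C * D)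
    (hXd : ∀ x ∈ X, (univ.filter fun w => G.Adj x w).card ≤ D)
    (hT : ∀ x ∈ X, (X.filter fun w => T.Adj x w).card + (Fb x).card ≤ h)
    (hk : ∀ b, (X.filter fun x => b ∈ Fb x).card ≤ k)
    (hg : ∀ x ∈ X, (univ.filter fun w => G.Adj x w ∧
      (w ∈ X ∨ D < (univ.filter fun u => G.Adj w u).card)).card ≤ g)
    (h8 : 8 * h < D) (hsmall : g + k + (8 * C + 6) * h < D) :
    ∃ (col : V → V → ℕ) (tok : V → ℕ), (∀ v w, col v w = col w v) ∧
      (∀ v w, G.Adj v w → col v w < D + 1) ∧
      (∀ v w w', G.Adj v w → G.Adj v w' → col v w = col v w' → w = w') ∧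
      ∀ x ∈ X, tok x < D + 1 ∧ (∀ w, G.Adj x w → col x w ≠ tok x) ∧ tok x ∉ Fb x ∧
        ∀ w ∈ X, T.Adj x w → tok w ≠ tok x := by
  -- a missing colour of every vertex of `X`
  have hm0 : ∀ x, ∃ b : Fin (D + 1), x ∈ X → ∀ w, G.Adj x w → t x w ≠ b := by
    intro x
    by_cases hx : x ∈ X
    · by_contra hcon
      push Not at hcon
      have h1 : (range (D + 1)) ⊆ (univ.filter fun w => G.Adj x w).image (t x) := by
        intro n hn
        rw [mem_range] at hn
        obtain ⟨_, w, hw1, hw2⟩ := hcon ⟨n, hn⟩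
        rw [mem_image]
        exact ⟨w, mem_filter.2 ⟨mem_univ _, hw1⟩, hw2⟩
      have h2 := (card_le_card h1).trans card_image_le
      rw [card_range] at h2
      have := hXd x hx
      omega
    · exact ⟨0, fun h => absurd h hx⟩
  choose m0 hm0 using hm0
  -- the colouring as a family of matchings, with pendant edges
  set F0 : Fin (D + 1) → V ⊕ (V × Fin (D + 1)) → V ⊕ (V × Fin (D + 1)) := fun b p =>
    Sum.elim
      (fun v => if h : ∃ w, G.Adj v w ∧ t v w = b then Sum.inl h.choose
        else if v ∈ X ∧ b ≠ m0 v then Sum.inr (v, b) else Sum.inl v)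
      (fun q => if q.2 = b ∧ q.1 ∈ X ∧ b ≠ m0 q.1 ∧ ¬ ∃ w, G.Adj q.1 w ∧ t q.1 w = b
        then Sum.inl q.1 else Sum.inr q) p with hF0def
  have f1 : ∀ v w (b : Fin (D + 1)), G.Adj v w → t v w = b → F0 b (Sum.inl v) = Sum.inl w := by
    intro v w b hvw hb
    have h1 : ∃ w, G.Adj v w ∧ t v w = b := ⟨w, hvw, hb⟩
    simp only [hF0def, Sum.elim_inl]
    rw [dif_pos h1]
    have h2 := h1.choose_spec
    rw [htp v _ w h2.1 hvw (h2.2.trans hb.symm)]
  have f2 : ∀ v (b : Fin (D + 1)), (¬ ∃ w, G.Adj v w ∧ t v w = b) → v ∈ X → b ≠ m0 v →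
      F0 b (Sum.inl v) = Sum.inr (v, b) := by
    intro v b h1 h2 h3
    simp only [hF0def, Sum.elim_inl]
    rw [dif_neg h1, if_pos ⟨h2, h3⟩]
  have f3 : ∀ v (b : Fin (D + 1)), (¬ ∃ w, G.Adj v w ∧ t v w = b) → ¬ (v ∈ X ∧ b ≠ m0 v) →
      F0 b (Sum.inl v) = Sum.inl v := by
    intro v b h1 h2
    simp only [hF0def, Sum.elim_inl]
    rw [dif_neg h1, if_neg h2]
  have f4 : ∀ v (b : Fin (D + 1)), (¬ ∃ w, G.Adj v w ∧ t v w = b) → v ∈ X → b ≠ m0 v →
      F0 b (Sum.inr (v, b)) = Sum.inl v := by
    intro v b h1 h2 h3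
    simp only [hF0def, Sum.elim_inr]
    rw [if_pos ⟨trivial, h2, h3, h1⟩]
  have f5 : ∀ v (b c : Fin (D + 1)), ¬ (c = b ∧ v ∈ X ∧ b ≠ m0 v ∧ ¬ ∃ w, G.Adj v w ∧ t v w = b) →
      F0 b (Sum.inr (v, c)) = Sum.inr (v, c) := by
    intro v b c h1
    simp only [hF0def, Sum.elim_inr]
    rw [if_neg h1]
  have hF0 : St F0 F0 := by
    refine ⟨?_, ?_, fun _ _ _ => Iff.rfl⟩
    · rintro b (v | ⟨v, c⟩)
      · by_cases h1 : ∃ w, G.Adj v w ∧ t v w = b
        · obtain ⟨w, hw1, hw2⟩ := h1
          rw [f1 v w b hw1 hw2, f1 w v b hw1.symm ((hts w v).trans hw2)]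
        · by_cases h2 : v ∈ X ∧ b ≠ m0 v
          · rw [f2 v b h1 h2.1 h2.2, f4 v b h1 h2.1 h2.2]
          · rw [f3 v b h1 h2, f3 v b h1 h2]
      · by_cases h1 : c = b ∧ v ∈ X ∧ b ≠ m0 v ∧ ¬ ∃ w, G.Adj v w ∧ t v w = b
        · obtain ⟨rfl, h2, h3, h4⟩ := h1
          rw [f4 v c h4 h2 h3, f2 v c h4 h2 h3]
        · rw [f5 v b c h1, f5 v b c h1]
    · rintro b b' (v | ⟨v, c⟩) hbb heq
      · by_cases h1 : ∃ w, G.Adj v w ∧ t v w = b
        · obtain ⟨w, hw1, hw2⟩ := h1
          rw [f1 v w b hw1 hw2] at heq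
          by_cases h1' : ∃ w, G.Adj v w ∧ t v w = b'
          · obtain ⟨w', hw1', hw2'⟩ := h1'
            rw [f1 v w' b' hw1' hw2'] at heq
            have h3 := Sum.inl_injective heq
            subst h3
            exact absurd (Fin.ext (hw2.symm.trans hw2')) hbb
          · by_cases h2' : v ∈ X ∧ b' ≠ m0 v
            · rw [f2 v b' h1' h2'.1 h2'.2] at heq
              exact absurd heq (by simp)
            · rw [f3 v b' h1' h2'] at heq
              have h3 := Sum.inl_injective heq
              exact absurd h3.symm hw1.ne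
        · by_cases h2 : v ∈ X ∧ b ≠ m0 v
          · rw [f2 v b h1 h2.1 h2.2] at heq
            by_cases h1' : ∃ w, G.Adj v w ∧ t v w = b'
            · obtain ⟨w', hw1', hw2'⟩ := h1'
              rw [f1 v w' b' hw1' hw2'] at heq
              exact absurd heq (by simp)
            · by_cases h2' : v ∈ X ∧ b' ≠ m0 v
              · rw [f2 v b' h1' h2'.1 h2'.2] at heq
                have h3 := Sum.inr_injective heq
                exact absurd (Prod.ext_iff.1 h3).2 hbb
              · rw [f3 v b' h1' h2'] at heq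
                exact absurd heq (by simp)
          · exact f3 v b h1 h2
      · by_cases h1 : c = b ∧ v ∈ X ∧ b ≠ m0 v ∧ ¬ ∃ w, G.Adj v w ∧ t v w = b
        · by_cases h1' : c = b' ∧ v ∈ X ∧ b' ≠ m0 v ∧ ¬ ∃ w, G.Adj v w ∧ t v w = b'
          · exact absurd (h1.1.symm.trans h1'.1) hbb
          · rw [f5 v b' c h1'] at heq
            exact heq
        · exact f5 v b c h1
  -- the token of the vertices of `X`
  have hX : ∀ p ∈ X.map Function.Embedding.inl, ∃! b, F0 b p = p := by
    intro p hp
    rw [mem_map] at hp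
    obtain ⟨x, hx, rfl⟩ := hp
    change ∃! b, F0 b (Sum.inl x) = Sum.inl x
    refine ⟨m0 x, ?_, ?_⟩
    · apply f3
      · rintro ⟨w, hw1, hw2⟩
        exact hm0 x hx w hw1 hw2
      · exact fun h => h.2 rfl
    · intro b hb
      by_contra hne
      by_cases h1 : ∃ w, G.Adj x w ∧ t x w = b
      · obtain ⟨w, hw1, hw2⟩ := h1
        rw [f1 x w b hw1 hw2] at hb
        exact hw1.ne (Sum.inl_injective hb).symm
      · rw [f2 x b h1 hx hne] at hb
        exact absurd hb (by simp)
  obtain ⟨F, hF, hcf⟩ := tokens F0 hF0 (X.map Function.Embedding.inl) hX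
    (fun p q => ∃ v w, p = Sum.inl v ∧ q = Sum.inl w ∧ T.Adj v w)
    (by
      rintro _ _ ⟨v, w, rfl, rfl, h1⟩
      exact ⟨w, v, rfl, rfl, h1.symm⟩)
    (by
      rintro p ⟨v, w, rfl, h1, h2⟩
      exact h2.ne (Sum.inl_injective h1))
    (fun p b => ∃ v, p = Sum.inl v ∧ (b : ℕ) ∈ Fb v) C D g h k
    (by rw [card_map]; exact hXc)
    (by rw [Fintype.card_fin]; exact Nat.lt_succ_self D)
    (by
      intro p hp
      rw [mem_map] at hp
      obtain ⟨x, hx, rfl⟩ := hp
      refine ⟨(X.filter fun w => T.Adj x w).map Function.Embedding.inl,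
        univ.filter fun b : Fin (D + 1) => (b : ℕ) ∈ Fb x, ?_, ?_, ?_⟩
      · refine le_trans (Nat.add_le_add ?_ ?_) (hT x hx)
        · rw [card_map]
        · apply card_le_card_of_injOn (fun b : Fin (D + 1) => (b : ℕ))
          · intro b hb
            rw [mem_coe, mem_filter] at hb
            exact hb.2
          · intro b _ b' _ hbb
            exact Fin.ext hbb
      · rintro q hq ⟨v, w, h2, h3, h4⟩
        rw [mem_map] at hq
        obtain ⟨u, hu, rfl⟩ := hq
        have h5 : x = v := Sum.inl_injective h2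
        have h6 : u = w := Sum.inl_injective h3
        subst h5; subst h6
        exact mem_map_of_mem _ (mem_filter.2 ⟨hu, h4⟩)
      · rintro b ⟨v, h2, h3⟩
        have h5 : x = v := Sum.inl_injective h2
        subst h5
        exact mem_filter.2 ⟨mem_univ _, h3⟩)
    (by
      intro b
      refine ⟨(X.filter fun x => (b : ℕ) ∈ Fb x).map Function.Embedding.inl, ?_, ?_⟩
      · rw [card_map]
        exact hk b
      · rintro q hq ⟨v, h2, h3⟩
        rw [mem_map] at hq
        obtain ⟨u, hu, rfl⟩ := hq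
        have h5 : u = v := Sum.inl_injective h2
        subst h5
        exact mem_map_of_mem _ (mem_filter.2 ⟨hu, h3⟩))
    (by
      intro p hp
      rw [mem_map] at hp
      obtain ⟨x, hx, rfl⟩ := hp
      refine ⟨(univ.filter fun w => G.Adj x w ∧
            (w ∈ X ∨ D < (univ.filter fun u => G.Adj w u).card)).map Function.Embedding.inl, ?_, ?_⟩
      · rw [card_map]
        exact hg x hx
      · rintro q h2 ⟨b, hb⟩ h3
        change F0 b (Sum.inl x) = q at hb
        change q ≠ Sum.inl x at h2
        by_cases h4 : ∃ w, G.Adj x w ∧ t x w = b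
        · obtain ⟨w, hw1, hw2⟩ := h4
          rw [f1 x w b hw1 hw2] at hb
          subst hb
          rw [mem_map]
          refine ⟨w, ?_, rfl⟩
          rw [mem_filter]
          refine ⟨mem_univ _, hw1, ?_⟩
          rcases h3 with h3 | h3
          · left
            rw [mem_map] at h3
            obtain ⟨u, hu, hu2⟩ := h3
            have h5 : u = w := Sum.inl_injective hu2
            rwa [← h5]
          · by_cases hwX : w ∈ X
            · exact Or.inl hwX
            · right
              by_contra hcon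
              push Not at hcon
              have h6 : (range (D + 1)) ⊆ (univ.filter fun u => G.Adj w u).image (t w) := by
                intro n hn
                rw [mem_range] at hn
                by_contra hcon2
                apply h3 ⟨n, hn⟩
                apply f3
                · rintro ⟨u, hu1, hu2⟩
                  apply hcon2
                  rw [mem_image]
                  exact ⟨u, mem_filter.2 ⟨mem_univ _, hu1⟩, hu2⟩
                · exact fun h => hwX h.1
              have h7 := (card_le_card h6).trans card_image_le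
              rw [card_range] at h7
              omega
        · exfalso
          by_cases h5 : x ∈ X ∧ b ≠ m0 x
          · rw [f2 x b h4 h5.1 h5.2] at hb
            subst hb
            rcases h3 with h3 | h3
            · rw [mem_map] at h3
              obtain ⟨u, _, hu2⟩ := h3
              exact absurd hu2 (by simp)
            · have hD : 0 < D := by omega
              obtain ⟨e, he⟩ : ∃ e : Fin (D + 1), e ≠ b := by
                by_cases hb0 : (b : ℕ) = 0
                · refine ⟨⟨1, by omega⟩, fun h6 => ?_⟩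
                  rw [← h6] at hb0
                  exact absurd hb0 (by simp)
                · refine ⟨⟨0, by omega⟩, fun h6 => ?_⟩
                  exact hb0 (by rw [← h6])
              apply h3 e
              apply f5
              exact fun h6 => he h6.1.symm
          · rw [f3 x b h4 h5] at hb
            exact h2 hb.symm)
    h8 hsmall
  obtain ⟨hinv, hdis, hun⟩ := hF
  -- the colouring
  have hex : ∀ v w, G.Adj v w → ∃ b, F b (Sum.inl v) = Sum.inl w := by
    intro v w hvw
    rw [hun (Sum.inl v) (Sum.inl w) (fun h => hvw.ne (Sum.inl_injective h))]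
    have := htD v w hvw
    exact ⟨⟨t v w, this⟩, f1 v w _ hvw rfl⟩
  set cs : V → V → Set ℕ := fun v w => {n | ∃ b : Fin (D + 1), (b : ℕ) = n ∧
    F b (Sum.inl v) = Sum.inl w} with hcs
  have hcol : ∀ v w, G.Adj v w → ∃ b : Fin (D + 1), (b : ℕ) = sInf (cs v w) ∧
      F b (Sum.inl v) = Sum.inl w := by
    intro v w hvw
    obtain ⟨b, hb⟩ := hex v w hvw
    exact Nat.sInf_mem (s := cs v w) ⟨(b : ℕ), b, rfl, hb⟩
  -- the tokens
  have htok : ∀ x, ∃ b : Fin (D + 1), x ∈ X → F b (Sum.inl x) = Sum.inl x := by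
    intro x
    by_cases hx : x ∈ X
    · have h1 := st_card F0 F hF0 ⟨hinv, hdis, hun⟩ (Sum.inl x)
      obtain ⟨b, hb, _⟩ := hX (Sum.inl x) (mem_map_of_mem _ hx)
      have h2 : b ∈ univ.filter fun b => F0 b (Sum.inl x) = Sum.inl x :=
        mem_filter.2 ⟨mem_univ _, hb⟩
      have h3 := card_pos.2 ⟨b, h2⟩
      rw [← h1, card_pos] at h3
      obtain ⟨c, hc⟩ := h3
      exact ⟨c, fun _ => (mem_filter.1 hc).2⟩
    · exact ⟨0, fun h => absurd h hx⟩
  choose tk htk using htok
  refine ⟨fun v w => sInf (cs v w), fun v => (tk v : ℕ), ?_, ?_, ?_, ?_⟩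
  · intro v w
    have : cs v w = cs w v := by
      ext n
      simp only [hcs, Set.mem_ofPred_eq]
      constructor
      · rintro ⟨b, h1, h2⟩
        exact ⟨b, h1, by rw [← h2, hinv]⟩
      · rintro ⟨b, h1, h2⟩
        exact ⟨b, h1, by rw [← h2, hinv]⟩
    simp only [this]
  · intro v w hvw
    obtain ⟨b, hb, _⟩ := hcol v w hvw
    dsimp only
    rw [← hb]
    exact b.2
  · intro v w w' hvw hvw' heq
    obtain ⟨b, hb, hb2⟩ := hcol v w hvw
    obtain ⟨b', hb', hb2'⟩ := hcol v w' hvw'
    dsimp only at heq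
    rw [← hb, ← hb'] at heq
    have h1 := Fin.ext heq
    subst h1
    exact Sum.inl_injective (hb2.symm.trans hb2')
  · intro x hx
    have hnc := hcf (Sum.inl x) (mem_map_of_mem _ hx)
    refine ⟨(tk x).2, ?_, ?_, ?_⟩
    · intro w hw heq
      obtain ⟨b, hb, hb2⟩ := hcol x w hw
      dsimp only at heq
      rw [← hb] at heq
      have h1 := Fin.ext heq
      rw [h1, htk x hx] at hb2
      exact hw.ne (Sum.inl_injective hb2)
    · intro h1
      exact hnc ⟨tk x, htk x hx, Or.inr ⟨x, rfl, h1⟩⟩
    · intro w hw hTw heq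
      have h1 := Fin.ext heq
      apply hnc
      refine ⟨tk x, htk x hx, Or.inl ⟨Sum.inl w, mem_map_of_mem _ hw, ⟨x, w, rfl, rfl, hTw⟩, ?_⟩⟩
      rw [← h1]
      exact htk w hw

end Pool.Agent.Work.MP_db9399_bp_helper22
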