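import Mathlib
import Pool.Agent.Work.MP_db9399_bp_helper22.TokensGraph
import Pool.Agent.Work.MP_db9399_bp_helper22.Split2
import Pool.Agent.Work.MP_db9399_bp_helper22.Fournier
import Pool.Agent.Work.MP_db9399_co.Defs

/-!
# The total colouring conjecture for dense almost bipartite graphs, all maximum degrees (helper22)
-/

set_option autoImplicit false

namespace Pool.Agent.Work.MP_db9399_bp_helper22

open Finset Classical
open Pool.Agent.Work.MP_db9399_all (nb)

universe u

/-- one layer: a graph `R` with degrees at most `D`, plus one on an independent set `Z`; the tokens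
of the vertices of `X \ Z` are proper on `G` -/
theorem layer {V : Type u} [Fintype V] (G R : SimpleGraph V) (hRG : ∀ u w, R.Adj u w → G.Adj u w)
    (Z X : Finset V) (hZ : ∀ u ∈ Z, ∀ w ∈ Z, ¬ G.Adj u w) (C D t : ℕ)
    (hdeg : ∀ v, (nb R v).card ≤ D + if v ∈ Z then 1 else 0)
    (hX : ∀ v ∈ X, ((nb G v).filter fun w => w ∈ X).card ≤ t)
    (hn : Fintype.card V ≤ C * D) (hsm : Z.card + (8 * C + 7) * t < D) (h8 : 8 * t < D) :
    ∃ (col : V → V → ℕ) (tok : V → ℕ), (∀ v w, col v w = col w v) ∧
      (∀ v w, R.Adj v w → col v w < D + 1) ∧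
      (∀ v w w', R.Adj v w → R.Adj v w' → col v w = col v w' → w = w') ∧
      ∀ x ∈ X \ Z, tok x < D + 1 ∧ (∀ w, R.Adj x w → col x w ≠ tok x) ∧
        ∀ w ∈ X \ Z, G.Adj x w → tok w ≠ tok x := by
  obtain ⟨t0, ht1, ht2, ht3⟩ := fournier R D Z
    (fun u hu w hw h => hZ u hu w hw (hRG u w h)) hdeg
  obtain ⟨col, tok, h1, h2, h3, h4⟩ := tokens_graph R G C D (t + Z.card) t 0 (X \ Z) t0 ht1 ht2 ht3
    (fun _ => ∅)
    (by
      refine le_trans ?_ hn
      exact card_le_univ _)
    (by
      intro x hx
      have h1 := hdeg x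
      rw [if_neg (mem_sdiff.1 hx).2, add_zero] at h1
      refine le_trans (card_le_card ?_) h1
      intro w hw
      exact mem_nb'.2 (mem_filter.1 hw).2)
    (by
      intro x hx
      rw [card_empty, add_zero]
      refine le_trans (card_le_card ?_) (hX x (mem_sdiff.1 hx).1)
      intro w hw
      rw [mem_filter] at hw ⊢
      exact ⟨mem_nb'.2 hw.2, (mem_sdiff.1 hw.1).1⟩)
    (by
      intro b
      have : ((X \ Z).filter fun _ => b ∈ (∅ : Finset ℕ)) = ∅ := by
        rw [filter_eq_empty_iff]
        intro _ _ h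
        exact absurd h (notMem_empty b)
      rw [this, card_empty])
    (by
      intro x hx
      refine le_trans (card_le_card (t := ((nb G x).filter fun w => w ∈ X) ∪ Z) ?_)
        ((card_union_le _ _).trans (Nat.add_le_add_right (hX x (mem_sdiff.1 hx).1) _))
      intro w hw
      rw [mem_filter] at hw
      obtain ⟨_, hw1, hw2⟩ := hw
      rw [mem_union, mem_filter]
      rcases hw2 with hw2 | hw2
      · exact Or.inl ⟨mem_nb'.2 (hRG _ _ hw1), (mem_sdiff.1 hw2).1⟩
      · right
        by_contra hcon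
        have h5 := hdeg w
        rw [if_neg hcon, add_zero] at h5
        have h6 : (univ.filter fun u => R.Adj w u).card ≤ (nb R w).card := by
          apply card_le_card
          intro y hy
          exact mem_nb'.2 (mem_filter.1 hy).2
        omega)
    h8
    (by
      have : t + Z.card + 0 + (8 * C + 6) * t = Z.card + (8 * C + 7) * t := by ring
      omega)
  exact ⟨col, tok, h1, h2, h3, fun x hx => ⟨(h4 x hx).1, (h4 x hx).2.1, (h4 x hx).2.2.2⟩⟩

/-- EVEN: `G'` is a subgraph of `G` with degrees at most `2 (m1 + m2)`, plus one on an independent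
set `Z`: a proper edge colouring of `G'` with `2 (m1 + m2) + 2` colours and tokens, proper on `G`,
which form with it a total colouring outside `Z` -/
theorem even_case {V : Type u} [Fintype V] (G G' : SimpleGraph V)
    (hGG : ∀ u w, G'.Adj u w → G.Adj u w) (Z X : Finset V)
    (hZ : ∀ u ∈ Z, ∀ w ∈ Z, ¬ G.Adj u w) (C m1 m2 t : ℕ)
    (hdeg : ∀ v, (nb G' v).card ≤ 2 * (m1 + m2) + if v ∈ Z then 1 else 0)
    (hX : ∀ v ∈ X, ((nb G v).filter fun w => w ∈ X).card ≤ t)
    (hY : ∀ v ∉ X, ((nb G v).filter fun w => w ∉ X).card ≤ t)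
    (hn1 : Fintype.card V ≤ C * (2 * m1)) (hn2 : Fintype.card V ≤ C * (2 * m2))
    (hsm1 : Z.card + (8 * C + 7) * t < 2 * m1) (hsm2 : Z.card + (8 * C + 7) * t < 2 * m2)
    (h81 : 8 * t < 2 * m1) (h82 : 8 * t < 2 * m2) :
    ∃ (col : V → V → ℕ) (tok : V → ℕ), (∀ v w, col v w = col w v) ∧
      (∀ v w, G'.Adj v w → col v w < 2 * (m1 + m2) + 2) ∧
      (∀ v w w', G'.Adj v w → G'.Adj v w' → col v w = col v w' → w = w') ∧
      ∀ x, x ∉ Z → tok x < 2 * (m1 + m2) + 2 ∧ (∀ w, G'.Adj x w → col x w ≠ tok x) ∧
        ∀ w, w ∉ Z → G.Adj x w → tok w ≠ tok x := by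
  obtain ⟨G1, G2, hG, hdj, hd1, hd2⟩ := split2 G' Z m1 m2 hdeg
  obtain ⟨c1, k1, a1, a2, a3, a4⟩ := layer G G1 (fun u w h => hGG u w ((hG u w).2 (Or.inl h))) Z X hZ
    C (2 * m1) t hd1 hX hn1 hsm1 h81
  obtain ⟨c2, k2, b1, b2, b3, b4⟩ := layer G G2 (fun u w h => hGG u w ((hG u w).2 (Or.inr h))) Z
    (univ \ X) hZ C (2 * m2) t hd2
    (by
      intro v hv
      refine le_trans (card_le_card ?_) (hY v (mem_sdiff.1 hv).2)
      intro w hw
      rw [mem_filter] at hw ⊢
      exact ⟨hw.1, (mem_sdiff.1 hw.2).2⟩)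
    hn2 hsm2 h82
  have hc1 : ∀ v w, G1.Adj v w → (if G1.Adj v w then c1 v w else 2 * m1 + 1 + c2 v w) = c1 v w :=
    fun v w h => if_pos h
  have hc2 : ∀ v w, G2.Adj v w → (if G1.Adj v w then c1 v w else 2 * m1 + 1 + c2 v w) =
      2 * m1 + 1 + c2 v w := fun v w h => if_neg (fun h' => hdj v w ⟨h', h⟩)
  refine ⟨fun v w => if G1.Adj v w then c1 v w else 2 * m1 + 1 + c2 v w,
    fun v => if v ∈ X then k1 v else 2 * m1 + 1 + k2 v, ?_, ?_, ?_, ?_⟩
  · intro v w
    simp only [G1.adj_comm v w, a1 v w, b1 v w]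
  · intro v w h
    rcases (hG v w).1 h with h1 | h1
    · simp only [hc1 v w h1]
      have := a2 v w h1
      omega
    · simp only [hc2 v w h1]
      have := b2 v w h1
      omega
  · intro v w w' h h' heq
    rcases (hG v w).1 h with h1 | h1 <;> rcases (hG v w').1 h' with h1' | h1'
    · simp only [hc1 v w h1, hc1 v w' h1'] at heq
      exact a3 v w w' h1 h1' heq
    · simp only [hc1 v w h1, hc2 v w' h1'] at heq
      have := a2 v w h1
      omega
    · simp only [hc2 v w h1, hc1 v w' h1'] at heq
      have := a2 v w' h1'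
      omega
    · simp only [hc2 v w h1, hc2 v w' h1'] at heq
      exact b3 v w w' h1 h1' (by omega)
  · intro x hx
    by_cases hxX : x ∈ X
    · obtain ⟨e1, e2, e3⟩ := a4 x (mem_sdiff.2 ⟨hxX, hx⟩)
      simp only [if_pos hxX]
      refine ⟨by omega, ?_, ?_⟩
      · intro w hw
        rcases (hG x w).1 hw with h1 | h1
        · rw [hc1 x w h1]
          exact e2 w h1
        · rw [hc2 x w h1]
          omega
      · intro w hw hxw
        by_cases hwX : w ∈ X
        · rw [if_pos hwX]
          exact e3 w (mem_sdiff.2 ⟨hwX, hw⟩) hxw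
        · rw [if_neg hwX]
          omega
    · obtain ⟨e1, e2, e3⟩ := b4 x (mem_sdiff.2 ⟨mem_sdiff.2 ⟨mem_univ _, hxX⟩, hx⟩)
      simp only [if_neg hxX]
      refine ⟨by omega, ?_, ?_⟩
      · intro w hw
        rcases (hG x w).1 hw with h1 | h1
        · rw [hc1 x w h1]
          have := a2 x w h1
          omega
        · rw [hc2 x w h1]
          have := e2 w h1
          omega
      · intro w hw hxw
        by_cases hwX : w ∈ X
        · rw [if_pos hwX]
          have := (a4 w (mem_sdiff.2 ⟨hwX, hw⟩)).1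
          omega
        · rw [if_neg hwX]
          have := e3 w (mem_sdiff.2 ⟨mem_sdiff.2 ⟨mem_univ _, hwX⟩, hw⟩) hxw
          omega

/-- ODD: a matching which covers all vertices of degree `Δ` except an independent set of at most `C`
vertices -/
theorem odd_class {V : Type u} [Fintype V] (G : SimpleGraph V) (Δ C : ℕ)
    (hdeg : ∀ v, (nb G v).card ≤ Δ) (hn : Fintype.card V ≤ C * Δ) :
    ∃ (f : V → V) (U : Finset V), (∀ v, f (f v) = v) ∧ (∀ v, f v ≠ v → G.Adj v (f v)) ∧
      U.card ≤ C ∧ (∀ u ∈ U, f u = u) ∧ (∀ u ∈ U, ∀ w ∈ U, ¬ G.Adj u w) ∧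
      ∀ v, v ∉ U → f v = v → (nb G v).card < Δ := by
  -- the number of uncovered vertices of degree `Δ`
  set un : (V → V) → Finset V := fun f => univ.filter fun v => (nb G v).card = Δ ∧ f v = v with hun
  have hne : (univ.filter fun f : V → V => (∀ v, f (f v) = v) ∧ ∀ v, f v ≠ v → G.Adj v (f v)).Nonempty :=
    ⟨id, mem_filter.2 ⟨mem_univ _, fun _ => rfl, fun v h => absurd rfl h⟩⟩
  obtain ⟨f, hf, hmin⟩ := exists_min_image _ (fun f => (un f).card) hne
  rw [mem_filter] at hf
  obtain ⟨_, hf1, hf2⟩ := hf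
  refine ⟨f, un f, hf1, hf2, ?_, ?_, ?_, ?_⟩
  · -- Vizing's colouring has a class with few uncovered vertices
    by_contra hcon
    push Not at hcon
    obtain ⟨t, ht1, ht2, ht3⟩ := fournier G Δ ∅ (by simp) (by
      intro v
      have := hdeg v
      simpa using this)
    -- the matching of the colour `a`
    set g : ℕ → V → V := fun a v => if h : ∃ w, G.Adj v w ∧ t v w = a then h.choose else v with hg
    have hg1 : ∀ a v w, G.Adj v w → t v w = a → g a v = w := by
      intro a v w h1 h2
      have h3 : ∃ w, G.Adj v w ∧ t v w = a := ⟨w, h1, h2⟩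
      simp only [hg]
      rw [dif_pos h3]
      exact ht3 v _ w h3.choose_spec.1 h1 (h3.choose_spec.2.trans h2.symm)
    have hg2 : ∀ a v, (¬ ∃ w, G.Adj v w ∧ t v w = a) → g a v = v := by
      intro a v h
      simp only [hg]
      rw [dif_neg h]
    have hgm : ∀ a, g a ∈ univ.filter fun f : V → V => (∀ v, f (f v) = v) ∧
        ∀ v, f v ≠ v → G.Adj v (f v) := by
      intro a
      rw [mem_filter]
      refine ⟨mem_univ _, ?_, ?_⟩
      · intro v
        by_cases h : ∃ w, G.Adj v w ∧ t v w = a
        · obtain ⟨w, h1, h2⟩ := h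
          rw [hg1 a v w h1 h2, hg1 a w v h1.symm ((ht1 w v).trans h2)]
        · rw [hg2 a v h, hg2 a v h]
      · intro v hv
        by_cases h : ∃ w, G.Adj v w ∧ t v w = a
        · obtain ⟨w, h1, h2⟩ := h
          rw [hg1 a v w h1 h2]
          exact h1
        · exact absurd (hg2 a v h) hv
    have hall : ∀ a ∈ range (Δ + 1), C + 1 ≤ (un (g a)).card := by
      intro a _
      have := hmin (g a) (hgm a)
      omega
    have hsum : ∑ a ∈ range (Δ + 1), (un (g a)).card ≤ Fintype.card V := by
      rw [← card_biUnion, ← card_univ]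
      · exact card_le_card (subset_univ _)
      · intro a ha b hb hab
        rw [Function.onFun, disjoint_left]
        intro v hva hvb
        rw [hun, mem_filter] at hva hvb
        have hva := hva.2
        have hvb := hvb.2
        -- `v` has degree `Δ` and misses two colours
        have h1 : (nb G v).image (t v) ⊆ ((range (Δ + 1)).erase a).erase b := by
          intro c hc
          rw [mem_image] at hc
          obtain ⟨w, hw, rfl⟩ := hc
          have hw := mem_nb'.1 hw
          rw [mem_erase, mem_erase, mem_range]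
          refine ⟨?_, ?_, ht2 v w hw⟩
          · intro h2
            have h3 := hg1 b v w hw h2
            rw [hvb.2] at h3
            exact hw.ne h3
          · intro h2
            have h3 := hg1 a v w hw h2
            rw [hva.2] at h3
            exact hw.ne h3
        have h2 := card_le_card h1
        rw [card_image_of_injOn (by
            intro w hw w' hw' h
            exact ht3 v w w' (mem_nb'.1 (mem_coe.1 hw)) (mem_nb'.1 (mem_coe.1 hw')) h),
          card_erase_of_mem (mem_erase.2 ⟨hab.symm, mem_coe.1 hb⟩),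
          card_erase_of_mem (mem_coe.1 ha), card_range, hva.1] at h2
        have h3 : 0 < Δ := by
          by_contra h0
          have h0 : Δ = 0 := by omega
          subst h0
          have h4 := mem_range.1 (mem_coe.1 ha)
          have h5 := mem_range.1 (mem_coe.1 hb)
          exact hab (by omega)
        omega
    have h4 : (Δ + 1) * (C + 1) ≤ ∑ a ∈ range (Δ + 1), (un (g a)).card := by
      calc (Δ + 1) * (C + 1) = ∑ a ∈ range (Δ + 1), (C + 1) := by
            rw [sum_const, card_range, smul_eq_mul]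
        _ ≤ _ := sum_le_sum hall
    have h5 : (Δ + 1) * (C + 1) = C * Δ + Δ + C + 1 := by ring
    omega
  · intro u hu
    rw [hun, mem_filter] at hu
    exact hu.2.2
  · intro u hu w hw huw
    rw [hun, mem_filter] at hu hw
    -- add the edge `u w`
    have hfu := hu.2.2
    have hfw := hw.2.2
    set f' : V → V := fun v => if v = u then w else if v = w then u else f v with hf'
    have e1 : f' u = w := by simp [hf']
    have e2 : f' w = u := by simp [hf', huw.ne.symm]
    have e3 : ∀ v, v ≠ u → v ≠ w → f' v = f v := by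
      intro v h1 h2
      simp [hf', h1, h2]
    have h1 : f' ∈ univ.filter fun f : V → V => (∀ v, f (f v) = v) ∧
        ∀ v, f v ≠ v → G.Adj v (f v) := by
      rw [mem_filter]
      refine ⟨mem_univ _, ?_, ?_⟩
      · intro v
        by_cases hvu : v = u
        · rw [hvu, e1, e2]
        · by_cases hvw : v = w
          · rw [hvw, e2, e1]
          · rw [e3 v hvu hvw]
            have h2 : f v ≠ u := by
              intro h3
              apply hvu
              rw [← hf1 v, h3, hfu]
            have h3 : f v ≠ w := by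
              intro h4
              apply hvw
              rw [← hf1 v, h4, hfw]
            rw [e3 _ h2 h3, hf1]
      · intro v hv
        by_cases hvu : v = u
        · rw [hvu, e1]
          exact huw
        · by_cases hvw : v = w
          · rw [hvw, e2]
            exact huw.symm
          · rw [e3 v hvu hvw] at hv ⊢
            exact hf2 v hv
    have h2 := hmin f' h1
    have h3 : un f' ⊂ un f := by
      rw [ssubset_iff_of_subset]
      · refine ⟨u, mem_filter.2 hu, ?_⟩
        rw [hun, mem_filter]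
        rintro ⟨_, _, h3⟩
        rw [e1] at h3
        exact huw.ne h3.symm
      · intro v hv
        rw [hun, mem_filter] at hv ⊢
        refine ⟨hv.1, hv.2.1, ?_⟩
        by_cases hvu : v = u
        · rw [hvu]; exact hfu
        · by_cases hvw : v = w
          · rw [hvw]; exact hfw
          · rw [← e3 v hvu hvw]
            exact hv.2.2
    have h4 := card_lt_card h3
    omega
  · intro v hv hfv
    by_contra hcon
    push Not at hcon
    have h1 := hdeg v
    exact hv (mem_filter.2 ⟨mem_univ _, le_antisymm h1 hcon, hfv⟩)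

/-- conversion to total colourings with colours in `Fin k` -/
theorem to_total {V : Type u} (G : SimpleGraph V) (k : ℕ) (c : V → ℕ) (col : V → V → ℕ)
    (h1 : ∀ v w, col v w = col w v) (h2 : ∀ v w, G.Adj v w → col v w < k)
    (h3 : ∀ v w w', G.Adj v w → G.Adj v w' → col v w = col v w' → w = w') (h4 : ∀ v, c v < k)
    (h5 : ∀ v w, G.Adj v w → c v ≠ c w) (h6 : ∀ v w, G.Adj v w → col v w ≠ c v) (hk : 0 < k) :
    ∃ (c' : V → Fin k) (t : Sym2 V → Fin k), _root_.MP_db9399_co.IsTotalColoring G c' t := by
  refine ⟨fun v => ⟨c v, h4 v⟩, fun e => Sym2.lift ⟨fun v w => if h : col v w < k then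
    (⟨col v w, h⟩ : Fin k) else ⟨0, hk⟩, fun v w => by simp only [h1 v w]⟩ e, ?_, ?_, ?_⟩
  · intro u v h h'
    exact h5 u v h (Fin.mk.inj_iff.1 h')
  · intro u v w huv huw hvw h
    simp only [Sym2.lift_mk] at h
    rw [dif_pos (h2 u v huv), dif_pos (h2 u w huw)] at h
    exact hvw (h3 u v w huv huw (Fin.mk.inj_iff.1 h))
  · intro u v h h'
    simp only [Sym2.lift_mk] at h'
    rw [dif_pos (h2 u v h)] at h'
    exact h6 u v h (Fin.mk.inj_iff.1 h')

/-- bipartite graphs -/
theorem bip_case {V : Type u} [Fintype V] (G : SimpleGraph V) (X : Finset V) (Δ : ℕ)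
    (hdeg : ∀ v, (nb G v).card ≤ Δ)
    (hX : ∀ v ∈ X, ∀ w ∈ X, ¬ G.Adj v w) (hY : ∀ v, v ∉ X → ∀ w, w ∉ X → ¬ G.Adj v w) :
    ∃ (c : V → ℕ) (col : V → V → ℕ), (∀ v w, col v w = col w v) ∧
      (∀ v w, G.Adj v w → col v w < Δ + 2) ∧
      (∀ v w w', G.Adj v w → G.Adj v w' → col v w = col v w' → w = w') ∧ (∀ v, c v < Δ + 2) ∧
      (∀ v w, G.Adj v w → c v ≠ c w) ∧ ∀ v w, G.Adj v w → col v w ≠ c v := by
  set S : Finset (V × V) := univ.filter fun a => a.1 ∈ X ∧ G.Adj a.1 a.2 with hS
  have hSY : ∀ a ∈ S, a.2 ∉ X := by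
    intro a ha h
    rw [hS, mem_filter] at ha
    exact hX a.1 ha.2.1 a.2 h ha.2.2
  obtain ⟨κ, hκ1, hκ2⟩ := _root_.MP_db9399_co.konig (Prod.fst : V × V → V) Prod.snd Δ S
    (by
      intro v
      refine le_trans (card_le_card_of_injOn Prod.snd ?_ ?_) (hdeg v)
      · intro a ha
        rw [mem_coe, mem_filter] at ha
        rw [mem_coe]
        apply mem_nb'.2
        rw [← ha.2]
        exact (mem_filter.1 ha.1).2.2
      · intro a ha b hb hab
        rw [mem_coe, mem_filter] at ha hb
        exact Prod.ext (ha.2.trans hb.2.symm) hab)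
    (by
      intro v
      refine le_trans (card_le_card_of_injOn Prod.fst ?_ ?_) (hdeg v)
      · intro a ha
        rw [mem_coe, mem_filter] at ha
        rw [mem_coe]
        apply mem_nb'.2
        rw [← ha.2]
        exact (mem_filter.1 ha.1).2.2.symm
      · intro a ha b hb hab
        rw [mem_coe, mem_filter] at ha hb
        exact Prod.ext hab (ha.2.trans hb.2.symm))
  have hmS : ∀ v w, G.Adj v w → v ∈ X → (v, w) ∈ S := by
    intro v w h hv
    rw [hS, mem_filter]
    exact ⟨mem_univ _, hv, h⟩
  have hother : ∀ v w, G.Adj v w → v ∉ X → w ∈ X := by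
    intro v w h hv
    by_contra hw
    exact hY v hv w hw h
  have hnX : ∀ v w, G.Adj v w → v ∈ X → w ∉ X := by
    intro v w h hv hw
    exact hX v hv w hw h
  set col : V → V → ℕ := fun v w => if v ∈ X ∧ w ∉ X then κ (v, w) else
    if w ∈ X ∧ v ∉ X then κ (w, v) else 0 with hcol
  have hc1 : ∀ v w, G.Adj v w → v ∈ X → col v w = κ (v, w) := by
    intro v w h hv
    simp only [hcol]
    rw [if_pos ⟨hv, hnX v w h hv⟩]
  have hc2 : ∀ v w, G.Adj v w → v ∉ X → col v w = κ (w, v) := by
    intro v w h hv
    simp only [hcol]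
    rw [if_neg (fun h' => hv h'.1), if_pos ⟨hother v w h hv, hv⟩]
  have hlt : ∀ v w, G.Adj v w → col v w < Δ := by
    intro v w h
    by_cases hv : v ∈ X
    · rw [hc1 v w h hv]
      exact hκ1 _ (hmS v w h hv)
    · rw [hc2 v w h hv]
      exact hκ1 _ (hmS w v h.symm (hother v w h hv))
  refine ⟨fun v => if v ∈ X then Δ else Δ + 1, col, ?_, ?_, ?_, ?_, ?_, ?_⟩
  · intro v w
    simp only [hcol]
    by_cases hv : v ∈ X <;> by_cases hw : w ∈ X <;> simp [hv, hw]
  · intro v w h
    have := hlt v w h
    omega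
  · intro v w w' h h' heq
    by_cases hv : v ∈ X
    · rw [hc1 v w h hv, hc1 v w' h' hv] at heq
      by_contra hne
      exact hκ2 _ (hmS v w h hv) _ (hmS v w' h' hv) (fun h1 => hne (Prod.ext_iff.1 h1).2)
        (Or.inl rfl) heq
    · rw [hc2 v w h hv, hc2 v w' h' hv] at heq
      by_contra hne
      exact hκ2 _ (hmS w v h.symm (hother v w h hv)) _ (hmS w' v h'.symm (hother v w' h' hv))
        (fun h1 => hne (Prod.ext_iff.1 h1).1) (Or.inr rfl) heq
  · intro v
    dsimp only
    split_ifs <;> omega
  · intro v w h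
    dsimp only
    by_cases hv : v ∈ X
    · rw [if_pos hv, if_neg (hnX v w h hv)]
      omega
    · rw [if_neg hv, if_pos (hother v w h hv)]
      omega
  · intro v w h
    have := hlt v w h
    dsimp only
    split_ifs <;> omega

/-- TCC for dense almost bipartite graphs: every vertex has at most `t` neighbours in its own part,
`140 n t ≤ Δ ^ 2` -/
theorem near_bip {V : Type u} [Fintype V] (G : SimpleGraph V) (X : Finset V) (Δ t : ℕ)
    (hdeg : ∀ v, (nb G v).card ≤ Δ)
    (hX : ∀ v ∈ X, ((nb G v).filter fun w => w ∈ X).card ≤ t)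
    (hY : ∀ v ∉ X, ((nb G v).filter fun w => w ∉ X).card ≤ t)
    (hΔn : Δ ≤ Fintype.card V) (hsm : 140 * Fintype.card V * t ≤ Δ ^ 2) :
    ∃ (c : V → ℕ) (col : V → V → ℕ), (∀ v w, col v w = col w v) ∧
      (∀ v w, G.Adj v w → col v w < Δ + 2) ∧
      (∀ v w w', G.Adj v w → G.Adj v w' → col v w = col v w' → w = w') ∧ (∀ v, c v < Δ + 2) ∧
      (∀ v w, G.Adj v w → c v ≠ c w) ∧ ∀ v w, G.Adj v w → col v w ≠ c v := by
  -- bipartite graphs
  by_cases ht : t = 0
  · subst ht
    apply bip_case G X Δ hdeg
    · intro v hv w hw h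
      have h1 := hX v hv
      rw [Nat.le_zero, card_eq_zero, filter_eq_empty_iff] at h1
      exact h1 (mem_nb'.2 h) hw
    · intro v hv w hw h
      have h1 := hY v hv
      rw [Nat.le_zero, card_eq_zero, filter_eq_empty_iff] at h1
      exact h1 (mem_nb'.2 h) hw
  by_cases hE : ∀ v w, ¬ G.Adj v w
  · exact bip_case G X Δ hdeg (fun v _ w _ => hE v w) (fun v _ w _ => hE v w)
  push Not at hE
  obtain ⟨v0, w0, hvw0⟩ := hE
  have htpos : 0 < t := Nat.pos_of_ne_zero ht
  have hΔ0 : 0 < Δ := lt_of_lt_of_le (card_pos.2 ⟨w0, mem_nb'.2 hvw0⟩) (hdeg v0)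
  have hnpos : 0 < Fintype.card V := Fintype.card_pos_iff.2 ⟨v0⟩
  -- the number `C`
  obtain ⟨C, hC1, hC2⟩ : ∃ C, Fintype.card V ≤ C * Δ ∧ C * Δ < Fintype.card V + Δ := by
    refine ⟨(Fintype.card V + Δ - 1) / Δ, ?_, ?_⟩
    · have h1 := Nat.div_add_mod (Fintype.card V + Δ - 1) Δ
      have h2 := Nat.mod_lt (Fintype.card V + Δ - 1) hΔ0
      have h3 : (Fintype.card V + Δ - 1) / Δ * Δ = Δ * ((Fintype.card V + Δ - 1) / Δ) := by ring
      omega
    · have h1 := Nat.div_mul_le_self (Fintype.card V + Δ - 1) Δ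
      omega
  have hCpos : 0 < C := by
    by_contra h0
    have h0 : C = 0 := by omega
    rw [h0, zero_mul] at hC1
    omega
  -- `70 C t ≤ Δ`
  have hkey : 70 * (C * t) ≤ Δ := by
    have h1 : C * Δ * (70 * t) ≤ 2 * Fintype.card V * (70 * t) :=
      Nat.mul_le_mul_right _ (by omega)
    have h2 : (70 * (C * t)) * Δ ≤ Δ * Δ := by nlinarith
    exact Nat.le_of_mul_le_mul_right h2 hΔ0
  have hCt : C ≤ C * t := Nat.le_mul_of_pos_right C htpos
  have htC : t ≤ C * t := Nat.le_mul_of_pos_left t hCpos
  have hCt1 : 1 ≤ C * t := Nat.mul_pos hCpos htpos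
  have hmul : (8 * (2 * C + 1) + 7) * t ≤ 31 * (C * t) := by
    have : (8 * (2 * C + 1) + 7) * t = 16 * (C * t) + 15 * t := by ring
    omega
  rcases Nat.even_or_odd' Δ with ⟨m, hm | hm⟩
  · -- even
    have hm35 : 35 * (C * t) ≤ m := by omega
    have hnn : Fintype.card V ≤ (2 * C + 1) * (m - 1) := by
      obtain ⟨j, hj⟩ : ∃ j, m = j + 1 := ⟨m - 1, by omega⟩
      subst hj
      rw [hm] at hC1
      have : (2 * C + 1) * (j + 1 - 1) = 2 * (C * j) + j := by
        rw [Nat.add_sub_cancel]; ring
      have h2 : C * (2 * (j + 1)) = 2 * (C * j) + 2 * C := by ring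
      omega
    have hm1 : m - 1 ≤ 2 * (m / 2) := by omega
    have hm2 : m - 1 ≤ 2 * (m - m / 2) := by omega
    have hmm : m / 2 + (m - m / 2) = m := by omega
    obtain ⟨col, tok, a1, a2, a3, a4⟩ := even_case G G (fun _ _ h => h) ∅ X (by simp) (2 * C + 1) (m / 2) (m - m / 2) t
      (by
        intro v
        rw [hmm]
        have := hdeg v
        simp only [notMem_empty, if_false]
        omega)
      hX hY (hnn.trans (Nat.mul_le_mul_left _ hm1)) (hnn.trans (Nat.mul_le_mul_left _ hm2))
      (by rw [card_empty]; omega) (by rw [card_empty]; omega) (by omega) (by omega)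
    rw [hmm] at a2 a4
    refine ⟨tok, col, a1, ?_, a3, ?_, ?_, ?_⟩
    · intro v w h
      rw [hm]
      exact a2 v w h
    · intro v
      rw [hm]
      exact (a4 v (notMem_empty v)).1
    · intro v w h
      exact ((a4 v (notMem_empty v)).2.2 w (notMem_empty w) h).symm
    · intro v w h
      exact (a4 v (notMem_empty v)).2.1 w h
  · -- odd
    have hm35 : 35 * (C * t) ≤ m := by omega
    have hnn : Fintype.card V ≤ (2 * C + 1) * (m - 1) := by
      obtain ⟨j, hj⟩ : ∃ j, m = j + 1 := ⟨m - 1, by omega⟩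
      subst hj
      rw [hm] at hC1
      have : (2 * C + 1) * (j + 1 - 1) = 2 * (C * j) + j := by
        rw [Nat.add_sub_cancel]; ring
      have h2 : C * (2 * (j + 1) + 1) = 2 * (C * j) + 3 * C := by ring
      omega
    have hm1 : m - 1 ≤ 2 * (m / 2) := by omega
    have hm2 : m - 1 ≤ 2 * (m - m / 2) := by omega
    have hmm : m / 2 + (m - m / 2) = m := by omega
    obtain ⟨f, U, hf1, hf2, hU1, hU2, hU3, hU4⟩ := odd_class G Δ C hdeg hC1
    -- the remaining graph
    let G' : SimpleGraph V :=
      { Adj := fun v w => G.Adj v w ∧ f v ≠ w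
        symm := ⟨fun v w h => ⟨h.1.symm, fun h' => h.2 (by rw [← h', hf1])⟩⟩
        loopless := ⟨fun v h => G.loopless.irrefl v h.1⟩ }
    have hG' : ∀ v w, G'.Adj v w ↔ G.Adj v w ∧ f v ≠ w := fun _ _ => Iff.rfl
    have hnb : ∀ v, (nb G' v) ⊆ nb G v := by
      intro v w hw
      exact mem_nb'.2 ((hG' v w).1 (mem_nb'.1 hw)).1
    obtain ⟨col, tok, a1, a2, a3, a4⟩ := even_case G G' (fun _ _ h => h.1) U X
      hU3 (2 * C + 1) (m / 2) (m - m / 2) t
      (by
        intro v
        rw [hmm]
        have h1 := hdeg v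
        by_cases hv : v ∈ U
        · rw [if_pos hv, ← hm]
          exact (card_le_card (hnb v)).trans h1
        · rw [if_neg hv, add_zero]
          by_cases hfv : f v = v
          · have h2 := hU4 v hv hfv
            have h3 := card_le_card (hnb v)
            omega
          · have h2 : nb G' v ⊆ (nb G v).erase (f v) := by
              intro w hw
              rw [mem_erase]
              exact ⟨fun h3 => (mem_nb'.1 hw).2 h3.symm, hnb v hw⟩
            have h3 := card_le_card h2
            rw [card_erase_of_mem (mem_nb'.2 (hf2 v hfv))] at h3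
            omega)
      hX hY (hnn.trans (Nat.mul_le_mul_left _ hm1)) (hnn.trans (Nat.mul_le_mul_left _ hm2))
      (by omega) (by omega) (by omega) (by omega)
    rw [hmm] at a2 a4
    set col' : V → V → ℕ := fun v w => if f v = w then 2 * m + 2 else col v w with hcol'
    have c1 : ∀ v w, f v = w → col' v w = 2 * m + 2 := fun v w h => if_pos h
    have c2 : ∀ v w, f v ≠ w → col' v w = col v w := fun v w h => if_neg h
    have hfs : ∀ v w, f v = w ↔ f w = v := by
      intro v w
      constructor
      · intro h; rw [← h, hf1]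
      · intro h; rw [← h, hf1]
    have hlt : ∀ v w, G.Adj v w → f v ≠ w → col' v w < 2 * m + 2 := by
      intro v w h h'
      rw [c2 v w h']
      exact a2 v w ⟨h, h'⟩
    refine ⟨fun v => if v ∈ U then 2 * m + 2 else tok v, col', ?_, ?_, ?_, ?_, ?_, ?_⟩
    · intro v w
      by_cases h : f v = w
      · rw [c1 v w h, c1 w v ((hfs v w).1 h)]
      · rw [c2 v w h, c2 w v (fun h' => h ((hfs v w).2 h')), a1]
    · intro v w h
      by_cases h' : f v = w
      · rw [c1 v w h']
        omega
      · have := hlt v w h h'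
        omega
    · intro v w w' h h' heq
      by_cases hw : f v = w
      · by_cases hw' : f v = w'
        · rw [← hw, ← hw']
        · have := hlt v w' h' hw'
          rw [c1 v w hw] at heq
          omega
      · by_cases hw' : f v = w'
        · have := hlt v w h hw
          rw [c1 v w' hw'] at heq
          omega
        · rw [c2 v w hw, c2 v w' hw'] at heq
          exact a3 v w w' ⟨h, hw⟩ ⟨h', hw'⟩ heq
    · intro v
      dsimp only
      by_cases hv : v ∈ U
      · rw [if_pos hv]
        omega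
      · rw [if_neg hv]
        have := (a4 v hv).1
        omega
    · intro v w h
      dsimp only
      by_cases hv : v ∈ U
      · by_cases hw : w ∈ U
        · exact absurd h (hU3 v hv w hw)
        · rw [if_pos hv, if_neg hw]
          have := (a4 w hw).1
          omega
      · by_cases hw : w ∈ U
        · rw [if_neg hv, if_pos hw]
          have := (a4 v hv).1
          omega
        · rw [if_neg hv, if_neg hw]
          exact ((a4 v hv).2.2 w hw h).symm
    · intro v w h
      dsimp only
      by_cases hv : v ∈ U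
      · rw [if_pos hv]
        have h1 : f v ≠ w := by
          rw [hU2 v hv]
          exact h.ne
        have := hlt v w h h1
        omega
      · rw [if_neg hv]
        by_cases hfv : f v = w
        · rw [c1 v w hfv]
          have := (a4 v hv).1
          omega
        · rw [c2 v w hfv]
          exact (a4 v hv).2.1 w ⟨h, hfv⟩

end Pool.Agent.Work.MP_db9399_bp_helper22
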