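import Mathlib
import Pool.Agent.Work.MP_db9399_bp_helper22.NearBip

/-!
# Q1 for dense almost bipartite graphs and precoloured matchings with at most one edge (helper22)
-/

set_option autoImplicit false

namespace Pool.Agent.Work.MP_db9399_bp_helper22

open Finset
open _root_.MP_db9399_co (IsTotalColoring IsDistThreeMatching EveryTotalColoringExtends)

universe u

/-- a permutation with three prescribed values -/
theorem perm3 {C : Type*} [DecidableEq C] (a b c a' b' c' : C) (h1 : a ≠ b) (h2 : c ≠ a) (h3 : c ≠ b)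
    (h1' : a' ≠ b') (h2' : c' ≠ a') (h3' : c' ≠ b') :
    ∃ π : Equiv.Perm C, π a = a' ∧ π b = b' ∧ π c = c' := by
  set p1 := Equiv.swap a a' with hp1
  have e1 : p1 a = a' := Equiv.swap_apply_left a a'
  set p2 := Equiv.swap (p1 b) b' with hp2
  have e2 : p2 (p1 b) = b' := Equiv.swap_apply_left _ _
  have e3 : p2 a' = a' := by
    apply Equiv.swap_apply_of_ne_of_ne
    · rw [← e1]
      exact fun h => h1 (p1.injective h)
    · exact h1'
  set p3 := Equiv.swap (p2 (p1 c)) c' with hp3
  have e4 : p3 (p2 (p1 c)) = c' := Equiv.swap_apply_left _ _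
  have e5 : p3 a' = a' := by
    apply Equiv.swap_apply_of_ne_of_ne
    · intro h
      apply h2
      apply p1.injective
      apply p2.injective
      rw [← h, e1, e3]
    · exact h2'.symm
  have e6 : p3 b' = b' := by
    apply Equiv.swap_apply_of_ne_of_ne
    · intro h
      apply h3
      apply p1.injective
      apply p2.injective
      rw [← h, e2]
    · exact h3'.symm
  refine ⟨(p1.trans p2).trans p3, ?_, ?_, ?_⟩
  · simp only [Equiv.trans_apply]
    rw [e1, e3, e5]
  · simp only [Equiv.trans_apply]
    rw [e2, e6]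
  · simp only [Equiv.trans_apply]
    exact e4

/-- extension of a precoloured edge from a total colouring -/
theorem extend_one {V : Type u} (G : SimpleGraph V) (k : ℕ)
    (htot : ∃ (c : V → Fin k) (t : Sym2 V → Fin k), IsTotalColoring G c t) (H : G.Subgraph)
    (hH : H.IsMatching) (hone : H.edgeSet.Subsingleton) : EveryTotalColoringExtends H (Fin k) := by
  intro c₀ t₀ h₀
  obtain ⟨c, t, hct⟩ := htot
  by_cases hv : ∃ u, u ∈ H.verts
  · obtain ⟨u, hu⟩ := hv
    obtain ⟨v, huv, _⟩ := hH hu
    have hG : G.Adj u v := H.adj_sub huv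
    have hS : H.spanningCoe.Adj u v := huv
    obtain ⟨π, h1, h2, h3⟩ := perm3 (c u) (c v) (t s(u, v)) (c₀ u) (c₀ v) (t₀ s(u, v))
      (hct.vertex u v hG) (hct.incidence u v hG)
      (by
        have := hct.incidence v u hG.symm
        rwa [Sym2.eq_swap] at this)
      (h₀.vertex u v hS) (h₀.incidence u v hS)
      (by
        have := h₀.incidence v u hS.symm
        rwa [Sym2.eq_swap] at this)
    have hedge : ∀ x y, H.Adj x y → s(x, y) = s(u, v) := by
      intro x y hxy
      exact hone (SimpleGraph.Subgraph.mem_edgeSet.2 hxy) (SimpleGraph.Subgraph.mem_edgeSet.2 huv)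
    refine ⟨fun x => π (c x), fun e => π (t e), ⟨?_, ?_, ?_⟩, ?_, ?_⟩
    · intro x y hxy h
      exact hct.vertex x y hxy (π.injective h)
    · intro x y w hxy hxw hyw h
      exact hct.edge x y w hxy hxw hyw (π.injective h)
    · intro x y hxy h
      exact hct.incidence x y hxy (π.injective h)
    · intro x hx
      obtain ⟨y, hxy, _⟩ := hH hx
      have h4 := hedge x y hxy
      rw [Sym2.eq_iff] at h4
      rcases h4 with h4 | h4
      · rw [h4.1]; exact h1
      · rw [h4.1]; exact h2
    · intro e he
      have h4 : e = s(u, v) := hone he (SimpleGraph.Subgraph.mem_edgeSet.2 huv)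
      rw [h4]
      exact h3
  · push Not at hv
    refine ⟨c, t, hct, fun x hx => absurd hx (hv x), ?_⟩
    intro e he
    induction e using Sym2.ind with
    | _ x y =>
      exact absurd (H.edge_vert (SimpleGraph.Subgraph.mem_edgeSet.1 he)) (hv x)

open Classical in
theorem near_bip_total_aux {V : Type u} [Fintype V] (G : SimpleGraph V)
    [DecidableRel G.Adj] (X : Finset V) (t : ℕ)
    (hX : ∀ v ∈ X, (G.neighborFinset v ∩ X).card ≤ t)
    (hY : ∀ v, v ∉ X → (G.neighborFinset v \ X).card ≤ t)
    (hsm : 140 * Fintype.card V * t ≤ G.maxDegree ^ 2) (k : ℕ) (hk : G.maxDegree + 2 ≤ k) :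
    ∃ (c : V → Fin k) (τ : Sym2 V → Fin k), IsTotalColoring G c τ := by
  rcases isEmpty_or_nonempty V with hV | hV
  · refine ⟨fun v => (hV.false v).elim, fun e => ⟨0, by omega⟩, ⟨?_, ?_, ?_⟩⟩
    · intro u; exact (hV.false u).elim
    · intro u; exact (hV.false u).elim
    · intro u; exact (hV.false u).elim
  have hmax : G.maxDegree ≤ Fintype.card V := (G.maxDegree_lt_card_verts).le
  obtain ⟨c, col, h1, h2, h3, h4, h5, h6⟩ := near_bip G X G.maxDegree t
    (by
      intro v
      refine le_trans (card_le_card ?_) (G.degree_le_maxDegree v)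
      intro w hw
      rw [SimpleGraph.mem_neighborFinset]
      exact mem_nb'.1 hw)
    (by
      intro v hv
      refine le_trans (card_le_card ?_) (hX v hv)
      intro w hw
      obtain ⟨hw1, hw2⟩ := Finset.mem_filter.1 hw
      rw [mem_inter, SimpleGraph.mem_neighborFinset]
      exact ⟨mem_nb'.1 hw1, hw2⟩)
    (by
      intro v hv
      refine le_trans (card_le_card ?_) (hY v hv)
      intro w hw
      obtain ⟨hw1, hw2⟩ := Finset.mem_filter.1 hw
      rw [mem_sdiff, SimpleGraph.mem_neighborFinset]
      exact ⟨mem_nb'.1 hw1, hw2⟩)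
    hmax hsm
  exact to_total G k c col h1 (fun v w h => lt_of_lt_of_le (h2 v w h) hk) h3
    (fun v => lt_of_lt_of_le (h4 v) hk) h5 h6 (by omega)

/-- TCC for dense almost bipartite graphs, in the form of a total colouring with `k` colours -/
theorem near_bip_total {V : Type u} [Fintype V] [hde : DecidableEq V] (G : SimpleGraph V)
    [DecidableRel G.Adj] (X : Finset V) (t : ℕ)
    (hX : ∀ v ∈ X, (G.neighborFinset v ∩ X).card ≤ t)
    (hY : ∀ v, v ∉ X → (G.neighborFinset v \ X).card ≤ t)
    (hsm : 140 * Fintype.card V * t ≤ G.maxDegree ^ 2) (k : ℕ) (hk : G.maxDegree + 2 ≤ k) :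
    ∃ (c : V → Fin k) (τ : Sym2 V → Fin k), IsTotalColoring G c τ := by
  have hde' : hde = fun a b => Classical.propDecidable (a = b) := Subsingleton.elim _ _
  subst hde'
  exact near_bip_total_aux G X t hX hY hsm k hk

end Pool.Agent.Work.MP_db9399_bp_helper22
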