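import Pool.Agent.Work.MP_db9399_co.Defs
import Pool.Agent.Work.MP_db9399_bp_helper22.OneEdge

/-!
The Total Coloring Conjecture for all sufficiently dense almost bipartite graphs, with an explicit
condition and without any assumption that the graph is large.

Let `G` be a finite graph with `n` vertices and maximum degree `Δ`, and let `X` be a set of
vertices such that every vertex has at most `t` neighbours on its own side of the partition
`X ∪ (V - X)`. If `140 n t ≤ Δ²` then `G` has a total-`(Δ + 2)`-colouring; moreover every
total-`k`-colouring (`k ≥ Δ + 2`) of one edge extends to `G`.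
-/

namespace Pool.Agent.Results.MP_db9399_co.DenseAlmostBipartite

open _root_.MP_db9399_co

universe u

/-- If every vertex of `G` has at most `t` neighbours on its own side of the partition
`X ∪ (V - X)` and `140 |V| t ≤ Δ²`, then for every `k ≥ Δ + 2` and every distance-3 matching `H`
with at most one edge every total-`k`-colouring of `H` extends to `G`. -/
theorem result (V : Type u) [Fintype V] [DecidableEq V] (G : SimpleGraph V) [DecidableRel G.Adj]
    (X : Finset V) (t : ℕ)
    (hX : ∀ v ∈ X, (G.neighborFinset v ∩ X).card ≤ t)
    (hY : ∀ v, v ∉ X → (G.neighborFinset v \ X).card ≤ t)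
    (hn : 140 * Fintype.card V * t ≤ G.maxDegree ^ 2)
    (k : ℕ) (hk : G.maxDegree + 2 ≤ k)
    (H : G.Subgraph) (hH : IsDistThreeMatching H) (hone : H.edgeSet.Subsingleton) :
    EveryTotalColoringExtends H (Fin k) :=
  Pool.Agent.Work.MP_db9399_bp_helper22.extend_one G k
    (Pool.Agent.Work.MP_db9399_bp_helper22.near_bip_total G X t hX hY hn k hk) H hH.1 hone

end Pool.Agent.Results.MP_db9399_co.DenseAlmostBipartite
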