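import Mathlib
import Pool.Agent.Work.MP_db9399_da_helper72.Stm

/-!
# A bijection with few bad pairs (PERM, helper22)
-/

set_option autoImplicit false

namespace Pool.Agent.Work.MP_db9399_bp_helper22

open Finset Classical

universe u

/-- the bijections which contain a set of `k` pairs -/
theorem card_extend {P C : Type u} [Fintype P] [Fintype C] (T : Finset (P × C)) :
    (univ.filter fun σ : P ≃ C => ∀ a ∈ T, σ a.1 = a.2).card ≤
      (Fintype.card P - T.card).factorial := by
  rcases (univ.filter fun σ : P ≃ C => ∀ a ∈ T, σ a.1 = a.2).eq_empty_or_nonempty with h | ⟨σ0, h0⟩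
  · rw [h, card_empty]
    exact Nat.zero_le _
  rw [mem_filter] at h0
  have h0 := h0.2
  set B : Finset P := T.image Prod.fst with hB
  set D : Finset C := T.image Prod.snd with hD
  have hBc : B.card = T.card := by
    apply card_image_of_injOn
    intro a ha b hb hab
    apply Prod.ext hab
    rw [← h0 a ha, ← h0 b hb, hab]
  have hiff : ∀ σ : P ≃ C, (∀ a ∈ T, σ a.1 = a.2) → ∀ b, b ∉ B ↔ σ b ∉ D := by
    intro σ hσ b
    rw [not_iff_not]
    constructor
    · intro h
      rw [hB, mem_image] at h
      obtain ⟨a, ha, rfl⟩ := h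
      rw [hσ a ha]
      exact mem_image_of_mem _ ha
    · intro h
      rw [hD, mem_image] at h
      obtain ⟨a, ha, h1⟩ := h
      rw [← hσ a ha] at h1
      rw [← σ.injective h1]
      exact mem_image_of_mem _ ha
  have hcard : Fintype.card ({b // b ∉ B} ≃ {c // c ∉ D}) = (Fintype.card P - T.card).factorial := by
    rw [Fintype.card_equiv (σ0.subtypeEquiv (hiff σ0 h0))]
    congr 1
    rw [Fintype.card_subtype_compl, ← hBc]
    congr 1
    exact Fintype.card_coe B
  rw [← hcard, ← Finset.card_univ]
  apply card_le_card_of_injOn (fun σ : P ≃ C => if h : ∀ a ∈ T, σ a.1 = a.2 then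
    σ.subtypeEquiv (hiff σ h) else σ0.subtypeEquiv (hiff σ0 h0))
  · intro σ _
    exact mem_coe.2 (mem_univ _)
  · intro σ hσ τ hτ hst
    rw [mem_coe, mem_filter] at hσ hτ
    simp only at hst
    rw [dif_pos hσ.2, dif_pos hτ.2] at hst
    ext b
    by_cases hb : b ∈ B
    · rw [hB, mem_image] at hb
      obtain ⟨a, ha, rfl⟩ := hb
      rw [hσ.2 a ha, hτ.2 a ha]
    · have h1 := congrArg (fun e : {b // b ∉ B} ≃ {c // c ∉ D} => (e ⟨b, hb⟩ : C)) hst
      exact h1

/-- the number of bijections with at least `k` pairs in `R` -/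
theorem card_bad {P C : Type u} [Fintype P] [Fintype C] (R : Finset (P × C)) (k : ℕ) :
    (univ.filter fun σ : P ≃ C => k ≤ (univ.filter fun b => (b, σ b) ∈ R).card).card ≤
      R.card.choose k * (Fintype.card P - k).factorial := by
  calc (univ.filter fun σ : P ≃ C => k ≤ (univ.filter fun b => (b, σ b) ∈ R).card).card
      ≤ ((powersetCard k R).biUnion fun T => univ.filter fun σ : P ≃ C => ∀ a ∈ T, σ a.1 = a.2).card := by
        apply card_le_card
        intro σ hσ
        rw [mem_filter] at hσ
        obtain ⟨B, hB, hBk⟩ := exists_subset_card_eq hσ.2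
        rw [mem_biUnion]
        refine ⟨B.image fun b => (b, σ b), ?_, ?_⟩
        · rw [mem_powersetCard]
          constructor
          · intro a ha
            rw [mem_image] at ha
            obtain ⟨b, hb, rfl⟩ := ha
            exact (mem_filter.1 (hB hb)).2
          · rw [card_image_of_injective _ (fun b b' h => (Prod.ext_iff.1 h).1), hBk]
        · rw [mem_filter]
          refine ⟨mem_univ _, ?_⟩
          intro a ha
          rw [mem_image] at ha
          obtain ⟨b, _, rfl⟩ := ha
          rfl
    _ ≤ ∑ T ∈ powersetCard k R, (univ.filter fun σ : P ≃ C => ∀ a ∈ T, σ a.1 = a.2).card :=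
        card_biUnion_le
    _ ≤ ∑ T ∈ powersetCard k R, (Fintype.card P - k).factorial := by
        apply sum_le_sum
        intro T hT
        have := card_extend (P := P) (C := C) T
        rwa [(mem_powersetCard.1 hT).2] at this
    _ = _ := by rw [sum_const, card_powersetCard, smul_eq_mul]

/-- the probability of a bad bijection is at most `2 ^ (-k)` -/
theorem card_bad' {P C : Type u} [Fintype P] [Fintype C] (R : Finset (P × C)) (r k : ℕ)
    (hR : R.card ≤ Fintype.card P * r) (hrk : 16 * r ≤ k) (hkp : 2 * k ≤ Fintype.card P) :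
    ((univ.filter fun σ : P ≃ C => k ≤ (univ.filter fun b => (b, σ b) ∈ R).card).card : ℝ) * 2 ^ k ≤
      (Fintype.card P).factorial := by
  set p := Fintype.card P with hp
  have h1 : ((univ.filter fun σ : P ≃ C => k ≤ (univ.filter fun b => (b, σ b) ∈ R).card).card : ℝ) ≤
      (R.card.choose k : ℝ) * (p - k).factorial := by
    exact_mod_cast card_bad R k
  have h2 : (R.card.choose k : ℝ) ≤ ((p * r : ℕ) : ℝ) ^ k / k.factorial := by
    refine (Nat.choose_le_pow_div k R.card).trans ?_
    apply div_le_div_of_nonneg_right _ (by positivity)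
    exact pow_le_pow_left₀ (by positivity) (by exact_mod_cast hR) k
  have h3 : ((p : ℝ) / 2) ^ k * (p - k).factorial ≤ p.factorial := by
    have h4 : p.factorial = p.descFactorial k * (p - k).factorial := by
      rw [Nat.descFactorial_eq_factorial_mul_choose]
      rw [mul_comm (k.factorial)]
      exact (Nat.choose_mul_factorial_mul_factorial (by omega)).symm
    rw [h4]
    push_cast
    apply mul_le_mul_of_nonneg_right _ (by positivity)
    have h5 : (p + 1 - k) ^ k ≤ p.descFactorial k := Nat.pow_sub_le_descFactorial p k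
    have h6 : ((p : ℝ) / 2) ^ k ≤ ((p + 1 - k : ℕ) : ℝ) ^ k := by
      apply pow_le_pow_left₀ (by positivity)
      rw [div_le_iff₀ (by norm_num)]
      have : p ≤ (p + 1 - k) * 2 := by omega
      exact_mod_cast this
    exact h6.trans (by exact_mod_cast h5)
  have h4 : (2 * (r : ℝ)) ^ k * 2 ^ k ≤ k.factorial := by
    have h5 : ((k : ℝ)) ^ k / k.factorial ≤ Real.exp k := Real.pow_div_factorial_le_exp (k : ℝ) (by positivity) k
    have h6 : Real.exp k ≤ 4 ^ k := by
      rw [← mul_one (k : ℝ), Real.exp_nat_mul]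
      apply pow_le_pow_left₀ (Real.exp_pos 1).le
      have := Real.exp_one_lt_d9
      linarith
    have h7 : (k : ℝ) ^ k ≤ 4 ^ k * k.factorial := by
      rw [div_le_iff₀ (by positivity)] at h5
      exact h5.trans (mul_le_mul_of_nonneg_right h6 (by positivity))
    have h8 : (2 * (r : ℝ)) ^ k * 2 ^ k * 4 ^ k ≤ (k : ℝ) ^ k := by
      rw [← mul_pow, ← mul_pow]
      apply pow_le_pow_left₀ (by positivity)
      have : (16 * r : ℝ) ≤ k := by exact_mod_cast hrk
      linarith
    have h9 : (2 * (r : ℝ)) ^ k * 2 ^ k * 4 ^ k ≤ k.factorial * 4 ^ k := by linarith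
    exact le_of_mul_le_mul_right h9 (by positivity)
  have hk0 : (0 : ℝ) < k.factorial := by positivity
  calc ((univ.filter fun σ : P ≃ C => k ≤ (univ.filter fun b => (b, σ b) ∈ R).card).card : ℝ) * 2 ^ k
      ≤ (((p * r : ℕ) : ℝ) ^ k / k.factorial * (p - k).factorial) * 2 ^ k := by
        apply mul_le_mul_of_nonneg_right _ (by positivity)
        exact h1.trans (mul_le_mul_of_nonneg_right h2 (by positivity))
    _ = ((2 * (r : ℝ)) ^ k * 2 ^ k / k.factorial) * (((p : ℝ) / 2) ^ k * (p - k).factorial) := by
        push_cast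
        have : (p : ℝ) * r = (2 * r) * (p / 2) := by ring
        rw [this, mul_pow]
        ring
    _ ≤ 1 * p.factorial := by
        apply mul_le_mul _ h3 (by positivity) (by norm_num)
        rw [div_le_one hk0]
        exact h4
    _ = p.factorial := one_mul _

/-- PERM -/
theorem perm (V P C : Type u) [Fintype V] [Fintype P] [Fintype C] (R : V → Finset (P × C))
    (r k : ℕ) (hPC : Fintype.card P = Fintype.card C) (hR : ∀ v, (R v).card ≤ Fintype.card P * r)
    (hrk : 16 * r ≤ k) (hkp : 2 * k ≤ Fintype.card P)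
    (hV : Fintype.card V < 2 ^ k) :
    ∃ σ : P ≃ C, ∀ v, (univ.filter fun b => (b, σ b) ∈ R v).card ≤ k := by
  by_contra hcon
  push Not at hcon
  have h1 : (univ : Finset (P ≃ C)) ⊆ (univ : Finset V).biUnion fun v =>
      univ.filter fun σ : P ≃ C => k ≤ (univ.filter fun b => (b, σ b) ∈ R v).card := by
    intro σ _
    obtain ⟨v, hv⟩ := hcon σ
    rw [mem_biUnion]
    exact ⟨v, mem_univ _, mem_filter.2 ⟨mem_univ _, hv.le⟩⟩
  have h2 := (card_le_card h1).trans card_biUnion_le
  have h3 : (univ : Finset (P ≃ C)).card = (Fintype.card P).factorial := by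
    rw [card_univ]
    exact Fintype.card_equiv (Fintype.equivOfCardEq hPC)
  rw [h3] at h2
  have h4 : ((Fintype.card P).factorial : ℝ) * 2 ^ k ≤ Fintype.card V * (Fintype.card P).factorial := by
    have h5 : ((Fintype.card P).factorial : ℝ) ≤ ∑ v : V,
        ((univ.filter fun σ : P ≃ C => k ≤ (univ.filter fun b => (b, σ b) ∈ R v).card).card : ℝ) := by
      exact_mod_cast h2
    calc ((Fintype.card P).factorial : ℝ) * 2 ^ k ≤ (∑ v : V,
        ((univ.filter fun σ : P ≃ C => k ≤ (univ.filter fun b => (b, σ b) ∈ R v).card).card : ℝ)) *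
          2 ^ k := mul_le_mul_of_nonneg_right h5 (by positivity)
      _ = ∑ v : V, ((univ.filter fun σ : P ≃ C =>
          k ≤ (univ.filter fun b => (b, σ b) ∈ R v).card).card : ℝ) * 2 ^ k := by rw [sum_mul]
      _ ≤ ∑ v : V, ((Fintype.card P).factorial : ℝ) := by
          apply sum_le_sum
          intro v _
          exact card_bad' (R v) r k (hR v) hrk hkp
      _ = _ := by rw [sum_const, card_univ, nsmul_eq_mul]
  have h5 : (0 : ℝ) < (Fintype.card P).factorial := by positivity
  have h6 : (2 : ℝ) ^ k ≤ Fintype.card V := by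
    have : ((Fintype.card P).factorial : ℝ) * 2 ^ k ≤ (Fintype.card P).factorial * Fintype.card V := by
      linarith
    exact le_of_mul_le_mul_left this h5
  have h7 : 2 ^ k ≤ Fintype.card V := by exact_mod_cast h6
  omega

/-- block PERM of DENSE-ALL -/
theorem stmt_PERM : Pool.Agent.Work.MP_db9399_da_helper72.Stmt_PERM.{u} := by
  intro V P C _ _ _ R r k hPC hR _ hrk hkp hV
  exact perm V P C R r k hPC hR hrk hkp hV

end Pool.Agent.Work.MP_db9399_bp_helper22
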