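import Mathlib

/-!
# Rounding with small discrepancy and exact classes (Beck-Fiala with exact classes, helper22)

`M : R → E → ℝ` is a matrix whose columns have `ℓ¹`-norm at most `t`, and every `e : E` is in at most
one class `w : W`.  Every `p : E → [0, 1]` can be rounded to `z : E → {0, 1}` such that the sums over
all classes change by less than `1` and all rows of `M` change by less than `2 t`.
-/

set_option autoImplicit false

namespace Pool.Agent.Work.MP_db9399_bp_helper22

open Finset

variable {E R W : Type*} [Fintype E] [Fintype R] [Fintype W] [DecidableEq E] [DecidableEq R]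
  [DecidableEq W]

omit [Fintype R] [Fintype W] [DecidableEq E] [DecidableEq R] [DecidableEq W] in
/-- moving a point of the cube along a direction until a floating coordinate becomes integral -/
theorem move (p y : E → ℝ) (hp : ∀ e, 0 ≤ p e ∧ p e ≤ 1) (hy : ∀ e, (p e = 0 ∨ p e = 1) → y e = 0)
    (hy0 : ∃ e, y e ≠ 0) :
    ∃ s : ℝ, (∀ e, 0 ≤ p e + s * y e ∧ p e + s * y e ≤ 1) ∧
      ∃ e, ¬ (p e = 0 ∨ p e = 1) ∧ (p e + s * y e = 0 ∨ p e + s * y e = 1) := by
  classical
  -- the time at which the coordinate `e` leaves
  set T : E → ℝ := fun e => if 0 < y e then (1 - p e) / y e else (p e) / (- y e) with hT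
  obtain ⟨e0, he0⟩ := hy0
  obtain ⟨e1, he1, hmin⟩ := exists_min_image (univ.filter fun e => y e ≠ 0) T
    ⟨e0, by simp [he0]⟩
  rw [mem_filter] at he1
  have hTnn : ∀ e, y e ≠ 0 → 0 ≤ T e := by
    intro e he
    rw [hT]
    simp only
    split_ifs with h
    · exact div_nonneg (by linarith [(hp e).2]) h.le
    · exact div_nonneg (hp e).1 (by push Not at h; linarith)
  refine ⟨T e1, ?_, e1, ?_, ?_⟩
  · intro e
    by_cases he : y e = 0
    · rw [he, mul_zero, add_zero]; exact hp e
    · have h1 := hmin e (by simp [he])
      have h2 := hTnn e1 he1.2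
      rcases lt_or_gt_of_ne he with h | h
      · have h3 : T e = p e / (- y e) := by
          rw [hT]; simp only; rw [if_neg (not_lt.2 h.le)]
        rw [h3, le_div_iff₀ (by linarith)] at h1
        constructor
        · nlinarith
        · nlinarith [(hp e).2]
      · have h3 : T e = (1 - p e) / (y e) := by
          rw [hT]; simp only; rw [if_pos h]
        rw [h3, le_div_iff₀ h] at h1
        constructor
        · nlinarith [(hp e).1]
        · nlinarith
  · intro h
    exact he1.2 (hy e1 h)
  · rcases lt_or_gt_of_ne he1.2 with h | h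
    · have h3 : T e1 = p e1 / (- y e1) := by
        rw [hT]; simp only; rw [if_neg (not_lt.2 h.le)]
      left
      rw [h3, div_neg, neg_mul, div_mul_cancel₀ _ he1.2]
      ring
    · have h3 : T e1 = (1 - p e1) / (y e1) := by
        rw [hT]; simp only; rw [if_pos h]
      right
      rw [h3, div_mul_cancel₀ _ he1.2]
      ring

/-- a direction supported on `F` which satisfies fewer than `#F` linear constraints -/
theorem direction (F : Finset E) (Rp : Finset R) (Wp : Finset W) (M : R → E → ℝ)
    (N : W → E → ℝ) (hc : Rp.card + Wp.card < F.card) :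
    ∃ y : E → ℝ, (∀ e, e ∉ F → y e = 0) ∧ (∃ e, y e ≠ 0) ∧ (∀ r ∈ Rp, ∑ e, M r e * y e = 0) ∧
      ∀ w ∈ Wp, ∑ e, N w e * y e = 0 := by
  classical
  let φ : (F → ℝ) →ₗ[ℝ] ((Rp → ℝ) × (Wp → ℝ)) :=
    LinearMap.prod
      (LinearMap.pi fun r => ∑ e : F, (M r.1 e.1) • LinearMap.proj e)
      (LinearMap.pi fun w => ∑ e : F, (N w.1 e.1) • LinearMap.proj e)
  have h1 : LinearMap.ker φ ≠ ⊥ := by
    apply LinearMap.ker_ne_bot_of_finrank_lt
    rw [Module.finrank_prod, Module.finrank_fintype_fun_eq_card, Module.finrank_fintype_fun_eq_card,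
      Module.finrank_fintype_fun_eq_card, Fintype.card_coe, Fintype.card_coe, Fintype.card_coe]
    exact hc
  obtain ⟨y, hy, hy0⟩ := (Submodule.ne_bot_iff _).1 h1
  rw [LinearMap.mem_ker] at hy
  have hext : ∀ g : E → ℝ, ∑ e, g e * (if h : e ∈ F then y ⟨e, h⟩ else 0) =
      ∑ e : F, g e.1 * y e := by
    intro g
    rw [← sum_subset (subset_univ F)]
    · rw [← sum_coe_sort F]
      apply sum_congr rfl
      intro e _
      rw [dif_pos e.2]
    · intro e _ he
      rw [dif_neg he, mul_zero]
  refine ⟨fun e => if h : e ∈ F then y ⟨e, h⟩ else 0, ?_, ?_, ?_, ?_⟩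
  · intro e he
    exact dif_neg he
  · by_contra hcon
    push Not at hcon
    apply hy0
    funext e
    have := hcon e.1
    rw [dif_pos e.2] at this
    simpa using this
  · intro r hr
    rw [hext]
    have h2 : (φ y).1 ⟨r, hr⟩ = 0 := by rw [hy]; rfl
    rw [← h2]
    simp [φ]
  · intro w hw
    rw [hext]
    have h2 : (φ y).2 ⟨w, hw⟩ = 0 := by rw [hy]; rfl
    rw [← h2]
    simp [φ]

/-- ROUNDING -/
theorem round (M : R → E → ℝ) (t : ℝ) (ht : 0 < t) (hM : ∀ e, ∑ r, |M r e| ≤ t)
    (cls : E → Option W) (p : E → ℝ) (hp : ∀ e, 0 ≤ p e ∧ p e ≤ 1) :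
    ∃ z : E → ℝ, (∀ e, z e = 0 ∨ z e = 1) ∧ (∀ e, (p e = 0 ∨ p e = 1) → z e = p e) ∧
      (∀ r, |∑ e, M r e * (z e - p e)| < 2 * t) ∧
      ∀ w, |∑ e ∈ univ.filter (fun e => cls e = some w), (z e - p e)| < 1 := by
  classical
  generalize hn : (univ.filter fun e => ¬ (p e = 0 ∨ p e = 1)).card = n
  induction n using Nat.strong_induction_on generalizing p with
  | _ n ih =>
  set F : Finset E := univ.filter fun e => ¬ (p e = 0 ∨ p e = 1) with hF
  rcases F.eq_empty_or_nonempty with hFe | hFne
  · refine ⟨p, ?_, fun _ _ => rfl, ?_, ?_⟩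
    · intro e
      by_contra hcon
      have : e ∈ F := by rw [hF, mem_filter]; exact ⟨mem_univ _, hcon⟩
      rw [hFe] at this
      exact absurd this (notMem_empty e)
    · intro r
      simp
      linarith
    · intro w
      simp
  -- the protected rows and classes
  set Rp : Finset R := univ.filter fun r => 2 * t < ∑ e ∈ F, |M r e| with hRp
  set Wp : Finset W := univ.filter fun w => 2 ≤ (F.filter fun e => cls e = some w).card with hWp
  have hcount : Rp.card + Wp.card < F.card := by
    have h1 : 2 * Wp.card ≤ F.card := by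
      calc 2 * Wp.card = ∑ w ∈ Wp, 2 := by rw [sum_const, smul_eq_mul, mul_comm]
        _ ≤ ∑ w ∈ Wp, (F.filter fun e => cls e = some w).card := by
            apply sum_le_sum
            intro w hw
            rw [hWp, mem_filter] at hw
            exact hw.2
        _ ≤ F.card := by
            rw [← card_biUnion]
            · apply card_le_card
              intro e he
              rw [mem_biUnion] at he
              obtain ⟨w, _, hw⟩ := he
              exact (mem_filter.1 hw).1
            · intro w _ w' _ hww
              rw [Function.onFun, disjoint_left]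
              intro e he he'
              rw [mem_filter] at he he'
              exact hww (Option.some_injective _ (he.2.symm.trans he'.2))
    have h2 : 2 * (Rp.card : ℝ) * t ≤ ∑ r ∈ Rp, ∑ e ∈ F, |M r e| := by
      have : ∑ r ∈ Rp, (2 * t) ≤ ∑ r ∈ Rp, ∑ e ∈ F, |M r e| := by
        apply sum_le_sum
        intro r hr
        rw [hRp, mem_filter] at hr
        exact hr.2.le
      rw [sum_const, nsmul_eq_mul] at this
      linarith
    have h3 : ∑ r ∈ Rp, ∑ e ∈ F, |M r e| ≤ F.card * t := by
      rw [sum_comm]
      calc ∑ e ∈ F, ∑ r ∈ Rp, |M r e| ≤ ∑ e ∈ F, t := by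
            apply sum_le_sum
            intro e _
            refine le_trans ?_ (hM e)
            exact sum_le_univ_sum_of_nonneg (fun _ => abs_nonneg _)
        _ = F.card * t := by rw [sum_const, nsmul_eq_mul]
    rcases Rp.eq_empty_or_nonempty with hR | hR
    · rw [hR, card_empty, zero_add]
      have := card_pos.2 hFne
      omega
    · have h4 : ∑ r ∈ Rp, (2 * t) < ∑ r ∈ Rp, ∑ e ∈ F, |M r e| := by
        apply sum_lt_sum_of_nonempty hR
        intro r hr
        rw [hRp, mem_filter] at hr
        exact hr.2
      rw [sum_const, nsmul_eq_mul] at h4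
      have h5 : (2 * (Rp.card : ℝ)) * t < F.card * t := by linarith
      have h6 : 2 * (Rp.card : ℝ) < F.card := lt_of_mul_lt_mul_right h5 ht.le
      have h7 : 2 * Rp.card < F.card := by exact_mod_cast h6
      omega
  obtain ⟨y, hy1, hy2, hy3, hy4'⟩ := direction F Rp Wp M
    (fun w e => if cls e = some w then 1 else 0) hcount
  have hy4 : ∀ w ∈ Wp, ∑ e ∈ univ.filter (fun e => cls e = some w), y e = 0 := by
    intro w hw
    have h1 := hy4' w hw
    rw [sum_filter]
    refine Eq.trans (sum_congr rfl fun e _ => ?_) h1
    split_ifs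
    · rw [one_mul]
    · rw [zero_mul]
  obtain ⟨s, hs1, e1, he1, hs2⟩ := move p y hp (fun e he => hy1 e (by
    rw [hF, mem_filter]
    exact fun h => h.2 he)) hy2
  set p' : E → ℝ := fun e => p e + s * y e with hp'
  have hsub : (univ.filter fun e => ¬ (p' e = 0 ∨ p' e = 1)).card < n := by
    rw [← hn]
    apply card_lt_card
    rw [ssubset_iff_of_subset]
    · refine ⟨e1, mem_filter.2 ⟨mem_univ _, he1⟩, ?_⟩
      rw [mem_filter]
      exact fun h => h.2 hs2
    · intro e he
      rw [mem_filter] at he
      by_contra hcon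
      have h1 : y e = 0 := hy1 e hcon
      have h2 : p' e = p e := by rw [hp']; simp only; rw [h1, mul_zero, add_zero]
      rw [h2] at he
      exact hcon (mem_filter.2 he)
  obtain ⟨z, hz1, hz2, hz3, hz4⟩ := ih _ hsub p' hs1 rfl
  have hzp : ∀ e, e ∉ F → z e = p e := by
    intro e he
    have h1 : y e = 0 := hy1 e he
    have h2 : p' e = p e := by rw [hp']; simp only; rw [h1, mul_zero, add_zero]
    have h3 : p e = 0 ∨ p e = 1 := by
      by_contra hcon
      exact he (mem_filter.2 ⟨mem_univ _, hcon⟩)
    rw [← h2]
    exact hz2 e (by rw [h2]; exact h3)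
  have hlt : ∀ e ∈ F, |z e - p e| < 1 := by
    intro e he
    rw [hF, mem_filter, not_or] at he
    have h1 := hp e
    have h2 : 0 < p e := lt_of_le_of_ne h1.1 (Ne.symm he.2.1)
    have h3 : p e < 1 := lt_of_le_of_ne h1.2 he.2.2
    rw [abs_lt]
    rcases hz1 e with h | h <;> rw [h] <;> constructor <;> linarith
  refine ⟨z, hz1, ?_, ?_, ?_⟩
  · intro e he
    apply hzp
    rw [hF, mem_filter]
    exact fun h => h.2 he
  · intro r
    by_cases hr : r ∈ Rp
    · have h1 : ∑ e, M r e * (z e - p e) = ∑ e, M r e * (z e - p' e) := by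
        have h2 : ∑ e, M r e * (z e - p e) = ∑ e, M r e * (z e - p' e) + s * ∑ e, M r e * y e := by
          rw [mul_sum, ← sum_add_distrib]
          apply sum_congr rfl
          intro e _
          rw [hp']
          ring
        rw [h2, hy3 r hr, mul_zero, add_zero]
      rw [h1]
      exact hz3 r
    · have h1 : ∑ e ∈ F, |M r e| ≤ 2 * t := by
        by_contra hcon
        push Not at hcon
        exact hr (mem_filter.2 ⟨mem_univ _, hcon⟩)
      have h2 : ∑ e, M r e * (z e - p e) = ∑ e ∈ F, M r e * (z e - p e) := by
        rw [← sum_subset (subset_univ F)]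
        intro e _ he
        rw [hzp e he, sub_self, mul_zero]
      rw [h2]
      by_cases h3 : ∀ e ∈ F, M r e = 0
      · rw [sum_eq_zero (fun e he => by rw [h3 e he, zero_mul]), abs_zero]
        linarith
      · push Not at h3
        obtain ⟨e2, he2, hne⟩ := h3
        refine lt_of_le_of_lt (abs_sum_le_sum_abs _ _) (lt_of_lt_of_le ?_ h1)
        apply sum_lt_sum
        · intro e he
          rw [abs_mul]
          exact mul_le_of_le_one_right (abs_nonneg _) (hlt e he).le
        · refine ⟨e2, he2, ?_⟩
          rw [abs_mul]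
          exact mul_lt_of_lt_one_right (abs_pos.2 hne) (hlt e2 he2)
  · intro w
    by_cases hw : w ∈ Wp
    · have h1 : ∑ e ∈ univ.filter (fun e => cls e = some w), (z e - p e) =
          ∑ e ∈ univ.filter (fun e => cls e = some w), (z e - p' e) := by
        have h2 : ∑ e ∈ univ.filter (fun e => cls e = some w), (z e - p e) =
            ∑ e ∈ univ.filter (fun e => cls e = some w), (z e - p' e) +
              s * ∑ e ∈ univ.filter (fun e => cls e = some w), y e := by
          rw [mul_sum, ← sum_add_distrib]
          apply sum_congr rfl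
          intro e _
          rw [hp']
          ring
        rw [h2, hy4 w hw, mul_zero, add_zero]
      rw [h1]
      exact hz4 w
    · have h1 : (F.filter fun e => cls e = some w).card ≤ 1 := by
        by_contra hcon
        push Not at hcon
        exact hw (mem_filter.2 ⟨mem_univ _, hcon⟩)
      have h2 : ∑ e ∈ univ.filter (fun e => cls e = some w), (z e - p e) =
          ∑ e ∈ F.filter (fun e => cls e = some w), (z e - p e) := by
        symm
        apply sum_subset
        · intro e he
          rw [mem_filter] at he ⊢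
          exact ⟨mem_univ _, he.2⟩
        · intro e he he'
          rw [mem_filter] at he he'
          rw [hzp e (fun h => he' ⟨h, he.2⟩), sub_self]
      rw [h2]
      rcases Nat.lt_or_ge 0 (F.filter fun e => cls e = some w).card with h3 | h3
      · obtain ⟨e2, he2⟩ := card_eq_one.1 (le_antisymm h1 h3)
        rw [he2, sum_singleton]
        apply hlt
        have : e2 ∈ F.filter fun e => cls e = some w := by rw [he2]; exact mem_singleton_self _
        exact (mem_filter.1 this).1
      · have h4 : F.filter (fun e => cls e = some w) = ∅ := by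
          rw [← card_eq_zero]
          omega
        rw [h4, sum_empty, abs_zero]
        exact one_pos

end Pool.Agent.Work.MP_db9399_bp_helper22
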