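import Mathlib
import Pool.Agent.Work.MP_db9399_bp_helper22.Round

/-!
# Splitting into `K` parts with small discrepancy and exact classes (HALF, helper22)

`M : R → E → ℝ` is a matrix whose columns have `ℓ¹`-norm at most `t`, and every `e : E` is in at most
one class `w : W`.  Every finite set `S` can be split into `K` parts such that the size of the
intersection of a part with a class `w` is `#w / K`, rounded up or down (so exact if `K ∣ #w`), and
the sum of every row over every part is `(1 / K) ∑ e ∈ S, M r e` up to `6 t`.

For multigraphs (`split_graph`): vertex degrees and signed node sums; exact degrees at a set of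
vertices no two of which are joined by an edge.
-/

set_option autoImplicit false

namespace Pool.Agent.Work.MP_db9399_bp_helper22

open Finset

/-- nested rounding -/
theorem nested (K K1 n n1 s : ℕ) (h1 : K1 * n < K * n1 + K)
    (h2 : K * n1 < K1 * n + K) (h3 : n1 < K1 * s + K1) (h4 : K1 * s < n1 + K1) :
    n < K * s + K ∧ K * s < n + K := by
  have hK : 0 < K := by
    rcases Nat.eq_zero_or_pos K with h | h
    · rw [h] at h2; simp at h2
      rw [h] at h1; omega
    · exact h
  obtain ⟨m, ρ, hρ, hn⟩ : ∃ m ρ, ρ < K ∧ n = K * m + ρ :=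
    ⟨n / K, n % K, Nat.mod_lt _ hK, (Nat.div_add_mod n K).symm⟩
  have e1 : K1 * m ≤ n1 := by
    have : K * (K1 * m) < K * (n1 + 1) := by
      calc K * (K1 * m) = K1 * (K * m) := by ring
        _ ≤ K1 * n := Nat.mul_le_mul_left _ (by omega)
        _ < K * n1 + K := h1
        _ = K * (n1 + 1) := by ring
    have := Nat.lt_of_mul_lt_mul_left this
    omega
  have e2 : n1 ≤ K1 * (m + 1) := by
    have : K * n1 < K * (K1 * (m + 1) + 1) := by
      calc K * n1 < K1 * n + K := h2
        _ ≤ K1 * (K * m + K) + K := Nat.add_le_add_right (Nat.mul_le_mul_left _ (by omega)) _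
        _ = K * (K1 * (m + 1) + 1) := by ring
    have := Nat.lt_of_mul_lt_mul_left this
    omega
  have e3 : m ≤ s := by
    have : K1 * m < K1 * (s + 1) := by
      calc K1 * m ≤ n1 := e1
        _ < K1 * s + K1 := h3
        _ = K1 * (s + 1) := by ring
    have := Nat.lt_of_mul_lt_mul_left this
    omega
  have e4 : s ≤ m + 1 := by
    have : K1 * s < K1 * (m + 2) := by
      calc K1 * s < n1 + K1 := h4
        _ ≤ K1 * (m + 1) + K1 := by omega
        _ = K1 * (m + 2) := by ring
    have := Nat.lt_of_mul_lt_mul_left this
    omega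
  rcases Nat.eq_or_lt_of_le e3 with h | h
  · subst h
    omega
  · have hs : s = m + 1 := by omega
    subst hs
    have hρ0 : 0 < ρ := by
      by_contra hcon
      have hρ0 : ρ = 0 := by omega
      rw [hρ0, add_zero] at hn
      rw [hn] at h2
      have e5 : n1 ≤ K1 * m := by
        have : K * n1 < K * (K1 * m + 1) := by
          calc K * n1 < K1 * (K * m) + K := h2
            _ = K * (K1 * m + 1) := by ring
        have := Nat.lt_of_mul_lt_mul_left this
        omega
      have e6 : K1 * (m + 1) = K1 * m + K1 := by ring
      omega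
    have e7 : K * (m + 1) = K * m + K := by ring
    constructor <;> omega

variable {E R W : Type*} [Fintype E] [Fintype R] [Fintype W] [DecidableEq E] [DecidableEq R]
  [DecidableEq W]

/-- one splitting step -/
theorem split_step (M : R → E → ℝ) (t : ℝ) (ht : 0 < t) (hM : ∀ e, ∑ r, |M r e| ≤ t)
    (cls : E → Option W) (K K1 : ℕ) (hK1 : K1 ≤ K) (hK : 0 < K) (S : Finset E) :
    ∃ S1 ⊆ S, (∀ r, |∑ e ∈ S1, M r e - (K1 / K : ℝ) * ∑ e ∈ S, M r e| < 2 * t) ∧
      ∀ w, K1 * (S.filter fun e => cls e = some w).card <
          K * (S1.filter fun e => cls e = some w).card + K ∧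
        K * (S1.filter fun e => cls e = some w).card <
          K1 * (S.filter fun e => cls e = some w).card + K := by
  classical
  have hKR : (0 : ℝ) < K := by exact_mod_cast hK
  have hq0 : (0 : ℝ) ≤ K1 / K := by positivity
  have hq1 : (K1 / K : ℝ) ≤ 1 := by
    rw [div_le_one hKR]; exact_mod_cast hK1
  obtain ⟨z, hz1, hz2, hz3, hz4⟩ := round M t ht hM cls (fun e => if e ∈ S then (K1 / K : ℝ) else 0)
    (by
      intro e
      split_ifs
      · exact ⟨hq0, hq1⟩
      · exact ⟨le_refl _, zero_le_one⟩)
  have hzS : ∀ e, e ∉ S → z e = 0 := by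
    intro e he
    have := hz2 e (by left; exact if_neg he)
    rw [this, if_neg he]
  set S1 : Finset E := univ.filter fun e => z e = 1 with hS1
  have hS1S : S1 ⊆ S := by
    intro e he
    by_contra hcon
    rw [hS1, mem_filter, hzS e hcon] at he
    exact zero_ne_one he.2
  have hzi : ∀ e, z e = if e ∈ S1 then 1 else 0 := by
    intro e
    rcases hz1 e with h | h
    · rw [if_neg, h]
      rw [hS1, mem_filter, h]
      exact fun h => zero_ne_one h.2
    · rw [if_pos, h]
      rw [hS1, mem_filter]
      exact ⟨mem_univ _, h⟩
  refine ⟨S1, hS1S, ?_, ?_⟩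
  · intro r
    have h1 := hz3 r
    have h2 : ∑ e, M r e * (z e - if e ∈ S then (K1 / K : ℝ) else 0) =
        ∑ e ∈ S1, M r e - (K1 / K : ℝ) * ∑ e ∈ S, M r e := by
      have h3 : ∑ e ∈ S1, M r e = ∑ e, M r e * (if e ∈ S1 then 1 else 0) := by
        rw [← sum_subset (subset_univ S1)]
        · apply sum_congr rfl
          intro e he
          rw [if_pos he, mul_one]
        · intro e _ he
          rw [if_neg he, mul_zero]
      have h4 : ∑ e ∈ S, M r e = ∑ e, M r e * (if e ∈ S then 1 else 0) := by
        rw [← sum_subset (subset_univ S)]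
        · apply sum_congr rfl
          intro e he
          rw [if_pos he, mul_one]
        · intro e _ he
          rw [if_neg he, mul_zero]
      rw [h3, h4, mul_sum, ← sum_sub_distrib]
      apply sum_congr rfl
      intro e _
      rw [hzi]
      by_cases h5 : e ∈ S
      · rw [if_pos h5, if_pos h5]; ring
      · rw [if_neg h5, if_neg h5]; ring
    rw [h2] at h1
    exact h1
  · intro w
    have h1 := hz4 w
    have h2 : ∑ e ∈ univ.filter (fun e => cls e = some w), (z e - if e ∈ S then (K1 / K : ℝ) else 0) =
        ((S1.filter fun e => cls e = some w).card : ℝ) -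
          (K1 / K : ℝ) * ((S.filter fun e => cls e = some w).card : ℝ) := by
      rw [sum_sub_distrib]
      congr 1
      · rw [card_filter, Nat.cast_sum]
        rw [sum_filter]
        rw [← sum_subset (subset_univ S1)]
        · apply sum_congr rfl
          intro e he
          rw [hzi, if_pos he]
          split_ifs <;> simp
        · intro e _ he
          rw [hzi, if_neg he, ite_self]
      · rw [card_filter, Nat.cast_sum, mul_sum]
        rw [sum_filter]
        rw [← sum_subset (subset_univ S)]
        · apply sum_congr rfl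
          intro e he
          rw [if_pos he]
          split_ifs <;> simp
        · intro e _ he
          rw [if_neg he, ite_self]
    rw [h2, abs_lt] at h1
    obtain ⟨h3, h4⟩ := h1
    have h5 : (K1 / K : ℝ) * ((S.filter fun e => cls e = some w).card : ℝ) =
        (K1 * (S.filter fun e => cls e = some w).card : ℝ) / K := by ring
    rw [h5] at h3 h4
    constructor
    · have h6 : (K1 * (S.filter fun e => cls e = some w).card : ℝ) / K <
          (S1.filter fun e => cls e = some w).card + 1 := by linarith
      rw [div_lt_iff₀ hKR] at h6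
      have h7 : (K1 * (S.filter fun e => cls e = some w).card : ℝ) <
          K * (S1.filter fun e => cls e = some w).card + K := by linarith
      exact_mod_cast h7
    · have h6 : ((S1.filter fun e => cls e = some w).card : ℝ) - 1 <
          (K1 * (S.filter fun e => cls e = some w).card : ℝ) / K := by linarith
      rw [lt_div_iff₀ hKR] at h6
      have h7 : (K * (S1.filter fun e => cls e = some w).card : ℝ) <
          K1 * (S.filter fun e => cls e = some w).card + K := by linarith
      exact_mod_cast h7

/-- SPLIT: `K` parts, exact classes, small discrepancy for all rows -/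
theorem split (M : R → E → ℝ) (t : ℝ) (ht : 0 < t) (hM : ∀ e, ∑ r, |M r e| ≤ t)
    (cls : E → Option W) (K : ℕ) (hK : 0 < K) (S : Finset E) :
    ∃ g : E → ℕ, (∀ e, g e < K) ∧
      (∀ r, ∀ a < K, |∑ e ∈ S.filter (fun e => g e = a), M r e - (1 / K : ℝ) * ∑ e ∈ S, M r e| ≤
        6 * t * (1 - 1 / K)) ∧
      ∀ w, ∀ a < K, (S.filter fun e => cls e = some w).card <
          K * (S.filter fun e => cls e = some w ∧ g e = a).card + K ∧
        K * (S.filter fun e => cls e = some w ∧ g e = a).card <
          (S.filter fun e => cls e = some w).card + K := by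
  classical
  induction K using Nat.strong_induction_on generalizing S with
  | _ K ih =>
  rcases Nat.lt_or_ge K 2 with hK2 | hK2
  · have hK1 : K = 1 := by omega
    subst hK1
    refine ⟨fun _ => 0, fun _ => Nat.zero_lt_one, ?_, ?_⟩
    · intro r a ha
      have ha0 : a = 0 := by omega
      subst ha0
      rw [filter_true_of_mem (fun _ _ => rfl)]
      simp
    · intro w a ha
      have ha0 : a = 0 := by omega
      subst ha0
      simp
  · set K1 := K / 2 with hK1
    set K2 := K - K1 with hK2'
    have hKs : K1 + K2 = K := by omega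
    have hK1pos : 0 < K1 := by omega
    have hK2pos : 0 < K2 := by omega
    obtain ⟨S1, hS1, hr1, hc1⟩ := split_step M t ht hM cls K K1 (by omega) hK S
    obtain ⟨g1, hg1, hg1r, hg1c⟩ := ih K1 (by omega) hK1pos S1
    obtain ⟨g2, hg2, hg2r, hg2c⟩ := ih K2 (by omega) hK2pos (S \ S1)
    have hKR : (0 : ℝ) < K := by exact_mod_cast hK
    have hr2 : ∀ r, |∑ e ∈ S \ S1, M r e - (K2 / K : ℝ) * ∑ e ∈ S, M r e| < 2 * t := by
      intro r
      have h1 : ∑ e ∈ S \ S1, M r e + ∑ e ∈ S1, M r e = ∑ e ∈ S, M r e :=
        sum_sdiff hS1
      have h2 : ∑ e ∈ S \ S1, M r e - (K2 / K : ℝ) * ∑ e ∈ S, M r e =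
          -(∑ e ∈ S1, M r e - (K1 / K : ℝ) * ∑ e ∈ S, M r e) := by
        have h3 : (K2 / K : ℝ) = 1 - K1 / K := by
          have : (K2 : ℝ) = K - K1 := by
            have : (K1 : ℝ) + K2 = K := by exact_mod_cast hKs
            linarith
          rw [this]
          field_simp
        rw [h3]
        linarith
      rw [h2, abs_neg]
      exact hr1 r
    have hc2 : ∀ w, K2 * (S.filter fun e => cls e = some w).card <
          K * ((S \ S1).filter fun e => cls e = some w).card + K ∧
        K * ((S \ S1).filter fun e => cls e = some w).card <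
          K2 * (S.filter fun e => cls e = some w).card + K := by
      intro w
      have h1 := hc1 w
      have h2 : ((S \ S1).filter fun e => cls e = some w).card +
          (S1.filter fun e => cls e = some w).card = (S.filter fun e => cls e = some w).card := by
        rw [← card_union_of_disjoint]
        · congr 1
          ext e
          rw [mem_union, mem_filter, mem_filter, mem_filter, mem_sdiff]
          constructor
          · rintro (h | h)
            · exact ⟨h.1.1, h.2⟩
            · exact ⟨hS1 h.1, h.2⟩
          · intro h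
            by_cases h3 : e ∈ S1
            · exact Or.inr ⟨h3, h.2⟩
            · exact Or.inl ⟨⟨h.1, h3⟩, h.2⟩
        · rw [disjoint_left]
          intro e he he'
          rw [mem_filter, mem_sdiff] at he
          exact he.1.2 (mem_filter.1 he').1
      generalize ((S \ S1).filter fun e => cls e = some w).card = a at *
      generalize (S1.filter fun e => cls e = some w).card = b at *
      generalize (S.filter fun e => cls e = some w).card = c at *
      subst h2
      have h3 : K * a + K * b = K1 * (a + b) + K2 * (a + b) := by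
        rw [← hKs]; ring
      omega
    refine ⟨fun e => if e ∈ S1 then g1 e else K1 + g2 e, ?_, ?_, ?_⟩
    · intro e
      dsimp only
      split_ifs
      · have := hg1 e
        omega
      · have := hg2 e
        omega
    · intro r a ha
      -- the general estimate
      have key : ∀ (k : ℕ) (A B C : ℝ), 0 < k → 3 * k ≤ 2 * K → |A - (1 / k : ℝ) * B| ≤
          6 * t * (1 - 1 / k) → |B - (k / K : ℝ) * C| < 2 * t →
          |A - (1 / K : ℝ) * C| ≤ 6 * t * (1 - 1 / K) := by
        intro k A B C hk hkK h1 h2
        have hkR : (0 : ℝ) < k := by exact_mod_cast hk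
        have h3 : A - (1 / K : ℝ) * C = (A - (1 / k : ℝ) * B) + (1 / k : ℝ) * (B - (k / K : ℝ) * C) := by
          field_simp
          ring
        rw [h3]
        refine (abs_add_le _ _).trans ?_
        rw [abs_mul, abs_of_pos (by positivity : (0 : ℝ) < 1 / k)]
        have h4 : (1 / k : ℝ) * |B - (k / K : ℝ) * C| ≤ (1 / k : ℝ) * (2 * t) :=
          mul_le_mul_of_nonneg_left h2.le (by positivity)
        have h5 : (1 / k : ℝ) * 2 ≥ (1 / K : ℝ) * 3 := by
          rw [ge_iff_le, div_mul_eq_mul_div, div_mul_eq_mul_div, div_le_div_iff₀ hKR hkR]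
          have : (3 : ℝ) * k ≤ 2 * K := by exact_mod_cast hkK
          linarith
        nlinarith
      by_cases haK : a < K1
      · have h1 : S.filter (fun e => (if e ∈ S1 then g1 e else K1 + g2 e) = a) =
            S1.filter (fun e => g1 e = a) := by
          ext e
          rw [mem_filter, mem_filter]
          constructor
          · rintro ⟨h2, h3⟩
            by_cases h4 : e ∈ S1
            · rw [if_pos h4] at h3
              exact ⟨h4, h3⟩
            · rw [if_neg h4] at h3
              omega
          · rintro ⟨h2, h3⟩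
            exact ⟨hS1 h2, by rw [if_pos h2]; exact h3⟩
        rw [h1]
        exact key K1 _ _ _ hK1pos (by omega) (hg1r r a haK) (hr1 r)
      · have h1 : S.filter (fun e => (if e ∈ S1 then g1 e else K1 + g2 e) = a) =
            (S \ S1).filter (fun e => g2 e = a - K1) := by
          ext e
          rw [mem_filter, mem_filter, mem_sdiff]
          constructor
          · rintro ⟨h2, h3⟩
            by_cases h4 : e ∈ S1
            · rw [if_pos h4] at h3
              have := hg1 e
              omega
            · rw [if_neg h4] at h3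
              exact ⟨⟨h2, h4⟩, by omega⟩
          · rintro ⟨h2, h3⟩
            exact ⟨h2.1, by rw [if_neg h2.2]; omega⟩
        rw [h1]
        exact key K2 _ _ _ hK2pos (by omega) (hg2r r (a - K1) (by omega)) (hr2 r)
    · intro w a ha
      by_cases haK : a < K1
      · have h1 : S.filter (fun e => cls e = some w ∧ (if e ∈ S1 then g1 e else K1 + g2 e) = a) =
            S1.filter (fun e => cls e = some w ∧ g1 e = a) := by
          ext e
          rw [mem_filter, mem_filter]
          constructor
          · rintro ⟨h2, h2', h3⟩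
            by_cases h4 : e ∈ S1
            · rw [if_pos h4] at h3
              exact ⟨h4, h2', h3⟩
            · rw [if_neg h4] at h3
              omega
          · rintro ⟨h2, h2', h3⟩
            exact ⟨hS1 h2, h2', by rw [if_pos h2]; exact h3⟩
        rw [h1]
        have h2 := hg1c w a haK
        have h3 := hc1 w
        exact nested K K1 _ _ _ h3.1 h3.2 h2.1 h2.2
      · have h1 : S.filter (fun e => cls e = some w ∧ (if e ∈ S1 then g1 e else K1 + g2 e) = a) =
            (S \ S1).filter (fun e => cls e = some w ∧ g2 e = a - K1) := by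
          ext e
          rw [mem_filter, mem_filter, mem_sdiff]
          constructor
          · rintro ⟨h2, h2', h3⟩
            by_cases h4 : e ∈ S1
            · rw [if_pos h4] at h3
              have := hg1 e
              omega
            · rw [if_neg h4] at h3
              exact ⟨⟨h2, h4⟩, h2', by omega⟩
          · rintro ⟨h2, h2', h3⟩
            exact ⟨h2.1, h2', by rw [if_neg h2.2]; omega⟩
        rw [h1]
        have h2 := hg2c w (a - K1) (by omega)
        have h3 := hc2 w
        exact nested K K2 _ _ _ h3.1 h3.2 h2.1 h2.2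

/-- SPLIT for graphs: the edges `S` of a graph are split into `K` groups; all degrees and all
weighted degree sums `∑ v, ρ n v * deg v` (e.g. signed node sums) are `1 / K` of the whole up to a
constant; at the vertices of `Ex` (no two of which are joined by an edge of `S`) the degrees are
`deg / K`, rounded up or down, so exact if `K` divides the degree. -/
theorem split_graph {V N : Type*} [Fintype V] [DecidableEq V] [Fintype N] [DecidableEq N]
    (S : Finset (Sym2 V)) (ρ : N → V → ℝ) (t0 : ℝ) (ht0 : 0 ≤ t0) (hρ : ∀ v, ∑ n, |ρ n v| ≤ t0)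
    (Ex : Finset V) (hEx : ∀ e ∈ S, ∀ u ∈ Ex, ∀ v ∈ Ex, u ∈ e → v ∈ e → u = v) (K : ℕ)
    (hK : 0 < K) :
    ∃ g : Sym2 V → ℕ, (∀ e, g e < K) ∧
      (∀ v, ∀ a < K, |((S.filter fun e => v ∈ e ∧ g e = a).card : ℝ) -
        (1 / K : ℝ) * (S.filter fun e => v ∈ e).card| ≤ 12 * (1 + t0)) ∧
      (∀ n, ∀ a < K, |∑ v, ρ n v * ((S.filter fun e => v ∈ e ∧ g e = a).card : ℝ) -
        (1 / K : ℝ) * ∑ v, ρ n v * ((S.filter fun e => v ∈ e).card : ℝ)| ≤ 12 * (1 + t0)) ∧
      ∀ v ∈ Ex, ∀ a < K, (S.filter fun e => v ∈ e).card <
          K * (S.filter fun e => v ∈ e ∧ g e = a).card + K ∧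
        K * (S.filter fun e => v ∈ e ∧ g e = a).card < (S.filter fun e => v ∈ e).card + K := by
  classical
  -- the matrix: vertex rows and weighted rows
  set M : V ⊕ N → Sym2 V → ℝ := fun r e => Sum.elim (fun v => if v ∈ e then (1 : ℝ) else 0)
    (fun n => ∑ v, ρ n v * (if v ∈ e then (1 : ℝ) else 0)) r with hMdef
  have hends : ∀ e : Sym2 V, ∀ f : V → ℝ, (∀ v, 0 ≤ f v) → ∀ c, (∀ v, f v ≤ c) →
      ∑ v, f v * (if v ∈ e then (1 : ℝ) else 0) ≤ 2 * c := by
    intro e f hf c hc
    have h1 : ∑ v, f v * (if v ∈ e then (1 : ℝ) else 0) = ∑ v ∈ e.toFinset, f v := by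
      rw [← sum_subset (subset_univ e.toFinset)]
      · apply sum_congr rfl
        intro v hv
        rw [if_pos (Sym2.mem_toFinset.1 hv), mul_one]
      · intro v _ hv
        rw [if_neg (fun h => hv (Sym2.mem_toFinset.2 h)), mul_zero]
    have h2 : e.toFinset.card ≤ 2 := by
      rw [Sym2.card_toFinset]
      split_ifs <;> norm_num
    have hc0 : 0 ≤ c := by
      induction e using Sym2.ind with
      | _ x y => exact (hf x).trans (hc x)
    rw [h1]
    calc ∑ v ∈ e.toFinset, f v ≤ ∑ v ∈ e.toFinset, c := sum_le_sum fun v _ => hc v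
      _ = e.toFinset.card * c := by rw [sum_const, nsmul_eq_mul]
      _ ≤ 2 * c := by
          apply mul_le_mul_of_nonneg_right _ hc0
          exact_mod_cast h2
  have hM : ∀ e, ∑ r, |M r e| ≤ 2 * (1 + t0) := by
    intro e
    rw [Fintype.sum_sum_type]
    have h1 : ∑ v : V, |M (Sum.inl v) e| ≤ 2 * 1 := by
      have : ∑ v : V, |M (Sum.inl v) e| = ∑ v : V, (1 : ℝ) * (if v ∈ e then (1 : ℝ) else 0) := by
        apply sum_congr rfl
        intro v _
        simp only [hMdef, Sum.elim_inl]
        split_ifs <;> simp
      rw [this]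
      exact hends e (fun _ => 1) (fun _ => zero_le_one) 1 (fun _ => le_refl _)
    have h2 : ∑ n : N, |M (Sum.inr n) e| ≤ 2 * t0 := by
      calc ∑ n : N, |M (Sum.inr n) e| ≤ ∑ n : N, ∑ v, |ρ n v| * (if v ∈ e then (1 : ℝ) else 0) := by
            apply sum_le_sum
            intro n _
            simp only [hMdef, Sum.elim_inr]
            refine (abs_sum_le_sum_abs _ _).trans (sum_le_sum fun v _ => ?_)
            rw [abs_mul]
            apply le_of_eq
            congr 1
            split_ifs <;> simp
        _ = ∑ v, (∑ n, |ρ n v|) * (if v ∈ e then (1 : ℝ) else 0) := by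
            rw [sum_comm]
            apply sum_congr rfl
            intro v _
            rw [sum_mul]
        _ ≤ 2 * t0 := hends e _ (fun v => sum_nonneg fun _ _ => abs_nonneg _) t0 hρ
    linarith
  -- the classes
  set cls : Sym2 V → Option V := fun e => if h : e ∈ S ∧ ∃ v ∈ Ex, v ∈ e then some h.2.choose else none
    with hcls
  have hclsv : ∀ e ∈ S, ∀ v ∈ Ex, (cls e = some v ↔ v ∈ e) := by
    intro e he v hv
    constructor
    · intro h
      by_cases h1 : e ∈ S ∧ ∃ v ∈ Ex, v ∈ e
      · simp only [hcls] at h
        rw [dif_pos h1, Option.some_inj] at h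
        rw [← h]
        exact h1.2.choose_spec.2
      · simp only [hcls] at h
        rw [dif_neg h1] at h
        exact absurd h (by simp)
    · intro h
      have h1 : e ∈ S ∧ ∃ v ∈ Ex, v ∈ e := ⟨he, v, hv, h⟩
      simp only [hcls]
      rw [dif_pos h1, Option.some_inj]
      exact hEx e he _ h1.2.choose_spec.1 v hv h1.2.choose_spec.2 h
  obtain ⟨g, hg1, hg2, hg3⟩ := split M (2 * (1 + t0)) (by linarith) hM cls K hK S
  have hKR : (0 : ℝ) < K := by exact_mod_cast hK
  have hle : 6 * (2 * (1 + t0)) * (1 - 1 / (K : ℝ)) ≤ 12 * (1 + t0) := by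
    have : 0 ≤ (1 / (K : ℝ)) := by positivity
    nlinarith
  have hsum1 : ∀ (T : Finset (Sym2 V)) (v : V), ∑ e ∈ T, M (Sum.inl v) e =
      ((T.filter fun e => v ∈ e).card : ℝ) := by
    intro T v
    rw [card_filter, Nat.cast_sum]
    apply sum_congr rfl
    intro e _
    simp only [hMdef, Sum.elim_inl]
    split_ifs <;> simp
  have hsum2 : ∀ (T : Finset (Sym2 V)) (n : N), ∑ e ∈ T, M (Sum.inr n) e =
      ∑ v, ρ n v * ((T.filter fun e => v ∈ e).card : ℝ) := by
    intro T n
    simp only [hMdef, Sum.elim_inr]
    rw [sum_comm]
    apply sum_congr rfl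
    intro v _
    rw [← mul_sum, card_filter, Nat.cast_sum]
    congr 1
    apply sum_congr rfl
    intro e _
    split_ifs <;> simp
  have hff : ∀ v a, (S.filter fun e => g e = a).filter (fun e => v ∈ e) =
      S.filter fun e => v ∈ e ∧ g e = a := by
    intro v a
    rw [filter_filter]
    apply filter_congr
    intro e _
    exact and_comm
  refine ⟨g, hg1, ?_, ?_, ?_⟩
  · intro v a ha
    have h1 := hg2 (Sum.inl v) a ha
    rw [hsum1, hsum1, hff] at h1
    exact h1.trans hle
  · intro n a ha
    have h1 := hg2 (Sum.inr n) a ha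
    rw [hsum2, hsum2] at h1
    simp only [hff] at h1
    exact h1.trans hle
  · intro v hv a ha
    have h1 := hg3 v a ha
    have h2 : S.filter (fun e => cls e = some v) = S.filter fun e => v ∈ e := by
      apply filter_congr
      intro e he
      exact hclsv e he v hv
    have h3 : S.filter (fun e => cls e = some v ∧ g e = a) = S.filter fun e => v ∈ e ∧ g e = a := by
      apply filter_congr
      intro e he
      rw [hclsv e he v hv]
    rw [h2, h3] at h1
    exact h1

end Pool.Agent.Work.MP_db9399_bp_helper22
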